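import Pool.Agent.TG.UpperG

/-!
# Monotonicity in `e`

`mono_step`: take the Apery function `w` of `Γ` (`exists_apery`).  By `edim_sg` there are `e` atoms, so (`e + 1 < m`)
there are nonzero non-atoms; let `c` be one with the largest `w c`.  Then `c` is `IsMax`: otherwise
`w (c + y) = w c + w y`, `y ≠ 0`, and `c + y` is a nonzero non-atom with a larger value.
Let `w' x = (1 + m) w x` for `x ≠ c`, `w' c = (1 + m) w c - m`.
(F) if `w (x + y) ≠ w x + w y`, then `w (x + y) + m ≤ w x + w y` (both sides are congruent to `x + y` mod `m`), so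
`(1+m) w (x+y) + m (1+m) ≤ (1+m) w x + (1+m) w y`.
* `IsApery m w'`: `zero` (`c ≠ 0`), `cast`, `lt` are clear; `add`: if `x, y ≠ c`: clear (`w' (x+y) ≤ (1+m) w (x+y)`); if `x = c`, `y = 0` (or
  reversed): clear; if `x = c`, `y ≠ 0`: by (F) (`c` is `IsMax`), `w' c + w' y ≥ (1+m) w c + (1+m) w y - 2 m ≥ w' (c + y)` (as `m (1+m) ≥ 2m`).
* atoms of `w'` = atoms of `w` and `c`: `c` is an atom (`w' y + w' z ≥ (1+m) w c > w' c` for `y + z = c`, `y, z ≠ 0`, hence `y, z ≠ c`);
  an atom `x` of `w` (`x ≠ c`): (F) gives `w' y + w' z ≥ (1+m) w x + m (1+m) - 2m > w' x`; a non-atom `x ≠ c`, `x ≠ 0`: `x = y + z`,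
  `y, z ≠ 0`, `w y + w z = w x`; `y, z ≠ c` as `c` is `IsMax`; so the same equality holds for `w'`.
* an `IsMax` element `x` of `w` is `IsMax` for `w'`: `w' x + w' y ≥ (1+m) (w x + w y) - 2 m ≥ (1+m) w (x+y) + m (1+m) - 2m > w' (x+y)`
  (`m ≥ 2`).
So `sg w'` has `edim = e + 2`, `mult = m` and `type ≥ type Γ` (`edim_sg`, `sg_mult`, `type_sg`).

`T_mono`: `csSup_le_csSup`-like: `T e m` is attained if the set is nonempty (`T_pos`-like, or if the set is empty `T e m = sSup ∅ = 0`);
the set for `e + 1` is bounded above (`type_le`, `K = 1`, as in `T_ge` of `Growth.lean`; here `e ≥ 1` so that `e + 1 = e' + 2`).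
-/

namespace Pool.Agent.TG

open Pool.Agent.Hhelper4.NS

/-- the defect of the modified Apery function -/
private def dl (m : ℕ) (c x : ZMod m) [DecidableEq (ZMod m)] : ℕ := if x = c then m else 0

private theorem defect {m : ℕ} {w : ZMod m → ℕ} (h : IsApery m w) {x y : ZMod m}
    (hxy : w (x + y) ≠ w x + w y) : w (x + y) + m ≤ w x + w y := by
  have h2 := h.add x y
  have hlt : w (x + y) < w x + w y := lt_of_le_of_ne h2 hxy
  have hc : w (x + y) ≡ w x + w y [MOD m] := by
    apply (ZMod.natCast_eq_natCast_iff _ _ _).1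
    push_cast
    rw [h.cast, h.cast, h.cast]
  obtain ⟨k, hk⟩ := (Nat.modEq_iff_dvd' h2).1 hc
  have hk0 : k ≠ 0 := by
    rintro rfl
    omega
  have hmk : m ≤ m * k := Nat.le_mul_of_pos_right _ (Nat.pos_of_ne_zero hk0)
  omega

theorem mono_step {Γ : AddSubmonoid ℕ} {e m : ℕ} (hΓ : IsNumerical Γ) (he : edim Γ = e + 1)
    (hm : mult Γ = m) (hem : e + 1 < m) :
    ∃ Γ' : AddSubmonoid ℕ, IsNumerical Γ' ∧ edim Γ' = e + 2 ∧ mult Γ' = m ∧ type Γ ≤ type Γ' := by
  classical
  obtain ⟨w, h, rfl⟩ := exists_apery hΓ hm (by omega)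
  haveI : NeZero m := ⟨by omega⟩
  have hm2 : 2 ≤ m := by omega
  have hat : (Finset.univ.filter (fun x : ZMod m => IsAtom w x)).card = e := by
    have h1 := edim_sg h
    rw [he] at h1
    have h2 : (Finset.univ.filter (fun x : ZMod m => IsAtom w x)).card + 1 = e + 1 := by
      rw [h1]
    omega
  -- nonzero non-atoms
  set N : Finset (ZMod m) := Finset.univ.filter (fun x : ZMod m => x ≠ 0 ∧ ¬ IsAtom w x) with hN
  have hNne : N.Nonempty := by
    by_contra hemp
    rw [Finset.not_nonempty_iff_eq_empty] at hemp
    have h1 : (Finset.univ : Finset (ZMod m)) ⊆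
        insert 0 (Finset.univ.filter (fun x : ZMod m => IsAtom w x)) := by
      intro x _
      by_cases hx0 : x = 0
      · rw [hx0]
        exact Finset.mem_insert_self _ _
      · apply Finset.mem_insert_of_mem
        rw [Finset.mem_filter]
        refine ⟨Finset.mem_univ _, ?_⟩
        by_contra hna
        have : x ∈ N := by
          rw [hN, Finset.mem_filter]
          exact ⟨Finset.mem_univ _, hx0, hna⟩
        rw [hemp] at this
        exact absurd this (Finset.notMem_empty _)
    have h2 := Finset.card_le_card h1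
    have h3 := Finset.card_insert_le (0 : ZMod m) (Finset.univ.filter (fun x : ZMod m => IsAtom w x))
    rw [Finset.card_univ, ZMod.card] at h2
    omega
  obtain ⟨c, hcN, hcmax⟩ := Finset.exists_max_image N w hNne
  have hc0 : c ≠ 0 := by
    rw [hN, Finset.mem_filter] at hcN
    exact hcN.2.1
  have hcna : ¬ IsAtom w c := by
    rw [hN, Finset.mem_filter] at hcN
    exact hcN.2.2
  have hcM : IsMax w c := by
    intro y hy heq
    have hwy := h.lt y hy
    have hmem : c + y ∈ N := by
      rw [hN, Finset.mem_filter]
      refine ⟨Finset.mem_univ _, ?_, ?_⟩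
      · intro h0
        rw [h0, h.zero] at heq
        omega
      · intro hA
        exact hA.2 c y hc0 hy rfl heq.symm
    have := hcmax _ hmem
    omega
  -- the scaled function
  set W : ZMod m → ℕ := fun x => (1 + m) * w x with hW
  have hWadd : ∀ x y, W (x + y) ≤ W x + W y := by
    intro x y
    show (1 + m) * w (x + y) ≤ (1 + m) * w x + (1 + m) * w y
    rw [← Nat.mul_add]
    exact Nat.mul_le_mul_left _ (h.add x y)
  have hmm : 2 * m + 1 ≤ m * (1 + m) := by nlinarith
  have hWdef : ∀ x y, w (x + y) ≠ w x + w y → W (x + y) + m * (1 + m) ≤ W x + W y := by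
    intro x y hxy
    show (1 + m) * w (x + y) + m * (1 + m) ≤ (1 + m) * w x + (1 + m) * w y
    have := Nat.mul_le_mul_left (1 + m) (defect h hxy)
    rw [Nat.mul_add, Nat.mul_add, Nat.mul_comm (1 + m) m] at this
    exact this
  have hWeq : ∀ x y, w (x + y) = w x + w y → W (x + y) = W x + W y := by
    intro x y hxy
    show (1 + m) * w (x + y) = (1 + m) * w x + (1 + m) * w y
    rw [hxy, Nat.mul_add]
  have hWge : ∀ x, x ≠ 0 → 2 * m + 1 ≤ W x := by
    intro x hx
    have h1 := h.lt x hx
    have h2 := Nat.mul_le_mul_left (1 + m) h1.le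
    have h3 : (1 + m) * m = m * (1 + m) := Nat.mul_comm _ _
    show 2 * m + 1 ≤ (1 + m) * w x
    omega
  have hW0 : W 0 = 0 := by
    show (1 + m) * w 0 = 0
    rw [h.zero, Nat.mul_zero]
  have hd1 : ∀ x, dl m c x ≤ m := by
    intro x
    unfold dl
    split_ifs
    · exact le_rfl
    · exact Nat.zero_le _
  have hdc : dl m c c = m := if_pos rfl
  have hdn : ∀ x, x ≠ c → dl m c x = 0 := fun x hx => if_neg hx
  set w' : ZMod m → ℕ := fun x => W x - dl m c x with hw'
  have hw1 : ∀ x, w' x + dl m c x = W x := by
    intro x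
    have h1 : dl m c x ≤ W x := by
      by_cases hx : x = 0
      · rw [hx, hdn 0 (fun h0 => hc0 h0.symm)]
        exact Nat.zero_le _
      · have := hWge x hx
        have := hd1 x
        omega
    show W x - dl m c x + dl m c x = W x
    omega
  have hA : IsApery m w' := by
    refine ⟨?_, ?_, ?_, ?_⟩
    · have := hw1 0
      rw [hW0] at this
      omega
    · intro x
      have h1 := congrArg (fun t : ℕ => (t : ZMod m)) (hw1 x)
      push_cast at h1
      have h2 : ((dl m c x : ℕ) : ZMod m) = 0 := by
        unfold dl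
        split_ifs
        · exact ZMod.natCast_self m
        · exact Nat.cast_zero
      have h3 : ((W x : ℕ) : ZMod m) = x := by
        show (((1 + m) * w x : ℕ) : ZMod m) = x
        push_cast
        rw [h.cast, ZMod.natCast_self]
        ring
      rw [h2, h3, add_zero] at h1
      exact h1
    · intro x y
      have e1 := hw1 x
      have e2 := hw1 y
      have e3 := hw1 (x + y)
      by_cases hx0 : x = 0
      · rw [hx0, zero_add]
        exact Nat.le_add_left _ _
      by_cases hy0 : y = 0
      · rw [hy0, add_zero]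
        exact Nat.le_add_right _ _
      by_cases hxy : w (x + y) = w x + w y
      · have hxc : x ≠ c := by
          rintro rfl
          exact hcM y hy0 hxy
        have hyc : y ≠ c := by
          rintro rfl
          exact hcM x hx0 (by rw [add_comm y x, hxy, add_comm])
        have f1 := hdn x hxc
        have f2 := hdn y hyc
        have f3 := hWeq x y hxy
        omega
      · have f1 := hd1 x
        have f2 := hd1 y
        have f3 := hWdef x y hxy
        omega
    · intro x hx
      have e1 := hw1 x
      have e2 := hd1 x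
      have e3 := hWge x hx
      omega
  have hatom : ∀ x, IsAtom w' x ↔ (IsAtom w x ∨ x = c) := by
    intro x
    constructor
    · rintro ⟨hx0, hx⟩
      by_cases hxc : x = c
      · exact Or.inr hxc
      · left
        refine ⟨hx0, ?_⟩
        intro y z hy hz hyz heq
        subst hyz
        have hyc : y ≠ c := by
          rintro rfl
          exact hcM z hz heq.symm
        have hzc : z ≠ c := by
          rintro rfl
          exact hcM y hy (by rw [add_comm z y, ← heq, add_comm])
        have e1 := hw1 y
        have e2 := hw1 z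
        have e3 := hw1 (y + z)
        have f1 := hdn y hyc
        have f2 := hdn z hzc
        have f3 := hdn (y + z) hxc
        have f4 := hWeq y z heq.symm
        exact hx y z hy hz rfl (by omega)
    · intro hx
      by_cases hxc : x = c
      · subst hxc
        refine ⟨hc0, ?_⟩
        intro y z hy hz hyz heq
        have hyc : y ≠ x := by
          intro hh
          apply hz
          rw [hh] at hyz
          exact left_eq_add.1 hyz.symm
        have hzc : z ≠ x := by
          intro hh
          apply hy
          rw [hh] at hyz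
          exact right_eq_add.1 hyz.symm
        have e1 := hw1 y
        have e2 := hw1 z
        have e3 := hw1 x
        have f1 := hdn y hyc
        have f2 := hdn z hzc
        have f4 := hWadd y z
        rw [hyz] at f4
        omega
      · have hxA : IsAtom w x := by
          rcases hx with hx | hx
          · exact hx
          · exact absurd hx hxc
        refine ⟨hxA.1, ?_⟩
        intro y z hy hz hyz heq
        have hne := hxA.2 y z hy hz hyz
        subst hyz
        have e1 := hw1 y
        have e2 := hw1 z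
        have e3 := hw1 (y + z)
        have f1 := hd1 y
        have f2 := hd1 z
        have f4 := hWdef y z (fun hh => hne hh.symm)
        omega
  have hmaxi : ∀ x, IsMax w x → IsMax w' x := by
    intro x hx y hy heq
    have hne := hx y hy
    have e1 := hw1 x
    have e2 := hw1 y
    have e3 := hw1 (x + y)
    have f1 := hd1 x
    have f2 := hd1 y
    have f4 := hWdef x y hne
    omega
  refine ⟨sg w' hA, sg_numerical hA, ?_, sg_mult hA, ?_⟩
  · rw [edim_sg hA]
    have h1 : (Finset.univ.filter (fun x : ZMod m => IsAtom w' x)) =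
        insert c (Finset.univ.filter (fun x : ZMod m => IsAtom w x)) := by
      ext x
      simp only [Finset.mem_filter, Finset.mem_univ, true_and, Finset.mem_insert]
      rw [hatom x]
      exact or_comm
    have h2 : c ∉ (Finset.univ.filter (fun x : ZMod m => IsAtom w x)) := by
      rw [Finset.mem_filter]
      exact fun hh => hcna hh.2
    have h3 : (Finset.univ.filter (fun x : ZMod m => IsAtom w' x)).card = e + 1 := by
      rw [h1, Finset.card_insert_of_notMem h2, hat]
    convert congrArg (· + 1) h3 using 3
  · rw [type_sg h, type_sg hA]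
    apply Finset.card_le_card
    intro x hx
    rw [Finset.mem_filter] at hx ⊢
    exact ⟨hx.1, hmaxi x hx.2⟩

theorem T_mono {e m : ℕ} (he : 1 ≤ e) (hem : e + 1 < m) : T e m ≤ T (e + 1) m := by
  have hbdd : BddAbove {t | ∃ Γ : AddSubmonoid ℕ, IsNumerical Γ ∧ edim Γ = e + 1 + 1 ∧
      mult Γ = m ∧ type Γ = t} := by
    refine ⟨(e - 1 + 2) * (1 ^ (e - 1 + 1) + m), ?_⟩
    rintro t ⟨Δ, d1, d2, d3, rfl⟩
    have := type_le (e := e - 1) d1 (by rw [d2]; omega) d3 (by omega) 1
    rw [one_mul] at this
    exact this
  unfold T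
  rcases Set.eq_empty_or_nonempty {t | ∃ Γ : AddSubmonoid ℕ, IsNumerical Γ ∧ edim Γ = e + 1 ∧
      mult Γ = m ∧ type Γ = t} with hemp | hne
  · rw [hemp]
    simp
  · apply csSup_le hne
    rintro t ⟨Γ, h1, h2, h3, rfl⟩
    obtain ⟨Γ', g1, g2, g3, g4⟩ := mono_step h1 h2 h3 hem
    exact g4.trans (le_csSup hbdd ⟨Γ', g1, g2, g3, rfl⟩)

theorem T_mono_le {e e' m : ℕ} (he : 1 ≤ e) (h : e ≤ e') (hem : e' < m) : T e m ≤ T e' m := by
  induction e', h using Nat.le_induction with
  | base => exact le_rfl
  | succ n hn ih => exact (ih (by omega)).trans (T_mono (by omega) hem)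

end Pool.Agent.TG
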