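import Pool.Agent.TG.Growth
import Pool.Agent.Hhelper4.NSMacaulay

/-!
# `T(e, m) / D(e, m) → 0` for every fixed `e ≥ 3`

Let `r = level e m` (`Hhelper4/NSMacaulay`), so `m < C(e + r, r)`.
`D e m ≥ C(e + r - 2, r - 1) = C(e + r - 2, e - 1) ≥ r^(e-1) / (e-1)!` (`Nat.pow_le_choose`), for `r ≥ 1`.
`m < C(e + r, e) ≤ (e + r)^e`, so `r ≥ m^(1/e) - e ≥ m^(1/e) / 2` for `m ≥ (2 e)^e`; so
`D e m ≥ m^((e-1)/e) / (2^(e-1) (e-1)!)`.  With `T_upper`: `T / D ≤ C m^((e-2)/(e-1) - (e-1)/e) → 0`, as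
`(e-2)/(e-1) < (e-1)/e`.
-/

namespace Pool.Agent.TG

open Pool.Agent.Hhelper4.NS Filter Topology

theorem D_low {e m : ℕ} (he : 3 ≤ e) (hm : (2 * e) ^ e ≤ m) :
    (m : ℝ) ^ (((e : ℝ) - 1) / (e : ℝ)) ≤ 2 ^ (e - 1) * (e - 1).factorial * (D e m : ℝ) := by
  set r := level e m with hr
  have hne : {r | m < (e + r).choose r}.Nonempty := by
    refine ⟨m, ?_⟩
    change m < (e + m).choose m
    have h1 : (1 + m).choose m ≤ (e + m).choose m := Nat.choose_le_choose m (by omega)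
    have h2 : (1 + m).choose m = m + 1 := by
      rw [add_comm 1 m, Nat.choose_symm_of_eq_add (show m + 1 = m + 1 from rfl), Nat.choose_one_right]
    omega
  have hlev : m < (e + r).choose r := Nat.sInf_mem hne
  have hm1 : 1 ≤ m := le_trans (Nat.one_le_pow _ _ (by omega)) hm
  have hr1 : 1 ≤ r := by
    by_contra h
    have h0 : r = 0 := by omega
    rw [h0] at hlev
    simp at hlev
    omega
  have hD : (e + r - 2).choose (r - 1) ≤ D e m := by
    unfold D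
    rw [← hr]
    exact Nat.le_add_right _ _
  have hsymm : (e + r - 2).choose (r - 1) = (e + r - 2).choose (e - 1) :=
    Nat.choose_symm_of_eq_add (by omega)
  have hpow : ((r : ℝ)) ^ (e - 1) / ((e - 1).factorial : ℝ) ≤ ((e + r - 2).choose (e - 1) : ℝ) := by
    have h1 := Nat.pow_le_choose (α := ℝ) (e - 1) (e + r - 2)
    have h2 : e + r - 2 + 1 - (e - 1) = r := by omega
    rw [h2] at h1
    exact_mod_cast h1
  -- the real root
  set μ : ℝ := (m : ℝ) ^ (1 / (e : ℝ)) with hμ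
  have he0 : (0 : ℝ) < e := by
    have : 0 < e := by omega
    exact_mod_cast this
  have hmR : (0 : ℝ) ≤ m := Nat.cast_nonneg m
  have hμ0 : 0 ≤ μ := Real.rpow_nonneg hmR _
  have hμe : μ ^ e = (m : ℝ) := by
    rw [hμ, ← Real.rpow_natCast, ← Real.rpow_mul hmR, one_div, inv_mul_cancel₀ he0.ne',
      Real.rpow_one]
  have hμe1 : μ ^ (e - 1) = (m : ℝ) ^ (((e : ℝ) - 1) / (e : ℝ)) := by
    rw [hμ, ← Real.rpow_natCast, ← Real.rpow_mul hmR]
    congr 1
    rw [Nat.cast_sub (by omega), Nat.cast_one]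
    field_simp
  have h2e : 2 * (e : ℝ) ≤ μ := by
    refine le_of_pow_le_pow_left₀ (n := e) (by omega) hμ0 ?_
    rw [hμe]
    exact_mod_cast hm
  have hμr : μ < e + r := by
    refine lt_of_pow_lt_pow_left₀ e (by positivity) ?_
    rw [hμe]
    have h1 : (e + r).choose r = (e + r).choose e := Nat.choose_symm_of_eq_add (by omega)
    have h2 : (e + r).choose e ≤ (e + r) ^ e := Nat.choose_le_pow _ _
    have h3 : m < (e + r) ^ e := by omega
    exact_mod_cast h3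
  have hr2 : μ / 2 ≤ r := by linarith
  have hkey : μ ^ (e - 1) ≤ 2 ^ (e - 1) * (r : ℝ) ^ (e - 1) := by
    rw [← mul_pow]
    exact pow_le_pow_left₀ hμ0 (by linarith) _
  rw [← hμe1]
  refine hkey.trans ?_
  rw [mul_assoc]
  refine mul_le_mul_of_nonneg_left ?_ (by positivity)
  have hf : (0 : ℝ) < ((e - 1).factorial : ℝ) := by exact_mod_cast Nat.factorial_pos _
  rw [div_le_iff₀ hf] at hpow
  refine hpow.trans ?_
  rw [mul_comm]
  refine mul_le_mul_of_nonneg_left ?_ hf.le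
  rw [← hsymm]
  exact_mod_cast hD

theorem ratio {e : ℕ} (he : 3 ≤ e) :
    Tendsto (fun m : ℕ => (T e m : ℝ) / (D e m : ℝ)) atTop (𝓝 0) := by
  have he0 : (0 : ℝ) < e := by
    have : 0 < e := by omega
    exact_mod_cast this
  have he1 : (0 : ℝ) < (e : ℝ) - 1 := by
    have : (3 : ℝ) ≤ e := by exact_mod_cast he
    linarith
  set K : ℝ := 3 * (e : ℝ) * (2 ^ (e - 1) * (e - 1).factorial) with hK
  set δ : ℝ := 1 / ((e : ℝ) * ((e : ℝ) - 1)) with hδ
  have hδ0 : 0 < δ := by positivity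
  have hlim : Tendsto (fun m : ℕ => K * (m : ℝ) ^ (-δ)) atTop (𝓝 0) := by
    have h1 := ((tendsto_rpow_neg_atTop hδ0).comp tendsto_natCast_atTop_atTop).const_mul K
    rw [mul_zero] at h1
    exact h1
  refine squeeze_zero' (Filter.Eventually.of_forall fun m => by positivity) ?_ hlim
  filter_upwards [eventually_ge_atTop ((2 * e) ^ e)] with m hm
  have hm1 : 1 ≤ m := le_trans (Nat.one_le_pow _ _ (by omega)) hm
  have hmR : (0 : ℝ) < m := by exact_mod_cast hm1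
  have h1 := T_upper he hm1
  have h2 := D_low he hm
  have hc : (0 : ℝ) < 2 ^ (e - 1) * ((e - 1).factorial : ℝ) := by
    have : (0 : ℝ) < ((e - 1).factorial : ℝ) := by exact_mod_cast Nat.factorial_pos _
    positivity
  have hD0 : (0 : ℝ) < (D e m : ℝ) := by
    by_contra hcon
    have h3 : (0 : ℝ) < (m : ℝ) ^ (((e : ℝ) - 1) / (e : ℝ)) := Real.rpow_pos_of_pos hmR _
    have h4 : 2 ^ (e - 1) * ((e - 1).factorial : ℝ) * (D e m : ℝ) ≤ 0 :=
      mul_nonpos_of_nonneg_of_nonpos hc.le (not_lt.1 hcon)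
    linarith
  rw [div_le_iff₀ hD0]
  refine h1.trans ?_
  have hexp : (m : ℝ) ^ (((e : ℝ) - 2) / ((e : ℝ) - 1)) =
      (m : ℝ) ^ (-δ) * (m : ℝ) ^ (((e : ℝ) - 1) / (e : ℝ)) := by
    rw [← Real.rpow_add hmR]
    congr 1
    rw [hδ]
    field_simp
    ring
  rw [hexp]
  have hp : (0 : ℝ) ≤ (m : ℝ) ^ (-δ) := Real.rpow_nonneg hmR.le _
  calc 3 * (e : ℝ) * ((m : ℝ) ^ (-δ) * (m : ℝ) ^ (((e : ℝ) - 1) / (e : ℝ)))
      = (3 * (e : ℝ) * (m : ℝ) ^ (-δ)) * (m : ℝ) ^ (((e : ℝ) - 1) / (e : ℝ)) := by ring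
    _ ≤ (3 * (e : ℝ) * (m : ℝ) ^ (-δ)) * (2 ^ (e - 1) * ((e - 1).factorial : ℝ) * (D e m : ℝ)) :=
        mul_le_mul_of_nonneg_left h2 (by positivity)
    _ = K * (m : ℝ) ^ (-δ) * (D e m : ℝ) := by
        rw [hK]
        ring

end Pool.Agent.TG
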