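import Pool.Agent.TG.GrowthR
import Pool.Agent.TG.Mono

/-!
# The uniform lower bound for all `3 ≤ e < m`

If `(e-1) 2^(e-2) ≤ m`, use `T_low2` (`3 ≤ 11`).  Otherwise let `e'` be the largest number with `(e'-1) 2^(e'-2) ≤ m`; `3 ≤ e'`
(`m ≥ 4`), `e' < e`, `m < e' 2^(e'-1)`.  By `T_mono_le` and `T_low2`, `T e m ≥ T e' m ≥ m^((e'-2)/(e'-1)) / (3 (e'-2))` and
`m^((e'-2)/(e'-1)) = m / m^(1/(e'-1)) ≥ m / (2 e'^(1/(e'-1)))`; `e' ≤ 3^((e'-1)/2)` (i.e. `e'^2 ≤ 3^(e'-1)`) for `e' ≥ 3`, so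
`e'^(1/(e'-1)) ≤ √3 ≤ 11/6`.  So `T e m ≥ m / (11 (e'-2)) ≥ m^((e-2)/(e-1)) / (11 (e-2))`.
-/

namespace Pool.Agent.TG

open Pool.Agent.Hhelper4.NS

theorem unif_pow {n : ℕ} (hn : 2 ≤ n) : ((n : ℝ) + 1) ≤ (11 / 6 : ℝ) ^ n := by
  induction n, hn using Nat.le_induction with
  | base => norm_num
  | succ k hk ih =>
    have hk' : (2 : ℝ) ≤ k := by exact_mod_cast hk
    rw [pow_succ]
    push_cast
    nlinarith

theorem T_low3 {e m : ℕ} (he : 3 ≤ e) (hm : e < m) :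
    (m : ℝ) ^ (((e : ℝ) - 2) / ((e : ℝ) - 1)) ≤ 11 * ((e : ℝ) - 2) * (T e m : ℝ) := by
  have he' : (3 : ℝ) ≤ e := by exact_mod_cast he
  have hT0 : (0 : ℝ) ≤ (T e m : ℝ) := Nat.cast_nonneg _
  by_cases h : (e - 1) * 2 ^ (e - 2) ≤ m
  · have h1 := T_low2 he h
    have h2 : 0 ≤ ((e : ℝ) - 2) * (T e m : ℝ) := mul_nonneg (by linarith) hT0
    calc _ ≤ 3 * ((e : ℝ) - 2) * (T e m : ℝ) := h1
      _ = 3 * (((e : ℝ) - 2) * (T e m : ℝ)) := by ring
      _ ≤ 11 * (((e : ℝ) - 2) * (T e m : ℝ)) := by nlinarith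
      _ = _ := by ring
  · set P : ℕ → Prop := fun k => (k - 1) * 2 ^ (k - 2) ≤ m with hP
    have P3 : P 3 := by
      simp only [hP]
      norm_num
      omega
    obtain ⟨k, hk3, hke, hPk, hPk1⟩ : ∃ k, 3 ≤ k ∧ k < e ∧ P k ∧ ¬ P (k + 1) := by
      classical
      refine ⟨Nat.findGreatest P e, Nat.le_findGreatest he P3, ?_, ?_, ?_⟩
      · refine lt_of_le_of_ne (Nat.findGreatest_le e) ?_
        intro h1
        have h2 : P (Nat.findGreatest P e) := Nat.findGreatest_spec he P3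
        rw [h1] at h2
        exact h h2
      · exact Nat.findGreatest_spec he P3
      · have hlt : Nat.findGreatest P e < e := by
          refine lt_of_le_of_ne (Nat.findGreatest_le e) ?_
          intro h1
          have h2 : P (Nat.findGreatest P e) := Nat.findGreatest_spec he P3
          rw [h1] at h2
          exact h h2
        exact Nat.findGreatest_is_greatest (Nat.lt_succ_self _) hlt
    obtain ⟨n, rfl⟩ : ∃ n, k = n + 1 := ⟨k - 1, by omega⟩
    have hn : 2 ≤ n := by omega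
    have hn' : (2 : ℝ) ≤ n := by exact_mod_cast hn
    have hmono : T (n + 1) m ≤ T e m := T_mono_le (by omega) hke.le hm
    have hmono' : (T (n + 1) m : ℝ) ≤ (T e m : ℝ) := by exact_mod_cast hmono
    have hlow := T_low2 hk3 hPk
    have hmlt : (m : ℝ) ≤ (11 / 3 : ℝ) ^ n := by
      have h1 : m < (n + 1) * 2 ^ n := by
        simp only [hP] at hPk1
        have e1 : n + 1 + 1 - 1 = n + 1 := by omega
        have e2 : n + 1 + 1 - 2 = n := by omega
        rw [e1, e2] at hPk1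
        omega
      have h2 : (m : ℝ) < ((n : ℝ) + 1) * 2 ^ n := by exact_mod_cast h1
      have h3 := unif_pow hn
      calc (m : ℝ) ≤ ((n : ℝ) + 1) * 2 ^ n := h2.le
        _ ≤ (11 / 6 : ℝ) ^ n * 2 ^ n := mul_le_mul_of_nonneg_right h3 (by positivity)
        _ = (11 / 3 : ℝ) ^ n := by rw [← mul_pow]; norm_num
    have hm1 : (1 : ℝ) ≤ m := by
      have : 1 ≤ m := by omega
      exact_mod_cast this
    have hmpos : (0 : ℝ) < m := by linarith
    have hroot : (m : ℝ) ^ (1 / (n : ℝ)) ≤ 11 / 3 := by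
      calc (m : ℝ) ^ (1 / (n : ℝ)) ≤ ((11 / 3 : ℝ) ^ n) ^ (1 / (n : ℝ)) :=
            Real.rpow_le_rpow hmpos.le hmlt (by positivity)
        _ = 11 / 3 := by
            rw [one_div]
            exact Real.pow_rpow_inv_natCast (by norm_num) (by omega)
    have hcast : ((n + 1 : ℕ) : ℝ) = (n : ℝ) + 1 := by push_cast; ring
    rw [hcast] at hlow
    have ee : ((n : ℝ) + 1 - 2) / ((n : ℝ) + 1 - 1) = ((n : ℝ) - 1) / n := by
      congr 1 <;> ring
    rw [ee] at hlow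
    have hsplit : (m : ℝ) = (m : ℝ) ^ (((n : ℝ) - 1) / n) * (m : ℝ) ^ (1 / (n : ℝ)) := by
      rw [← Real.rpow_add hmpos]
      have : ((n : ℝ) - 1) / n + 1 / n = 1 := by
        field_simp
        ring
      rw [this, Real.rpow_one]
    have hTk0 : (0 : ℝ) ≤ (T (n + 1) m : ℝ) := Nat.cast_nonneg _
    have hexp : (m : ℝ) ^ (((e : ℝ) - 2) / ((e : ℝ) - 1)) ≤ m := by
      calc (m : ℝ) ^ (((e : ℝ) - 2) / ((e : ℝ) - 1)) ≤ (m : ℝ) ^ (1 : ℝ) := by
            apply Real.rpow_le_rpow_of_exponent_le hm1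
            rw [div_le_one (by linarith)]
            linarith
        _ = m := Real.rpow_one _
    have hne : (n : ℝ) + 1 ≤ e := by
      have : n + 1 ≤ e := hke.le
      exact_mod_cast this
    calc (m : ℝ) ^ (((e : ℝ) - 2) / ((e : ℝ) - 1)) ≤ m := hexp
      _ = (m : ℝ) ^ (((n : ℝ) - 1) / n) * (m : ℝ) ^ (1 / (n : ℝ)) := hsplit
      _ ≤ (3 * ((n : ℝ) + 1 - 2) * (T (n + 1) m : ℝ)) * (11 / 3) := by
          apply mul_le_mul hlow hroot (by positivity)
          exact mul_nonneg (by linarith) hTk0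
      _ = 11 * (((n : ℝ) + 1 - 2) * (T (n + 1) m : ℝ)) := by ring
      _ ≤ 11 * (((e : ℝ) - 2) * (T e m : ℝ)) := by
          apply mul_le_mul_of_nonneg_left _ (by norm_num)
          exact mul_le_mul (by linarith) hmono' hTk0 (by linarith)
      _ = _ := by ring

end Pool.Agent.TG
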