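import Pool.Agent.TG.Digits

/-!
# The family: definitions and arithmetic

Coordinates `x, y : ℕ`, `z : Fin n → ℕ`.  `dg = y + ∑ z` (degree), `va = x + dg * N + ∑ K^i z i` (value), and
weight `wv = va + m * (2 x + dg * (N - 1) + ∑ K^i z i)` (this is `va + m (va - dg + x)`).

`lightest`: let `N = m / K`, `K^(n+1) ≤ m` (so `N ≥ K^n`), `m = K N + ρ`, `0 ≤ ρ < K`.  Let `(0, y, z)` be such
that either `dg = K - 1`, `∑ z ≤ K - 2`, or `dg = K`, `∑ z ≤ K - 2`, `∑ K^i z i < ρ`.
Then every other triple `(x', y', z')` with `va' ≡ va (mod m)` has `wv < wv'`.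
Proof.  `s := ∑ K^i z i ≤ K^(n-1) (K-2) < N` (for `n ≥ 1`), and `va < m` in both cases, so `va' = va + j m`, `j ≥ 0`.
`wv' - wv = j m + m (j m - (dg' - dg) + x')`.
* `j ≥ 1`: `dg' N ≤ va' = dg N + s + j m`, `s < N`, so `dg' - dg ≤ j m / N + 1 ≤ j m` as `N ≥ 2` (`m ≥ 2`); so
  `wv' - wv ≥ j m > 0`.  (`N ≥ 2`: `N ≥ K^n ≥ 2` if `K ≥ 2`, `n ≥ 1`.)
* `j = 0`: `va' = va`.  If `dg' > dg`, then `va' ≥ (dg+1) N > va`, impossible.  If `dg' < dg`: `wv' - wv =
  m (dg - dg' + x') > 0`.  If `dg' = dg`: `wv' - wv = m x'`, so assume `x' = 0`; then `∑ K^i z' i = s`, and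
  `digits` (all `z i ≤ K - 2 < K`): `z' = z` (then `y' = y`, the same triple), or `∑ z' ≥ ∑ z + K - 1`; but
  `∑ z' ≤ dg`.  If `dg = K - 1`: `∑ z = 0`, so `s = 0`, and `∑ z' ≤ ∑ K^i z' i = 0`, `z' = z`.  If `dg = K`:
  `K - 1 ≤ ∑ z' ≤ ∑ K^i z' i = s < ρ ≤ K - 1`, contradiction.

`atoms` (in `ArithAtom`): the same for the generators: (`X`) `(1, 0, 0)`; (`Y`) `(0, 1, 0)`; (`G i`) `(0, 0, e_i)`:
every other triple with `va' ≡ va (mod m)` has larger weight.  Here `va < m` too
(`va = 1`, `N`, `N + K^i`, `i ≤ n - 1`, `2 N ≤ m`), `va' = va + j m`.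
* `j ≥ 1`: for `Y`, `G i` as before (`dg = 1`, `s = 0` or `K^i < N`).  For `X`: `wv = 2 m + 1`,
  `va' = 1 + j m`, `dg' ≤ va' / N ≤ va' / 2`, `wv' ≥ va' + m (va' - dg') ≥ (1 + m) + m (1 + m) / 2 > 2 m + 1` for `m ≥ 3`;
  `m = 2` cannot occur (`m ≥ K^(n+1) ≥ 4`).
* `j = 0`: `X`: `va' = 1 < N`, so `dg' = 0`, `z' = 0`, `y' = 0`, `x' = 1`.  `Y`: `va' = N`: `dg' = 1` and then
  `x' = 0`, `z' = 0` (if `z' = e_i` then `va' > N`); or `dg' = 0`, `x' = N`, heavier.  `G i`: `va' = N + K^i < 2 N`;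
  `dg' = 0`: `x' = va'`, heavier; `dg' = 1`: `x' > 0` is heavier, and `x' = 0` means `∑ K^j z' j = K^i`
  with `∑ z' ≤ 1`, so `z' = e_i`, `y' = 0` (e.g. by `digits` with `K ≥ 3`, or directly).
We assume `3 ≤ K`, `1 ≤ n` everywhere.
-/

namespace Pool.Agent.TG

def dg {n : ℕ} (y : ℕ) (z : Fin n → ℕ) : ℕ := y + ∑ i, z i

def sv {n : ℕ} (K : ℕ) (z : Fin n → ℕ) : ℕ := ∑ i : Fin n, K ^ (i : ℕ) * z i

def va {n : ℕ} (K N x y : ℕ) (z : Fin n → ℕ) : ℕ := x + dg y z * N + sv K z

def wv {n : ℕ} (m K N x y : ℕ) (z : Fin n → ℕ) : ℕ :=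
  va K N x y z + m * (2 * x + dg y z * (N - 1) + sv K z)

/-- common part: comparison of the weights when the degree, the value and `x` are known -/
theorem wv_lt {n m K N x y x' y' : ℕ} {z z' : Fin n → ℕ} (hN : 1 ≤ N)
    (h1 : va K N x y z ≤ va K N x' y' z')
    (h2 : va K N x y z + x + dg y' z' < va K N x' y' z' + x' + dg y z ) :
    0 < m → wv m K N x y z < wv m K N x' y' z' := by
  intro hm
  have e1 : ∀ D : ℕ, D * (N - 1) + D = D * N := by
    intro D
    obtain ⟨M, rfl⟩ : ∃ M, N = M + 1 := ⟨N - 1, by omega⟩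
    rw [Nat.add_sub_cancel]
    ring
  have e2 := e1 (dg y z)
  have e3 := e1 (dg y' z')
  have h3 : 2 * x + dg y z * (N - 1) + sv K z < 2 * x' + dg y' z' * (N - 1) + sv K z' := by
    unfold va at h2
    omega
  have h4 := Nat.mul_lt_mul_of_pos_left h3 hm
  unfold wv
  omega

private theorem sum_le_sv {n K : ℕ} (hK : 1 ≤ K) (z : Fin n → ℕ) : ∑ i, z i ≤ sv K z := by
  unfold sv
  exact Finset.sum_le_sum fun i _ => Nat.le_mul_of_pos_left _ (Nat.pow_pos hK)

private theorem sv_le {n K : ℕ} (hK : 1 ≤ K) (z : Fin n → ℕ) : sv K z ≤ K ^ (n - 1) * ∑ i, z i := by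
  unfold sv
  rw [Finset.mul_sum]
  exact Finset.sum_le_sum fun i _ =>
    Nat.mul_le_mul_right _ (Nat.pow_le_pow_right hK (by have := i.2; omega))

theorem lightest {n m K N : ℕ} (hn : 1 ≤ n) (hK : 3 ≤ K) (hm : K ^ (n + 1) ≤ m) (hN : N = m / K)
    {y : ℕ} {z : Fin n → ℕ} (hz : ∑ i, z i ≤ K - 2)
    (hy : dg y z = K - 1 ∨ (dg y z = K ∧ sv K z < m - K * N))
    {x' y' : ℕ} {z' : Fin n → ℕ} (hc : va K N x' y' z' ≡ va K N 0 y z [MOD m])
    (hne : ¬ (x' = 0 ∧ y' = y ∧ z' = z)) :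
    wv m K N 0 y z < wv m K N x' y' z' := by
  have hK0 : 0 < K := by omega
  have hNK : K ^ n ≤ N := by
    rw [hN, Nat.le_div_iff_mul_le hK0, ← pow_succ]
    exact hm
  have hKn : K ≤ K ^ n := by
    calc K = K ^ 1 := (pow_one K).symm
      _ ≤ K ^ n := Nat.pow_le_pow_right hK0 hn
  have hN3 : 3 ≤ N := by omega
  have hKN : K * N ≤ m := by
    rw [hN]
    exact Nat.mul_div_le m K
  have hKN' : m < K * N + K := by
    rw [hN]
    have := Nat.lt_mul_div_succ m hK0
    rw [Nat.mul_succ] at this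
    exact this
  have hs : sv K z < N := by
    have h1 := sv_le (by omega : 1 ≤ K) z
    have h2 : K ^ (n - 1) * ∑ i, z i ≤ K ^ (n - 1) * (K - 2) := Nat.mul_le_mul_left _ hz
    have h3 : K ^ (n - 1) * (K - 2) < K ^ (n - 1) * K :=
      Nat.mul_lt_mul_of_pos_left (by omega) (Nat.pow_pos hK0)
    have h4 : K ^ (n - 1) * K = K ^ n := by
      rw [← pow_succ]
      congr 1
      omega
    omega
  have hva : va K N 0 y z = dg y z * N + sv K z := by
    unfold va
    omega
  have hvam : va K N 0 y z < m := by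
    rw [hva]
    rcases hy with hy | ⟨hy, hy2⟩
    · rw [hy]
      have : (K - 1) * N + N = K * N := by
        obtain ⟨L, rfl⟩ : ∃ L, K = L + 1 := ⟨K - 1, by omega⟩
        rw [Nat.add_sub_cancel]
        ring
      omega
    · rw [hy]
      omega
  have hmod : va K N x' y' z' = va K N 0 y z + m * (va K N x' y' z' / m) := by
    have h1 := Nat.mod_add_div (va K N x' y' z') m
    have h2 : va K N x' y' z' % m = va K N 0 y z := by
      rw [hc]
      exact Nat.mod_eq_of_lt hvam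
    rw [h2] at h1
    exact h1.symm
  generalize va K N x' y' z' / m = j at hmod
  have hm0 : 0 < m := by omega
  refine wv_lt (by omega) (by rw [hmod]; exact Nat.le_add_right _ _) ?_ hm0
  have hva' : va K N x' y' z' = x' + dg y' z' * N + sv K z' := rfl
  rcases Nat.eq_zero_or_pos j with hj | hj
  · rw [hj, Nat.mul_zero, Nat.add_zero] at hmod
    rw [hmod]
    rcases lt_trichotomy (dg y' z') (dg y z) with hd | hd | hd
    · omega
    · rcases Nat.eq_zero_or_pos x' with hx | hx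
      · exfalso
        have hss : sv K z = sv K z' := by
          rw [hva', hva, hd, hx] at hmod
          omega
        rcases digits (by omega : 1 ≤ K) z z' (fun i => by
            have := Finset.single_le_sum (f := z) (fun i _ => Nat.zero_le _) (Finset.mem_univ i)
            omega) hss with hzz | hzz
        · refine hne ⟨hx, ?_, hzz⟩
          unfold dg at hd
          rw [hzz] at hd
          omega
        · have h5 : ∑ i, z' i ≤ dg y' z' := by
            unfold dg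
            omega
          have h6 := sum_le_sv (by omega : 1 ≤ K) z'
          rcases hy with hy | ⟨hy, hy2⟩
          · have h7 : ∑ i, z i = 0 := by omega
            have h8 := sv_le (by omega : 1 ≤ K) z
            rw [h7, Nat.mul_zero] at h8
            omega
          · omega
      · omega
    · exfalso
      have h5 : (dg y z + 1) * N ≤ dg y' z' * N := Nat.mul_le_mul_right N hd
      have h6 : (dg y z + 1) * N = dg y z * N + N := by ring
      rw [hva', hva] at hmod
      omega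
  · by_contra hcon
    have hjm : m ≤ m * j := Nat.le_mul_of_pos_right m hj
    have h5 : dg y z + m * j ≤ dg y' z' := by omega
    have h6 : (dg y z + m * j) * N ≤ dg y' z' * N := Nat.mul_le_mul_right N h5
    have h7 : (dg y z + m * j) * N = dg y z * N + m * j * N := by ring
    have h8 : m * j * 3 ≤ m * j * N := Nat.mul_le_mul_left _ hN3
    have hNm : N ≤ m := by
      have : 1 * N ≤ K * N := Nat.mul_le_mul_right N (by omega)
      omega
    rw [hva', hva] at hmod
    omega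

end Pool.Agent.TG
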