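import Pool.Agent.TG.Arith

/-!
# The family: the generators are atoms

See the header of `Arith` (paragraph `atoms`) for the proofs; `wv_lt` from `Arith` can be used.
-/

namespace Pool.Agent.TG

/-- the common facts about the parameters -/
theorem atom_params {n m K N : ℕ} (hn : 1 ≤ n) (hK : 3 ≤ K) (hm : K ^ (n + 1) ≤ m)
    (hN : N = m / K) : K ^ n ≤ N ∧ 3 ≤ N ∧ 3 * N ≤ m ∧ 9 ≤ m := by
  have hK0 : 0 < K := by omega
  have hNK : K ^ n ≤ N := by
    rw [hN, Nat.le_div_iff_mul_le hK0, ← pow_succ]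
    exact hm
  have hKn : K ≤ K ^ n := by
    calc K = K ^ 1 := (pow_one K).symm
      _ ≤ K ^ n := Nat.pow_le_pow_right hK0 hn
  have hKN : K * N ≤ m := by
    rw [hN]
    exact Nat.mul_div_le m K
  have h3 : 3 * N ≤ K * N := Nat.mul_le_mul_right N hK
  refine ⟨hNK, by omega, by omega, by omega⟩

theorem atom_mod {a b m : ℕ} (hc : b ≡ a [MOD m]) (h : a < m) : ∃ j, b = a + m * j := by
  refine ⟨b / m, ?_⟩
  have h1 := Nat.mod_add_div b m
  have h2 : b % m = a := by
    rw [hc]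
    exact Nat.mod_eq_of_lt h
  rw [h2] at h1
  exact h1.symm

theorem dg_eq_zero {n y : ℕ} {z : Fin n → ℕ} (h : dg y z = 0) : y = 0 ∧ z = 0 := by
  unfold dg at h
  refine ⟨by omega, ?_⟩
  have h1 : ∑ i, z i = 0 := by omega
  funext i
  exact Finset.sum_eq_zero_iff.1 h1 i (Finset.mem_univ i)

theorem atom_sum_le {n K : ℕ} (hK : 1 ≤ K) (z : Fin n → ℕ) : ∑ i, z i ≤ sv K z := by
  unfold sv
  exact Finset.sum_le_sum fun i _ => Nat.le_mul_of_pos_left _ (Nat.pow_pos hK)

theorem sv_zero {n K : ℕ} : sv K (0 : Fin n → ℕ) = 0 := by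
  unfold sv
  simp

theorem atomX {n m K N : ℕ} (hn : 1 ≤ n) (hK : 3 ≤ K) (hm : K ^ (n + 1) ≤ m) (hN : N = m / K)
    {x' y' : ℕ} {z' : Fin n → ℕ} (hc : va K N x' y' z' ≡ va K N 1 0 (0 : Fin n → ℕ) [MOD m])
    (hne : ¬ (x' = 1 ∧ y' = 0 ∧ z' = 0)) :
    wv m K N 1 0 (0 : Fin n → ℕ) < wv m K N x' y' z' := by
  obtain ⟨hNK, hN3, hNm, hm9⟩ := atom_params hn hK hm hN
  have hd0 : dg 0 (0 : Fin n → ℕ) = 0 := by simp [dg]
  have hv0 : va K N 1 0 (0 : Fin n → ℕ) = 1 := by
    unfold va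
    rw [hd0, sv_zero]
    simp
  have hv' : va K N x' y' z' = x' + dg y' z' * N + sv K z' := rfl
  obtain ⟨j, hj⟩ := atom_mod hc (by rw [hv0]; omega)
  refine wv_lt (by omega) (by rw [hj]; exact Nat.le_add_right _ _) ?_ (by omega)
  rw [hd0, hv0]
  rw [hv0] at hj
  have h3 : dg y' z' * 3 ≤ dg y' z' * N := Nat.mul_le_mul_left _ hN3
  rcases Nat.eq_zero_or_pos j with h0 | h0
  · exfalso
    rw [h0, Nat.mul_zero, Nat.add_zero] at hj
    have hd : dg y' z' = 0 := by omega
    obtain ⟨e1, e2⟩ := dg_eq_zero hd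
    refine hne ⟨?_, e1, e2⟩
    rw [hv', hd, e2, sv_zero] at hj
    omega
  · have h4 : m ≤ m * j := Nat.le_mul_of_pos_right m h0
    omega

theorem atomY {n m K N : ℕ} (hn : 1 ≤ n) (hK : 3 ≤ K) (hm : K ^ (n + 1) ≤ m) (hN : N = m / K)
    {x' y' : ℕ} {z' : Fin n → ℕ} (hc : va K N x' y' z' ≡ va K N 0 1 (0 : Fin n → ℕ) [MOD m])
    (hne : ¬ (x' = 0 ∧ y' = 1 ∧ z' = 0)) :
    wv m K N 0 1 (0 : Fin n → ℕ) < wv m K N x' y' z' := by
  obtain ⟨hNK, hN3, hNm, hm9⟩ := atom_params hn hK hm hN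
  have hd0 : dg 1 (0 : Fin n → ℕ) = 1 := by simp [dg]
  have hv0 : va K N 0 1 (0 : Fin n → ℕ) = N := by
    unfold va
    rw [hd0, sv_zero]
    simp
  have hv' : va K N x' y' z' = x' + dg y' z' * N + sv K z' := rfl
  obtain ⟨j, hj⟩ := atom_mod hc (by rw [hv0]; omega)
  refine wv_lt (by omega) (by rw [hj]; exact Nat.le_add_right _ _) ?_ (by omega)
  rw [hd0, hv0]
  rw [hv0] at hj
  rcases Nat.eq_zero_or_pos j with h0 | h0
  · rw [h0, Nat.mul_zero, Nat.add_zero] at hj
    rw [hj]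
    rcases Nat.lt_or_ge (dg y' z') 2 with hd | hd
    · rcases Nat.eq_zero_or_pos (dg y' z') with hd' | hd'
      · omega
      · exfalso
        have hd1 : dg y' z' = 1 := by omega
        rw [hv', hd1] at hj
        have hs : sv K z' = 0 := by omega
        have h5 := atom_sum_le (by omega : 1 ≤ K) z'
        have h6 : ∑ i, z' i = 0 := by omega
        refine hne ⟨by omega, ?_, ?_⟩
        · unfold dg at hd1
          omega
        · funext i
          exact Finset.sum_eq_zero_iff.1 h6 i (Finset.mem_univ i)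
    · exfalso
      have h5 : 2 * N ≤ dg y' z' * N := Nat.mul_le_mul_right N hd
      omega
  · by_contra hcon
    have h5 : m * j + 1 ≤ dg y' z' := by omega
    have h6 : (m * j + 1) * N ≤ dg y' z' * N := Nat.mul_le_mul_right N h5
    have h7 : (m * j + 1) * N = m * j * N + N := by ring
    have h8 : m * j * 3 ≤ m * j * N := Nat.mul_le_mul_left _ hN3
    have h4 : m ≤ m * j := Nat.le_mul_of_pos_right m h0
    omega

theorem atomG {n m K N : ℕ} (hn : 1 ≤ n) (hK : 3 ≤ K) (hm : K ^ (n + 1) ≤ m) (hN : N = m / K)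
    (i : Fin n) {x' y' : ℕ} {z' : Fin n → ℕ}
    (hc : va K N x' y' z' ≡ va K N 0 0 (Pi.single i 1 : Fin n → ℕ) [MOD m])
    (hne : ¬ (x' = 0 ∧ y' = 0 ∧ z' = Pi.single i 1)) :
    wv m K N 0 0 (Pi.single i 1 : Fin n → ℕ) < wv m K N x' y' z' := by
  obtain ⟨hNK, hN3, hNm, hm9⟩ := atom_params hn hK hm hN
  have hsum : ∑ k, (Pi.single i 1 : Fin n → ℕ) k = 1 := by simp
  have hd0 : dg 0 (Pi.single i 1 : Fin n → ℕ) = 1 := by
    unfold dg
    rw [hsum]
  have hs0 : sv K (Pi.single i 1 : Fin n → ℕ) = K ^ (i : ℕ) := by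
    unfold sv
    rw [Finset.sum_eq_single i]
    · simp
    · intro b _ hb
      rw [Pi.single_eq_of_ne hb, Nat.mul_zero]
    · intro h
      exact absurd (Finset.mem_univ i) h
  have hv0 : va K N 0 0 (Pi.single i 1 : Fin n → ℕ) = N + K ^ (i : ℕ) := by
    unfold va
    rw [hd0, hs0]
    ring
  have hKi : K ^ (i : ℕ) < K ^ n := Nat.pow_lt_pow_right (by omega) i.2
  have hKi0 : 0 < K ^ (i : ℕ) := Nat.pow_pos (by omega)
  have hv' : va K N x' y' z' = x' + dg y' z' * N + sv K z' := rfl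
  obtain ⟨j, hj⟩ := atom_mod hc (by rw [hv0]; omega)
  refine wv_lt (by omega) (by rw [hj]; exact Nat.le_add_right _ _) ?_ (by omega)
  rw [hd0, hv0]
  rw [hv0] at hj
  rcases Nat.eq_zero_or_pos j with h0 | h0
  · rw [h0, Nat.mul_zero, Nat.add_zero] at hj
    rw [hj]
    rcases Nat.lt_or_ge (dg y' z') 2 with hd | hd
    · rcases Nat.eq_zero_or_pos (dg y' z') with hd' | hd'
      · omega
      · have hd1 : dg y' z' = 1 := by omega
        rcases Nat.eq_zero_or_pos x' with hx | hx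
        · exfalso
          rw [hv', hd1, hx] at hj
          have hs : sv K z' = K ^ (i : ℕ) := by omega
          have h5 : ∑ k, z' k ≤ 1 := by
            unfold dg at hd1
            omega
          rcases digits (by omega : 1 ≤ K) (Pi.single i 1 : Fin n → ℕ) z' (fun k => by
              by_cases hk : k = i
              · rw [hk, Pi.single_eq_same]
                omega
              · rw [Pi.single_eq_of_ne hk]
                omega) (hs0.trans hs.symm) with h6 | h6
          · refine hne ⟨hx, ?_, h6⟩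
            unfold dg at hd1
            rw [h6, hsum] at hd1
            omega
          · rw [hsum] at h6
            omega
        · omega
    · exfalso
      have h5 : 2 * N ≤ dg y' z' * N := Nat.mul_le_mul_right N hd
      omega
  · by_contra hcon
    have h5 : m * j + 1 ≤ dg y' z' := by omega
    have h6 : (m * j + 1) * N ≤ dg y' z' * N := Nat.mul_le_mul_right N h5
    have h7 : (m * j + 1) * N = m * j * N + N := by ring
    have h8 : m * j * 3 ≤ m * j * N := Nat.mul_le_mul_left _ hN3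
    have h4 : m ≤ m * j := Nat.le_mul_of_pos_right m h0
    omega

end Pool.Agent.TG
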