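import Pool.Agent.TG.Arith

/-!
# The family: the chosen triples are maximal

Same conventions.  `(0, y, z)` with `y ≥ 1`, `∑ z ≤ K - 2`, and either (level `K - 1`) `dg = K - 1`,
`ρ ≤ sv K z`, or (level `K`) `dg = K`, `sv K z < ρ`, where `m = K N + ρ`, `ρ < K`.

* `maxX`: adding `X`: `(1, y, z)` and `(0, y - 1, z + e_0)` have the same value (`K^0 = 1`), and the second is
  lighter by `m`.
* `maxY`: adding `Y`: `va (0, y+1, z) = (dg + 1) N + s`.  Level `K - 1`: `= K N + s = m + (s - ρ)`, so `X^v`,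
  `v = s - ρ`, has the same class; its weight `v + 2 m v` is smaller than `(m + v) + m (m + v - K)` iff
  `m v < m + m (m - K)`, ok as `v ≤ s < N ≤ m - K + 1`.  Level `K`: `va = (K + 1) N + s = m + v`, `v = N + s - ρ < N`,
  `2 m v + v < (m + v) + m (m + v - (K+1))` iff `v < m - K` ok.
* `maxG`: adding `G i`: the same with `s + K^i` in place of `s`, `s + K^i ≤ K^(n-1) (K - 1) < K^n ≤ N` (the
  digit sum of `z + e_i` is `≤ K - 1`), so `v < N` at level `K - 1` and `v < 2 N` at level `K`; `2 N ≤ m - K`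
  as `K ≥ 3`, `N ≥ K` (`m ≥ K N`).
-/

set_option linter.all false

namespace Pool.Agent.TG

private theorem core {m K N ρ D S : ℕ} (hm : m = K * N + ρ) (hρ : ρ < K) (hS : S < N) (hN : K ≤ N)
    (hK : 3 ≤ K) (h : (D = K ∧ ρ ≤ S) ∨ D = K + 1) :
    ∃ v, v ≡ D * N + S [MOD m] ∧ v + m * (2 * v) < D * N + S + m * (D * (N - 1) + S) := by
  have key : ∃ v, D * N + S = m + v ∧ v + D ≤ m := by
    rcases h with ⟨rfl, h1⟩ | rfl
    · refine ⟨S - ρ, by omega, ?_⟩
      have h2 : N + D ≤ D * N + 1 := by nlinarith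
      omega
    · refine ⟨N + S - ρ, ?_, ?_⟩
      · have h2 : (K + 1) * N = K * N + N := by ring
        omega
      · have h2 : 2 * N + K ≤ K * N := by nlinarith
        omega
  obtain ⟨v, hv1, hv2⟩ := key
  refine ⟨v, ?_, ?_⟩
  · rw [hv1]
    exact (Nat.ModEq.symm (by simp [Nat.ModEq]))
  · have h3 : D * (N - 1) + D = D * N := by
      obtain ⟨N', rfl⟩ : ∃ N', N = N' + 1 := ⟨N - 1, by omega⟩
      simp
      ring
    have h4 : D * (N - 1) + S = m + v - D := by omega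
    rw [h4, hv1]
    have h5 : 2 * v + 0 ≤ m + v - D := by omega
    have h6 : m * (2 * v) ≤ m * (m + v - D) := Nat.mul_le_mul_left m (by omega)
    have h7 : 0 < m := by omega
    omega

private theorem sv_le {n K : ℕ} (hn : 1 ≤ n) (hK : 1 ≤ K) (z : Fin n → ℕ) :
    sv K z ≤ K ^ (n - 1) * ∑ i, z i := by
  unfold sv
  rw [Finset.mul_sum]
  refine Finset.sum_le_sum fun i _ => Nat.mul_le_mul_right _ ?_
  exact Nat.pow_le_pow_right hK (by omega)

private theorem sum_single {n : ℕ} (z : Fin n → ℕ) (i : Fin n) :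
    ∑ j, (z + (Pi.single i 1 : Fin n → ℕ)) j = (∑ j, z j) + 1 := by
  simp [Finset.sum_add_distrib]

private theorem sv_single {n K : ℕ} (z : Fin n → ℕ) (i : Fin n) :
    sv K (z + Pi.single i 1) = sv K z + K ^ (i : ℕ) := by
  unfold sv
  simp only [Pi.add_apply, mul_add, Finset.sum_add_distrib]
  congr 1
  rw [Finset.sum_eq_single i]
  · simp
  · intro j _ hj
    rw [Pi.single_eq_of_ne hj, mul_zero]
  · intro h
    exact absurd (Finset.mem_univ i) h

theorem maxX {n m K N y : ℕ} (hn : 1 ≤ n) (hm : 0 < m) (hN : 1 ≤ N) {z : Fin n → ℕ} (hy : 1 ≤ y) :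
    va K N 0 (y - 1) (z + Pi.single ⟨0, hn⟩ 1) = va K N 1 y z ∧
      wv m K N 0 (y - 1) (z + Pi.single ⟨0, hn⟩ 1) < wv m K N 1 y z := by
  have h1 : dg (y - 1) (z + Pi.single ⟨0, hn⟩ 1) = dg y z := by
    unfold dg
    rw [sum_single]
    omega
  have h2 : sv K (z + Pi.single (⟨0, hn⟩ : Fin n) 1) = sv K z + 1 := by
    rw [sv_single]
    simp
  have h3 : va K N 0 (y - 1) (z + Pi.single ⟨0, hn⟩ 1) = va K N 1 y z := by
    unfold va
    rw [h1, h2]
    ring
  refine ⟨h3, ?_⟩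
  unfold wv
  rw [h3, h1, h2]
  have h4 : m * (2 * 0 + dg y z * (N - 1) + (sv K z + 1)) < m * (2 * 1 + dg y z * (N - 1) + sv K z) :=
    Nat.mul_lt_mul_of_pos_left (by omega) hm
  omega

private theorem final {n m K N : ℕ} (hn : 1 ≤ n) (hK : 3 ≤ K) (hm : K ^ (n + 1) ≤ m)
    (hN : N = m / K) {y1 : ℕ} {z1 : Fin n → ℕ} (hz : ∑ i, z1 i ≤ K - 1)
    (h : (dg y1 z1 = K ∧ m - K * N ≤ sv K z1) ∨ dg y1 z1 = K + 1) :
    ∃ v, v ≡ va K N 0 y1 z1 [MOD m] ∧
      wv m K N v 0 (0 : Fin n → ℕ) < wv m K N 0 y1 z1 := by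
  have hKpos : 0 < K := by omega
  have hNK : K ^ n ≤ N := by
    rw [hN, Nat.le_div_iff_mul_le hKpos, ← pow_succ]
    exact hm
  have hKN : K ≤ N := by
    refine le_trans ?_ hNK
    calc K = K ^ 1 := (pow_one K).symm
      _ ≤ K ^ n := Nat.pow_le_pow_right hKpos hn
  have hdiv : K * N + m % K = m := by
    rw [hN]
    exact Nat.div_add_mod m K
  have hmod : m % K < K := Nat.mod_lt m hKpos
  have hS : sv K z1 < N := by
    have h1 := sv_le hn (by omega) z1 (K := K)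
    have h2 : K ^ (n - 1) * ∑ i, z1 i ≤ K ^ (n - 1) * (K - 1) := Nat.mul_le_mul_left _ hz
    have h3 : K ^ (n - 1) * (K - 1) < K ^ (n - 1) * K :=
      Nat.mul_lt_mul_of_pos_left (by omega) (pow_pos hKpos _)
    have h4 : K ^ (n - 1) * K = K ^ n := by
      rw [← pow_succ]
      congr 1
      omega
    omega
  obtain ⟨v, hv1, hv2⟩ := core (m := m) (K := K) (N := N) (ρ := m % K) (D := dg y1 z1)
    (S := sv K z1) hdiv.symm hmod hS hKN hK (by
      rcases h with ⟨h1, h2⟩ | h1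
      · left
        exact ⟨h1, by omega⟩
      · exact Or.inr h1)
  refine ⟨v, ?_, ?_⟩
  · have h1 : va K N 0 y1 z1 = dg y1 z1 * N + sv K z1 := by
      unfold va
      ring
    rw [h1]
    exact hv1
  · have h1 : wv m K N v 0 (0 : Fin n → ℕ) = v + m * (2 * v) := by
      simp [wv, va, dg, sv]
    have h2 : wv m K N 0 y1 z1 = dg y1 z1 * N + sv K z1 + m * (dg y1 z1 * (N - 1) + sv K z1) := by
      unfold wv va
      ring
    rw [h1, h2]
    exact hv2

theorem maxY {n m K N : ℕ} (hn : 1 ≤ n) (hK : 3 ≤ K) (hm : K ^ (n + 1) ≤ m) (hN : N = m / K)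
    {y : ℕ} {z : Fin n → ℕ} (hz : ∑ i, z i ≤ K - 2)
    (hy : (dg y z = K - 1 ∧ m - K * N ≤ sv K z) ∨ (dg y z = K ∧ sv K z < m - K * N)) :
    ∃ v, v ≡ va K N 0 (y + 1) z [MOD m] ∧
      wv m K N v 0 (0 : Fin n → ℕ) < wv m K N 0 (y + 1) z := by
  have h1 : dg (y + 1) z = dg y z + 1 := by
    unfold dg
    omega
  refine final hn hK hm hN (by omega) ?_
  rcases hy with ⟨h2, h3⟩ | ⟨h2, h3⟩
  · exact Or.inl ⟨by omega, h3⟩
  · exact Or.inr (by omega)

theorem maxG {n m K N : ℕ} (hn : 1 ≤ n) (hK : 3 ≤ K) (hm : K ^ (n + 1) ≤ m) (hN : N = m / K)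
    (i : Fin n) {y : ℕ} {z : Fin n → ℕ} (hz : ∑ i, z i ≤ K - 2)
    (hy : (dg y z = K - 1 ∧ m - K * N ≤ sv K z) ∨ (dg y z = K ∧ sv K z < m - K * N)) :
    ∃ v, v ≡ va K N 0 y (z + Pi.single i 1) [MOD m] ∧
      wv m K N v 0 (0 : Fin n → ℕ) < wv m K N 0 y (z + Pi.single i 1) := by
  have h0 := sum_single z i
  have h1 : dg y (z + Pi.single i 1) = dg y z + 1 := by
    unfold dg
    rw [h0]
    omega
  refine final hn hK hm hN (by omega) ?_
  rcases hy with ⟨h2, h3⟩ | ⟨h2, h3⟩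
  · refine Or.inl ⟨by omega, ?_⟩
    rw [sv_single]
    omega
  · exact Or.inr (by omega)

end Pool.Agent.TG
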