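import Mathlib

/-!
# Arithmetic of the stamp family

Coordinates `x, y : ℕ`, `z : Fin n → ℕ`; `β : Fin n → ℕ`.  Degree `d = y + ∑ z`, value
`V = vb N β x y z = x + d N + ∑ β z`, weight `wb = V + m (2 x + d (N - 1) + ∑ β z) = V + m (V + x - d)`.

`wb_lt_or`: `V < m`, `V < (d+1) N`, `x = 0`, and `V' ≡ V (mod m)`, so `V' = V + j m`.
* `j = 0`: `d' N ≤ V' = V < (d+1) N`, so `d' ≤ d`; `wb' - wb = m (x' + d - d')`, which is `0` only if `x' = 0` and `d' = d`.
* `j ≥ 1`: `(d' - d) N < j m + N`, so `d' - d < j m / 2 + 1 ≤ j m` (`N ≥ 2`, `m ≥ 2`), so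
  `V' + x' - d' > V - d` and `V' > V`.

`atX`: `wb X = 1 + 2 m`.  `V' ≡ 1`: `V' = 1` forces `d' = 0` (`N ≥ 3`), so `x' = 1`, `y' = 0`, `z' = 0`.  If `V' = 1 + j m`, `j ≥ 1`:
`d' ≤ V' / 3`, `V' - d' ≥ 2 (1 + m) / 3 ≥ 2`, so `wb' ≥ 1 + m + 2 m`.
`atY`, `atG`: by `wb_lt_or`; in the second alternative `d' = 1`, `x' = 0`, so `y' = 1`, `z' = 0`, or `y' = 0`, `z' = e_j`
and `∑ β z' = β j`; compare with `0`, resp. `β i` (`β ≥ 1`, injective).

`wrap`: if `V + b = m + v` and `v + d < m`, then `X^v` (weight `v + 2 m v`) is lighter than `wb + (b + m (b - 1)) =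
(m + v) + m (m + v - (d + 1))`.  (`1 ≤ b`, `1 ≤ N`.)
-/

namespace Pool.Agent.TG

def vb {n : ℕ} (N : ℕ) (β : Fin n → ℕ) (x y : ℕ) (z : Fin n → ℕ) : ℕ :=
  x + (y + ∑ i, z i) * N + ∑ i, β i * z i

def wb {n : ℕ} (m N : ℕ) (β : Fin n → ℕ) (x y : ℕ) (z : Fin n → ℕ) : ℕ :=
  vb N β x y z + m * (2 * x + (y + ∑ i, z i) * (N - 1) + ∑ i, β i * z i)

theorem arr_key {n m N : ℕ} (hN : 1 ≤ N) (β : Fin n → ℕ) (x y : ℕ) (z : Fin n → ℕ) :
    ∃ K G : ℕ, vb N β x y z = x + (y + ∑ i, z i) * N + G ∧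
      K + (y + ∑ i, z i) = vb N β x y z + x ∧ wb m N β x y z = vb N β x y z + m * K ∧
      G = ∑ i, β i * z i := by
  refine ⟨2 * x + (y + ∑ i, z i) * (N - 1) + ∑ i, β i * z i, ∑ i, β i * z i, rfl, ?_, rfl, rfl⟩
  unfold vb
  obtain ⟨k, rfl⟩ := Nat.exists_eq_add_of_le' hN
  rw [Nat.add_sub_cancel]
  ring

theorem arr_single {n : ℕ} {z : Fin n → ℕ} (h : ∑ i, z i = 1) : ∃ j, z = Pi.single j 1 := by
  have h1 : ∃ j, z j ≠ 0 := by
    by_contra hc
    push Not at hc
    simp [hc] at h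
  obtain ⟨j, hj⟩ := h1
  refine ⟨j, ?_⟩
  have h2 : z j + ∑ i ∈ Finset.univ.erase j, z i = 1 := by
    rw [← h]
    exact Finset.add_sum_erase _ _ (Finset.mem_univ j)
  have h3 : ∑ i ∈ Finset.univ.erase j, z i = 0 := by omega
  have h4 : z j = 1 := by omega
  funext i
  by_cases hi : i = j
  · subst hi
    rw [Pi.single_eq_same, h4]
  · rw [Pi.single_eq_of_ne hi]
    exact Finset.sum_eq_zero_iff.1 h3 i (Finset.mem_erase.2 ⟨hi, Finset.mem_univ i⟩)

theorem arr_mod {a v m : ℕ} (hv : v < m) (h : a ≡ v [MOD m]) : ∃ j, a = v + m * j := by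
  refine ⟨a / m, ?_⟩
  have h1 : a % m = v := by
    rw [h, Nat.mod_eq_of_lt hv]
  have h2 := Nat.mod_add_div a m
  omega

theorem wb_lt_or {n m N : ℕ} {β : Fin n → ℕ} {y x' y' : ℕ} {z z' : Fin n → ℕ} (hN : 2 ≤ N)
    (hm : 2 ≤ m) (h0 : vb N β 0 y z < m) (hs : vb N β 0 y z < (y + ∑ i, z i + 1) * N)
    (hc : vb N β x' y' z' ≡ vb N β 0 y z [MOD m]) :
    wb m N β 0 y z < wb m N β x' y' z' ∨
      (wb m N β 0 y z = wb m N β x' y' z' ∧ vb N β x' y' z' = vb N β 0 y z ∧ x' = 0 ∧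
        y' + ∑ i, z' i = y + ∑ i, z i) := by
  obtain ⟨K, G, hV, hK, hw, -⟩ := arr_key (m := m) (by omega : 1 ≤ N) β 0 y z
  obtain ⟨K', G', hV', hK', hw', -⟩ := arr_key (m := m) (by omega : 1 ≤ N) β x' y' z'
  obtain ⟨j, hj⟩ := arr_mod h0 hc
  rw [hw, hw']
  set d := y + ∑ i, z i with hd
  set d' := y' + ∑ i, z' i with hd'
  set V := vb N β 0 y z with hVd
  set V' := vb N β x' y' z' with hVd'
  rcases Nat.eq_zero_or_pos j with h1 | h1
  · subst h1
    have hVV : V' = V := by omega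
    have h2 : d' * N < (d + 1) * N := by
      have : d' * N ≤ V' := by omega
      omega
    have h3 : d' < d + 1 := Nat.lt_of_mul_lt_mul_right h2
    by_cases h4 : x' = 0 ∧ d' = d
    · right
      obtain ⟨h4, h5⟩ := h4
      have h6 : K = K' := by omega
      refine ⟨?_, hVV, h4, h5⟩
      rw [h6, hVV]
    · left
      have h6 : K + 1 ≤ K' := by omega
      have h7 : m * (K + 1) ≤ m * K' := Nat.mul_le_mul_left m h6
      have h8 : m * (K + 1) = m * K + m := by ring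
      omega
  · left
    have h2 : m ≤ m * j := Nat.le_mul_of_pos_right m h1
    have h3 : K ≤ K' := by
      by_cases h4 : d' ≤ d
      · omega
      · obtain ⟨e, he⟩ : ∃ e, d' = d + 1 + e := ⟨d' - d - 1, by omega⟩
        have h5 : d' * N ≤ V' := by omega
        have h6 : d' * N = (d + 1) * N + e * N := by
          rw [he]
          ring
        have h7 : e * 2 ≤ e * N := Nat.mul_le_mul_left e hN
        omega
    have h4 : m * K ≤ m * K' := Nat.mul_le_mul_left m h3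
    omega

theorem atX {n m N : ℕ} {β : Fin n → ℕ} {x' y' : ℕ} {z' : Fin n → ℕ} (hN : 3 ≤ N)
    (hm : 2 ≤ m) (hc : vb N β x' y' z' ≡ 1 [MOD m]) (hne : ¬ (x' = 1 ∧ y' = 0 ∧ z' = 0)) :
    1 + m * 2 < wb m N β x' y' z' := by
  obtain ⟨K', G', hV', hK', hw', -⟩ := arr_key (m := m) (by omega : 1 ≤ N) β x' y' z'
  obtain ⟨j, hj⟩ := arr_mod (by omega : 1 < m) hc
  rw [hw']
  have hdN : (y' + ∑ i, z' i) * 3 ≤ (y' + ∑ i, z' i) * N := Nat.mul_le_mul_left _ hN
  rcases Nat.eq_zero_or_pos j with h1 | h1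
  · exfalso
    subst h1
    have hd : y' + ∑ i, z' i = 0 := by omega
    apply hne
    refine ⟨?_, by omega, ?_⟩
    · have hs : ∑ i, z' i = 0 := by omega
      have hz : ∀ i, z' i = 0 := fun i =>
        Finset.sum_eq_zero_iff.1 hs i (Finset.mem_univ i)
      have hv : vb N β x' y' z' = x' := by
        unfold vb
        rw [hd]
        simp [hz]
      omega
    · funext i
      have hs : ∑ i, z' i = 0 := by omega
      exact Finset.sum_eq_zero_iff.1 hs i (Finset.mem_univ i)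
  · have h2 : m ≤ m * j := Nat.le_mul_of_pos_right m h1
    have h3 : 2 ≤ K' := by omega
    have h4 : m * 2 ≤ m * K' := Nat.mul_le_mul_left m h3
    omega

theorem atY {n m N : ℕ} {β : Fin n → ℕ} {x' y' : ℕ} {z' : Fin n → ℕ} (hN : 3 ≤ N)
    (hm : N < m) (hβ : ∀ i, 1 ≤ β i) (hc : vb N β x' y' z' ≡ N [MOD m])
    (hne : ¬ (x' = 0 ∧ y' = 1 ∧ z' = 0)) :
    N + m * (N - 1) < wb m N β x' y' z' := by
  have hv : vb N β 0 1 0 = N := by
    unfold vb
    simp
  have hw : wb m N β 0 1 0 = N + m * (N - 1) := by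
    unfold wb
    rw [hv]
    simp
  rw [← hw]
  rcases wb_lt_or (n := n) (m := m) (N := N) (β := β) (y := 1) (x' := x') (y' := y') (z := 0)
    (z' := z') (by omega) (by omega) (by rw [hv]; exact hm)
    (by rw [hv]; simp; omega) (by rw [hv]; exact hc) with h | ⟨-, h1, h2, h3⟩
  · exact h
  · exfalso
    rw [hv] at h1
    simp only [Pi.zero_apply, Finset.sum_const_zero, add_zero] at h3
    rcases Nat.eq_zero_or_pos y' with h4 | h4
    · obtain ⟨j, hj⟩ := arr_single (z := z') (by omega)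
      subst hj
      subst h2
      subst h4
      have h5 : vb N β 0 0 (Pi.single j 1) = N + β j := by
        unfold vb
        simp [Pi.single_apply]
      have h6 := hβ j
      omega
    · apply hne
      refine ⟨h2, by omega, ?_⟩
      funext i
      have hs : ∑ i, z' i = 0 := by omega
      exact Finset.sum_eq_zero_iff.1 hs i (Finset.mem_univ i)

theorem atG {n m N : ℕ} {β : Fin n → ℕ} {x' y' : ℕ} {z' : Fin n → ℕ} (hN : 3 ≤ N)
    (hβ : ∀ i, 1 ≤ β i) (hinj : ∀ i j, β i = β j → i = j) (i : Fin n) (hb : β i < N)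
    (hm : N + β i < m) (hc : vb N β x' y' z' ≡ N + β i [MOD m])
    (hne : ¬ (x' = 0 ∧ y' = 0 ∧ z' = Pi.single i 1)) :
    (N + β i) + m * (N + β i - 1) < wb m N β x' y' z' := by
  have hv : ∀ j, vb N β 0 0 (Pi.single j 1) = N + β j := by
    intro j
    unfold vb
    simp [Pi.single_apply]
  have hw : wb m N β 0 0 (Pi.single i 1) = (N + β i) + m * (N + β i - 1) := by
    unfold wb
    rw [hv]
    have : N + β i - 1 = N - 1 + β i := by omega
    rw [this]
    simp [Pi.single_apply]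
  have hs1 : ∑ j, (Pi.single i 1 : Fin n → ℕ) j = 1 := by simp
  rw [← hw]
  rcases wb_lt_or (n := n) (m := m) (N := N) (β := β) (y := 0) (x' := x') (y' := y')
    (z := Pi.single i 1) (z' := z') (by omega) (by omega) (by rw [hv]; exact hm)
    (by rw [hv, hs1]; omega) (by rw [hv]; exact hc) with h | ⟨-, h1, h2, h3⟩
  · exact h
  · exfalso
    rw [hv] at h1
    rw [hs1] at h3
    rcases Nat.eq_zero_or_pos y' with h4 | h4
    · obtain ⟨j, hj⟩ := arr_single (z := z') (by omega)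
      subst hj
      subst h2
      subst h4
      rw [hv] at h1
      have h5 : j = i := hinj j i (by omega)
      subst h5
      exact hne ⟨rfl, rfl, rfl⟩
    · have hs : ∑ i, z' i = 0 := by omega
      have hz : ∀ i, z' i = 0 := fun i =>
        Finset.sum_eq_zero_iff.1 hs i (Finset.mem_univ i)
      have hy : y' = 1 := by omega
      have h5 : vb N β x' y' z' = N := by
        unfold vb
        rw [h2, hy]
        simp [hz]
      have h6 := hβ i
      omega

theorem wrap {n m N : ℕ} {β : Fin n → ℕ} {y b v : ℕ} {z : Fin n → ℕ} (hN : 1 ≤ N) (hb : 1 ≤ b)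
    (hv : vb N β 0 y z + b = m + v) (hd : v + (y + ∑ i, z i) < m) :
    v + m * (2 * v) < wb m N β 0 y z + (b + m * (b - 1)) := by
  obtain ⟨K, G, hV, hK, hw, -⟩ := arr_key (m := m) hN β 0 y z
  rw [hw]
  set d := y + ∑ i, z i with hdd
  have h1 : 2 * v ≤ K + (b - 1) := by omega
  have h2 : m * (2 * v) ≤ m * (K + (b - 1)) := Nat.mul_le_mul_left m h1
  rw [Nat.mul_add] at h2
  omega

end Pool.Agent.TG
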