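import Mathlib

/-!
# Maximal elements of an order ideal with at most one full-support minimal generator

`P` is a finite lower set of `ℕ^(e+2)`; `hF`: the complement of `P` has at most one minimal element
with full support.  Then for every `K`,
`K * #(maximal elements of P) ≤ (e+2) (K^(e+1) + #P)`.

Proof.  `K = 0` is trivial; let `K ≥ 1`.  `M` = maximal elements (`p ∈ P`, `p + e_i ∉ P` for all
`i`; two comparable elements of `M` are equal: if `p ≤ q`, `p ≠ q`, then `p + e_i ≤ q` for some `i`).

(A) For `i`, let `A_i = {p ∈ M | K ≤ p_i + 1}`.  The columns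
`{p - j e_i | 0 ≤ j ≤ p_i} ⊆ P` of different `p ∈ A_i` are disjoint (if they meet, `p` and `q`
agree outside the coordinate `i`, so they are comparable, so equal), so `K * #A_i ≤ #P` (e.g. the map
`(p, j) ↦ p - j e_i` (or `Function.update p i j`) from `A_i × range K` to `P` is injective).
Total: `K * #(⋃ A_i) ≤ (e+2) * #P`.

(B) `B = {p ∈ M | ∀ i, p_i + 1 < K}`.  Let `p ∈ B`.  As `p + e_0 ∉ P`, there is a minimal `g ≤ p + e_0`
with `g ∉ P` (minimal: `g - e_i ∈ P` whenever `g_i ≥ 1`); `g_0 = p_0 + 1` (otherwise `g ≤ p`).  Either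
`g_j = 0` for some `j ≠ 0`, or `g` has full support, and then `g` is the unique one `F` and
`p_0 = F_0 - 1`.  So `B` is the union of `B_j = {p ∈ B | ∃ g ∉ P, g ≤ p + e_0, g_j = 0}`, `j ≠ 0`
(`e + 1` sets) and of `B' = {p ∈ B | p_0 + 1 = F_0}`.
* `#B_j ≤ K^e`: the restriction of `p` to the coordinates `≠ 0, j` (`e` coordinates, values `< K`) is
  injective on `B_j`: let `p, q ∈ B_j` agree on the coordinates `≠ 0, j`.  If `q_0 ≥ p_0 + 1`, then `q ≥ g`
  (`g` for `p`: `g_0 = p_0+1 ≤ q_0`, `g_j = 0`, `g_k ≤ p_k = q_k` for the others), contradiction to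
  `q ∈ P`; so `q_0 ≤ p_0`, by symmetry `q_0 = p_0`; so `p`, `q` differ at most in the coordinate `j`, they
  are comparable, so `p = q`.
* `#B' ≤ K^e`: `p, q ∈ B'` which agree on the coordinates `≠ 0, 1` also agree in coordinate `0`, so
  they are comparable and equal.
Total: `#B ≤ (e+2) K^e`, so `K * #B ≤ (e+2) K^(e+1)`.
-/

namespace Pool.Agent.TG

open Finset

/-- comparable maximal elements are equal -/
theorem comb_eq {n : ℕ} {P : Finset (Fin n → ℕ)} (hP : IsLowerSet (P : Set (Fin n → ℕ)))
    {p q : Fin n → ℕ} (hq : q ∈ P) (hp : ∀ i, p + Pi.single i 1 ∉ P) (h : p ≤ q) : p = q := by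
  by_contra hne
  obtain ⟨i, hi⟩ : ∃ i, p i < q i := by
    by_contra hcon
    push Not at hcon
    exact hne (le_antisymm h hcon)
  refine hp i (hP (a := q) ?_ hq)
  intro j
  by_cases hj : j = i
  · subst hj
    simp only [Pi.add_apply, Pi.single_eq_same]
    omega
  · simp only [Pi.add_apply, Pi.single_eq_of_ne hj, add_zero]
    exact h j

/-- two maximal elements which agree outside one coordinate are equal -/
theorem comb_eq' {n : ℕ} {P : Finset (Fin n → ℕ)} (hP : IsLowerSet (P : Set (Fin n → ℕ)))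
    {p q : Fin n → ℕ} (hpP : p ∈ P) (hqP : q ∈ P) (hp : ∀ i, p + Pi.single i 1 ∉ P)
    (hq : ∀ i, q + Pi.single i 1 ∉ P) (j : Fin n) (h : ∀ k, k ≠ j → p k = q k) : p = q := by
  rcases le_total (p j) (q j) with h1 | h1
  · refine comb_eq hP hqP hp ?_
    intro k
    by_cases hk : k = j
    · subst hk; exact h1
    · exact (h k hk).le
  · refine (comb_eq hP hpP hq ?_).symm
    intro k
    by_cases hk : k = j
    · subst hk; exact h1
    · exact (h k hk).ge

/-- the column count -/
theorem comb_col {n : ℕ} (P : Finset (Fin n → ℕ)) (hP : IsLowerSet (P : Set (Fin n → ℕ))) (K : ℕ)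
    (i : Fin n) (A : Finset (Fin n → ℕ)) (hA : A ⊆ P) (hmax : ∀ p ∈ A, ∀ i, p + Pi.single i 1 ∉ P)
    (hK : ∀ p ∈ A, K ≤ p i + 1) : K * A.card ≤ P.card := by
  have h : (A ×ˢ range K).card ≤ P.card := by
    refine Finset.card_le_card_of_injOn (fun z => Function.update z.1 i z.2) ?_ ?_
    · rintro ⟨p, j⟩ hz
      rw [Finset.mem_coe, Finset.mem_product, Finset.mem_range] at hz
      refine hP (a := p) ?_ (hA hz.1)
      intro k
      have h1 := hK p hz.1
      have h2 := hz.2
      by_cases hk : k = i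
      · subst hk
        simp only [Function.update_self]
        simp only at h1 h2
        omega
      · simp [Function.update_of_ne hk]
    · rintro ⟨p, j⟩ hz ⟨q, k⟩ hw heq
      rw [Finset.mem_coe, Finset.mem_product] at hz hw
      simp only at heq hz hw
      have hj : j = k := by
        have := congrFun heq i
        simpa using this
      have hpq : p = q := by
        refine comb_eq' hP (hA hz.1) (hA hw.1) (hmax p hz.1) (hmax q hw.1) i ?_
        intro l hl
        have := congrFun heq l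
        simpa [Function.update_of_ne hl] using this
      rw [hj, hpq]
  rw [Finset.card_product, Finset.card_range, mul_comm] at h
  exact h

/-- counting with two free coordinates -/
theorem comb_two {e K : ℕ} (hK : 1 ≤ K) (S : Finset (Fin (e + 2) → ℕ)) (hS : ∀ p ∈ S, ∀ i, p i < K)
    (a b : Fin (e + 2)) (hab : a ≠ b)
    (hinj : ∀ p ∈ S, ∀ q ∈ S, (∀ k, k ≠ a → k ≠ b → p k = q k) → p = q) : S.card ≤ K ^ e := by
  classical
  have h : S.card ≤ (Finset.univ : Finset ({k : Fin (e + 2) // k ≠ a ∧ k ≠ b} → Fin K)).card := by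
    refine Finset.card_le_card_of_injOn (fun p k => ⟨p k.1 % K, Nat.mod_lt _ hK⟩) ?_ ?_
    · intro p _
      simp
    · intro p hp q hq heq
      refine hinj p hp q hq ?_
      intro k hka hkb
      have := congrFun heq ⟨k, hka, hkb⟩
      simp only [Fin.mk.injEq] at this
      rwa [Nat.mod_eq_of_lt (hS p hp k), Nat.mod_eq_of_lt (hS q hq k)] at this
  rw [Finset.card_univ, Fintype.card_fun, Fintype.card_fin] at h
  have hc : Fintype.card {k : Fin (e + 2) // k ≠ a ∧ k ≠ b} = e := by
    rw [Fintype.card_subtype]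
    have : (Finset.univ.filter fun k : Fin (e + 2) => k ≠ a ∧ k ≠ b) = Finset.univ \ {a, b} := by
      ext k
      simp
    rw [this, Finset.card_sdiff_of_subset (Finset.subset_univ _), Finset.card_univ, Fintype.card_fin,
      Finset.card_pair hab]
    omega
  rwa [hc] at h

/-- a minimal element below `u` outside of `P` -/
theorem comb_min {n : ℕ} (P : Finset (Fin n → ℕ)) (u : Fin n → ℕ) (hu : u ∉ P) :
    ∃ g, g ∉ P ∧ g ≤ u ∧ ∀ i, 1 ≤ g i → g - Pi.single i 1 ∈ P := by
  obtain ⟨g, ⟨hg1, hg2⟩, hg⟩ := (measure (fun g : Fin n → ℕ => ∑ i, g i)).wf.has_min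
    {g | g ∉ P ∧ g ≤ u} ⟨u, hu, le_rfl⟩
  refine ⟨g, hg1, hg2, ?_⟩
  intro i hi
  by_contra hcon
  have hle : g - Pi.single i 1 ≤ g := tsub_le_self
  refine hg (g - Pi.single i 1) ⟨hcon, hle.trans hg2⟩ ?_
  show ∑ k, (g - Pi.single i 1 : Fin n → ℕ) k < ∑ k, g k
  refine Finset.sum_lt_sum (fun k _ => hle k) ⟨i, Finset.mem_univ _, ?_⟩
  simp only [Pi.sub_apply, Pi.single_eq_same]
  omega

theorem comb {e : ℕ} (P : Finset (Fin (e + 2) → ℕ)) (hP : IsLowerSet (P : Set (Fin (e + 2) → ℕ)))
    (hF : ∀ F F' : Fin (e + 2) → ℕ, (∀ i, 1 ≤ F i) → (∀ i, 1 ≤ F' i) → F ∉ P → F' ∉ P →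
      (∀ i, F - Pi.single i 1 ∈ P) → (∀ i, F' - Pi.single i 1 ∈ P) → F = F') (K : ℕ) :
    K * (P.filter (fun p => ∀ i, p + Pi.single i 1 ∉ P)).card ≤ (e + 2) * (K ^ (e + 1) + P.card) := by
  classical
  rcases Nat.eq_zero_or_pos K with rfl | hK
  · simp
  set M := P.filter (fun p => ∀ i, p + Pi.single i 1 ∉ P) with hM
  have hMP : M ⊆ P := Finset.filter_subset _ _
  have hMmax : ∀ p ∈ M, ∀ i, p + Pi.single i 1 ∉ P := fun p hp => (Finset.mem_filter.mp hp).2
  -- the two families
  let A : Fin (e + 2) → Finset (Fin (e + 2) → ℕ) := fun i => M.filter (fun p => K ≤ p i + 1)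
  let R : Fin (e + 2) → (Fin (e + 2) → ℕ) → Prop := fun j p =>
    (j ≠ 0 ∧ ∃ g, g ∉ P ∧ g ≤ p + Pi.single 0 1 ∧ g j = 0) ∨
    (j = 0 ∧ ∃ g, g ∉ P ∧ (∀ i, 1 ≤ g i) ∧ (∀ i, g - Pi.single i 1 ∈ P) ∧ g 0 = p 0 + 1)
  let B : Fin (e + 2) → Finset (Fin (e + 2) → ℕ) := fun j =>
    M.filter (fun p => (∀ i, p i + 1 < K) ∧ R j p)
  have hcover : M ⊆ (Finset.univ.biUnion A) ∪ (Finset.univ.biUnion B) := by
    intro p hp
    rw [Finset.mem_union, Finset.mem_biUnion, Finset.mem_biUnion]
    by_cases h : ∃ i, K ≤ p i + 1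
    · obtain ⟨i, hi⟩ := h
      exact Or.inl ⟨i, Finset.mem_univ _, Finset.mem_filter.mpr ⟨hp, hi⟩⟩
    · push Not at h
      right
      obtain ⟨g, hg1, hg2, hg3⟩ := comb_min P (p + Pi.single 0 1) (hMmax p hp 0)
      have hg0 : g 0 = p 0 + 1 := by
        have h0 := hg2 0
        simp only [Pi.add_apply, Pi.single_eq_same] at h0
        by_contra hne
        refine hg1 (hP (a := p) ?_ (hMP hp))
        intro k
        by_cases hk : k = 0
        · subst hk
          show g 0 ≤ p 0
          omega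
        · have := hg2 k
          simpa [Pi.single_eq_of_ne hk] using this
      by_cases hfull : ∀ i, 1 ≤ g i
      · refine ⟨0, Finset.mem_univ _, Finset.mem_filter.mpr ⟨hp, h, Or.inr ⟨rfl, g, hg1, hfull, ?_, hg0⟩⟩⟩
        intro i
        exact hg3 i (hfull i)
      · push Not at hfull
        obtain ⟨j, hj⟩ := hfull
        have hj' : g j = 0 := by omega
        have hj0 : j ≠ 0 := by
          rintro rfl
          omega
        exact ⟨j, Finset.mem_univ _, Finset.mem_filter.mpr ⟨hp, h, Or.inl ⟨hj0, g, hg1, hg2, hj'⟩⟩⟩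
  have hA : ∀ i, K * (A i).card ≤ P.card := by
    intro i
    refine comb_col P hP K i (A i) ((Finset.filter_subset _ _).trans hMP) ?_ ?_
    · intro p hp
      exact hMmax p (Finset.mem_filter.mp hp).1
    · intro p hp
      exact (Finset.mem_filter.mp hp).2
  have hB : ∀ j, (B j).card ≤ K ^ e := by
    intro j
    have hsub : ∀ p ∈ B j, p ∈ M := fun p hp => (Finset.mem_filter.mp hp).1
    have hlt : ∀ p ∈ B j, ∀ i, p i < K := fun p hp i => by
      have := (Finset.mem_filter.mp hp).2.1 i
      omega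
    by_cases hj : j = 0
    · subst hj
      have h01 : (0 : Fin (e + 2)) ≠ 1 := by
        intro h
        have := congrArg Fin.val h
        simp at this
      refine comb_two hK (B 0) hlt 0 1 h01 ?_
      intro p hp q hq hpq
      have hp' := (Finset.mem_filter.mp hp).2.2
      have hq' := (Finset.mem_filter.mp hq).2.2
      rcases hp' with ⟨h, _⟩ | ⟨_, g, g1, g2, g3, g4⟩
      · exact absurd rfl h
      rcases hq' with ⟨h, _⟩ | ⟨_, g', g1', g2', g3', g4'⟩
      · exact absurd rfl h
      have hgg := hF g g' g2 g2' g1 g1' g3 g3'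
      have h0 : p 0 = q 0 := by
        rw [hgg] at g4
        omega
      refine comb_eq' hP (hMP (hsub p hp)) (hMP (hsub q hq)) (hMmax p (hsub p hp))
        (hMmax q (hsub q hq)) 1 ?_
      intro k hk
      by_cases hk0 : k = 0
      · subst hk0; exact h0
      · exact hpq k hk0 hk
    · refine comb_two hK (B j) hlt 0 j (Ne.symm hj) ?_
      have key : ∀ p ∈ B j, ∀ q ∈ B j, (∀ k, k ≠ 0 → k ≠ j → p k = q k) → q 0 ≤ p 0 := by
        intro p hp q hq hpq
        have hp' := (Finset.mem_filter.mp hp).2.2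
        rcases hp' with ⟨_, g, g1, g2, g3⟩ | ⟨h, _⟩
        swap
        · exact absurd h hj
        by_contra hcon
        push Not at hcon
        refine g1 (hP (a := q) ?_ (hMP (hsub q hq)))
        intro k
        by_cases hk : k = 0
        · subst hk
          have := g2 0
          simp only [Pi.add_apply, Pi.single_eq_same] at this
          show g 0 ≤ q 0
          omega
        · by_cases hkj : k = j
          · subst hkj
            show g k ≤ q k
            omega
          · have := g2 k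
            simp only [Pi.add_apply, Pi.single_eq_of_ne hk, add_zero] at this
            rw [hpq k hk hkj] at this
            exact this
      intro p hp q hq hpq
      have h0 : p 0 = q 0 := le_antisymm
        (key q hq p hp (fun k h1 h2 => (hpq k h1 h2).symm)) (key p hp q hq hpq)
      refine comb_eq' hP (hMP (hsub p hp)) (hMP (hsub q hq)) (hMmax p (hsub p hp))
        (hMmax q (hsub q hq)) j ?_
      intro k hk
      by_cases hk0 : k = 0
      · subst hk0; exact h0
      · exact hpq k hk0 hk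
  have h1 : M.card ≤ ∑ i, (A i).card + ∑ j, (B j).card := by
    calc M.card ≤ ((Finset.univ.biUnion A) ∪ (Finset.univ.biUnion B)).card := Finset.card_le_card hcover
      _ ≤ (Finset.univ.biUnion A).card + (Finset.univ.biUnion B).card := Finset.card_union_le _ _
      _ ≤ _ := Nat.add_le_add Finset.card_biUnion_le Finset.card_biUnion_le
  have h2 : K * ∑ i, (A i).card ≤ (e + 2) * P.card := by
    rw [Finset.mul_sum]
    calc ∑ i, K * (A i).card ≤ ∑ _i : Fin (e + 2), P.card := Finset.sum_le_sum (fun i _ => hA i)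
      _ = (e + 2) * P.card := by simp
  have h3 : ∑ j, (B j).card ≤ (e + 2) * K ^ e := by
    calc ∑ j, (B j).card ≤ ∑ _j : Fin (e + 2), K ^ e := Finset.sum_le_sum (fun j _ => hB j)
      _ = (e + 2) * K ^ e := by simp
  calc K * M.card ≤ K * (∑ i, (A i).card + ∑ j, (B j).card) := Nat.mul_le_mul_left _ h1
    _ = K * ∑ i, (A i).card + K * ∑ j, (B j).card := by ring
    _ ≤ (e + 2) * P.card + K * ((e + 2) * K ^ e) := Nat.add_le_add h2 (Nat.mul_le_mul_left _ h3)
    _ = (e + 2) * (K ^ (e + 1) + P.card) := by ring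

end Pool.Agent.TG
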