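import Pool.Agent.Hhelper4.NumSemigroup

/-!
# A criterion for lower bounds (any number of generators)

`cl p = ∑ i, p i • a i`, `wt p = ∑ i, p i * W i`, `W i ≡ a i (mod m)`, `W i > m`.  Put
`w c` = least weight of a `p` with `cl p = c` (`Nat.find`/`sInf`; nonempty by `surj`).

* `IsApery m w`: `w 0 = 0` (`p = 0`), `(w c : ZMod m) = c` (`(wt p : ZMod m) = cl p`), subadditive (add
  the lightest `p`s), `m < w c` for `c ≠ 0` (`p ≠ 0`, so `wt p ≥ W i` for some `i`).
* By `hatom`, `w (a i) = W i` and `e_i` is the only `p` of class `a i` and weight `≤ W i`; `a i ≠ 0` (`p = 0` would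
  have weight `0 < W i`), and `a` is injective.  `a i` is an atom: if `a i = y + z`, `y, z ≠ 0`,
  `w y + w z = w (a i)`, take lightest `p`, `q` for `y`, `z`: `p + q` has class `a i` and weight `W i`, so
  `p + q = e_i`, so `p = 0` or `q = 0`, contradiction.  Conversely every atom is some `a i`: let `c` be an
  atom, `p` a lightest one of class `c`, `p ≠ 0`, `p = e_i + p'`; if `p' ≠ 0`: `cl p' ≠ 0` (else `e_i` is
  lighter than `p`), `a i ≠ 0` and `w (a i) + w (cl p') ≤ W i + wt p' = w c ≤ w (a i) + w (cl p')`,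
  contradiction.  So there are exactly `e` atoms and `edim = e + 1` (`edim_sg`).
* For `p ∈ S`, `cl p` is `IsMax`: let `y ≠ 0` with `w (cl p + y) = w (cl p) + w y`; `w (cl p) = wt p` by `hS`;
  `q` lightest of class `y`, `q ≠ 0`, `q = e_i + q'`.  By `hmax` there is `r` with `cl r = cl (p + e_i)`
  and `wt r < wt (p + e_i)`, so `w (cl p + y) ≤ wt (r + q') < wt (p + e_i) + wt q' = w (cl p) + w y`.
* `cl` is injective on `S` (`hS`), so `type ≥ #S` (`type_sg`).
-/

namespace Pool.Agent.TG

open Pool.Agent.Hhelper4.NS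

theorem low_criterion {e m : ℕ} [NeZero m] (a : Fin e → ZMod m) (W : Fin e → ℕ)
    (hW : ∀ i, (W i : ZMod m) = a i) (hlt : ∀ i, m < W i)
    (surj : ∀ c : ZMod m, ∃ p : Fin e → ℕ, ∑ j, p j • a j = c)
    (hatom : ∀ i, ∀ q : Fin e → ℕ, ∑ j, q j • a j = a i → q ≠ Pi.single i 1 → W i < ∑ j, q j * W j)
    (S : Finset (Fin e → ℕ))
    (hS : ∀ p ∈ S, ∀ q : Fin e → ℕ, ∑ j, q j • a j = ∑ j, p j • a j → q ≠ p →
      ∑ j, p j * W j < ∑ j, q j * W j)
    (hmax : ∀ p ∈ S, ∀ i, ∃ q : Fin e → ℕ, ∑ j, q j • a j = (∑ j, p j • a j) + a i ∧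
      ∑ j, q j * W j < (∑ j, p j * W j) + W i) :
    ∃ Γ : AddSubmonoid ℕ, IsNumerical Γ ∧ edim Γ = e + 1 ∧ mult Γ = m ∧ S.card ≤ type Γ := by
  classical
  obtain ⟨cl, hcl⟩ : ∃ cl : (Fin e → ℕ) → ZMod m, ∀ p, cl p = ∑ j, p j • a j :=
    ⟨fun p => ∑ j, p j • a j, fun _ => rfl⟩
  obtain ⟨wt, hwt⟩ : ∃ wt : (Fin e → ℕ) → ℕ, ∀ p, wt p = ∑ j, p j * W j :=
    ⟨fun p => ∑ j, p j * W j, fun _ => rfl⟩
  simp only [← hcl, ← hwt] at surj hatom hS hmax
  have cl_add : ∀ p q, cl (p + q) = cl p + cl q := fun p q => by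
    rw [hcl, hcl, hcl, ← Finset.sum_add_distrib]
    exact Finset.sum_congr rfl fun j _ => add_smul _ _ _
  have wt_add : ∀ p q, wt (p + q) = wt p + wt q := fun p q => by
    rw [hwt, hwt, hwt, ← Finset.sum_add_distrib]
    exact Finset.sum_congr rfl fun j _ => add_mul _ _ _
  have cl_zero : cl 0 = 0 := by rw [hcl]; simp
  have wt_zero : wt 0 = 0 := by rw [hwt]; simp
  have cl_single : ∀ i, cl (Pi.single i 1) = a i := fun i => by
    rw [hcl, Finset.sum_eq_single i]
    · simp
    · intro j _ hj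
      rw [Pi.single_eq_of_ne hj, zero_smul]
    · simp
  have wt_single : ∀ i, wt (Pi.single i 1) = W i := fun i => by
    rw [hwt, Finset.sum_eq_single i]
    · simp
    · intro j _ hj
      rw [Pi.single_eq_of_ne hj, zero_mul]
    · simp
  have hcast : ∀ p, (wt p : ZMod m) = cl p := fun p => by
    rw [hwt, hcl, Nat.cast_sum]
    refine Finset.sum_congr rfl fun j _ => ?_
    rw [Nat.cast_mul, hW, nsmul_eq_mul]
  have hsplit : ∀ p : Fin e → ℕ, p ≠ 0 → ∃ (i : Fin e) (q : Fin e → ℕ),
      p = (Pi.single i 1 : Fin e → ℕ) + q := fun p hp => by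
    obtain ⟨i, hi⟩ := Function.ne_iff.1 hp
    have hi' : p i ≠ 0 := hi
    refine ⟨i, fun j => if j = i then p j - 1 else p j, ?_⟩
    funext j
    show p j = (Pi.single i 1 : Fin e → ℕ) j + (if j = i then p j - 1 else p j)
    by_cases hj : j = i
    · subst hj
      simp only [Pi.single_eq_same, if_true]
      omega
    · rw [Pi.single_eq_of_ne hj]
      simp [hj]
  have hpos : ∀ p : Fin e → ℕ, p ≠ 0 → m < wt p := fun p hp => by
    obtain ⟨i, q, rfl⟩ := hsplit p hp
    rw [wt_add, wt_single]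
    have := hlt i
    omega
  -- least weights
  have hex : ∀ c, ∃ n, ∃ p, cl p = c ∧ wt p = n := fun c => by
    obtain ⟨p, hp⟩ := surj c
    exact ⟨wt p, p, hp, rfl⟩
  obtain ⟨w, hw1, hw2⟩ : ∃ w : ZMod m → ℕ, (∀ c, ∃ p, cl p = c ∧ wt p = w c) ∧
      ∀ p, w (cl p) ≤ wt p :=
    ⟨fun c => Nat.find (hex c), fun c => Nat.find_spec (hex c),
      fun p => Nat.find_min' (hex (cl p)) ⟨p, rfl, rfl⟩⟩
  choose best hb1 hb2 using hw1
  have hbne : ∀ c, c ≠ 0 → best c ≠ 0 := fun c hc h0 => by
    have := hb1 c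
    rw [h0, cl_zero] at this
    exact hc this.symm
  have hA : IsApery m w := by
    refine ⟨?_, ?_, ?_, ?_⟩
    · have := hw2 0
      rw [cl_zero, wt_zero] at this
      omega
    · intro x
      rw [← hb2, hcast, hb1]
    · intro x y
      have := hw2 (best x + best y)
      rwa [cl_add, hb1, hb1, wt_add, hb2, hb2] at this
    · intro x hx
      rw [← hb2]
      exact hpos _ (hbne x hx)
  have huniq : ∀ i q, cl q = a i → wt q ≤ W i → q = Pi.single i 1 := fun i q h1 h2 => by
    by_contra hne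
    have := hatom i q h1 hne
    omega
  have hwa : ∀ i, w (a i) = W i := fun i => by
    have h1 := hw2 (Pi.single i 1)
    rw [cl_single, wt_single] at h1
    have h2 := huniq i (best (a i)) (hb1 _) (by rw [hb2]; exact h1)
    rw [← hb2, h2, wt_single]
  have ha0 : ∀ i, a i ≠ 0 := fun i h0 => by
    have h1 := huniq i 0 (by rw [cl_zero, h0]) (by rw [wt_zero]; exact Nat.zero_le _)
    have := congrFun h1 i
    simp at this
  have hinj : Function.Injective a := by
    intro i j hij
    by_contra hne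
    have h1 : (Pi.single j 1 : Fin e → ℕ) ≠ Pi.single i 1 := fun h => by
      have := congrFun h j
      rw [Pi.single_eq_same, Pi.single_eq_of_ne (fun h => hne h.symm)] at this
      exact one_ne_zero this
    have h2 := hatom i (Pi.single j 1) (by rw [cl_single, hij]) h1
    have h3 := hatom j (Pi.single i 1) (by rw [cl_single, hij]) h1.symm
    rw [wt_single] at h2 h3
    omega
  have hsum : ∀ p : Fin e → ℕ, p ≠ 0 → 1 ≤ ∑ j, p j := fun p hp => by
    obtain ⟨i, hi⟩ := Function.ne_iff.1 hp
    have hi' : p i ≠ 0 := hi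
    have := Finset.single_le_sum (f := p) (fun _ _ => Nat.zero_le _) (Finset.mem_univ i)
    omega
  have hatomI : ∀ i, IsAtom w (a i) := fun i => by
    refine ⟨ha0 i, fun y z hy hz hyz heq => ?_⟩
    have h1 := huniq i (best y + best z) (by rw [cl_add, hb1, hb1, hyz])
      (by rw [wt_add, hb2, hb2, heq, hwa])
    have h2 : ∑ j, (best y + best z) j = 1 := by
      rw [h1, Finset.sum_eq_single i]
      · simp
      · intro j _ hj
        rw [Pi.single_eq_of_ne hj]
      · simp
    simp only [Pi.add_apply, Finset.sum_add_distrib] at h2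
    have h3 := hsum _ (hbne y hy)
    have h4 := hsum _ (hbne z hz)
    omega
  have hatomE : ∀ c, IsAtom w c → ∃ i, a i = c := fun c hc => by
    obtain ⟨i, p', hp⟩ := hsplit (best c) (hbne c hc.1)
    refine ⟨i, ?_⟩
    have hcc : a i + cl p' = c := by
      rw [← hb1 c, hp, cl_add, cl_single]
    have hww : W i + wt p' = w c := by
      rw [← hb2 c, hp, wt_add, wt_single]
    by_contra hne
    have h0 : cl p' ≠ 0 := fun h0 => by
      rw [h0, add_zero] at hcc
      exact hne hcc
    have h1 := hw2 p'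
    have h2 := hA.add (a i) (cl p')
    rw [hcc, hwa] at h2
    refine hc.2 (a i) (cl p') (ha0 i) h0 hcc ?_
    rw [hwa]
    omega
  refine ⟨sg w hA, sg_numerical hA, ?_, sg_mult hA, ?_⟩
  · rw [edim_sg hA]
    have : (Finset.univ.filter fun x : ZMod m => IsAtom w x) = Finset.univ.image a := by
      ext c
      simp only [Finset.mem_filter, Finset.mem_univ, true_and, Finset.mem_image]
      constructor
      · exact hatomE c
      · rintro ⟨i, rfl⟩
        exact hatomI i
    rw [this, Finset.card_image_of_injective _ hinj, Finset.card_univ, Fintype.card_fin]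
  · rw [type_sg hA]
    refine Finset.card_le_card_of_injOn cl ?_ ?_
    · intro p hp
      have hp' : p ∈ S := hp
      have hwp : w (cl p) = wt p := by
        by_contra hne
        have h1 := hw2 p
        have h2 : best (cl p) ≠ p := fun h => hne (by rw [← hb2, h])
        have h3 := hS p hp' (best (cl p)) (hb1 _) h2
        rw [hb2] at h3
        omega
      simp only [Finset.coe_filter, Finset.mem_univ, true_and, Set.mem_setOf_eq]
      intro y hy heq
      obtain ⟨i, q', hq⟩ := hsplit (best y) (hbne y hy)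
      obtain ⟨r, hr1, hr2⟩ := hmax p hp' i
      have hcy : a i + cl q' = y := by
        rw [← hb1 y, hq, cl_add, cl_single]
      have hwy : W i + wt q' = w y := by
        rw [← hb2 y, hq, wt_add, wt_single]
      have h1 := hw2 (r + q')
      rw [cl_add, hr1, add_assoc, hcy, heq, wt_add] at h1
      omega
    · intro p hp q hq hpq
      by_contra hne
      have h1 := hS p hp q hpq.symm (fun h => hne h.symm)
      have h2 := hS q hq p hpq hne
      omega

end Pool.Agent.TG
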