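import Pool.Agent.TG.Crit

/-!
# A second criterion for lower bounds

The same as `low_criterion` (see `Crit.lean`, copy that proof), but the elements of `S` need only be lightest
in their classes (not uniquely), with different classes for different elements of `S` (`hinj`).
The only changes: `w (cl p) = wt p` for `p ∈ S` follows from `hS` directly, and `cl` is injective on `S` by `hinj`.
-/

namespace Pool.Agent.TG

open Pool.Agent.Hhelper4.NS

theorem low_criterion2 {e m : ℕ} [NeZero m] (a : Fin e → ZMod m) (W : Fin e → ℕ)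
    (hW : ∀ i, (W i : ZMod m) = a i) (hlt : ∀ i, m < W i)
    (surj : ∀ c : ZMod m, ∃ p : Fin e → ℕ, ∑ j, p j • a j = c)
    (hatom : ∀ i, ∀ q : Fin e → ℕ, ∑ j, q j • a j = a i → q ≠ Pi.single i 1 → W i < ∑ j, q j * W j)
    (S : Finset (Fin e → ℕ))
    (hS : ∀ p ∈ S, ∀ q : Fin e → ℕ, ∑ j, q j • a j = ∑ j, p j • a j →
      ∑ j, p j * W j ≤ ∑ j, q j * W j)
    (hinj : ∀ p ∈ S, ∀ q ∈ S, ∑ j, q j • a j = ∑ j, p j • a j → q = p)
    (hmax : ∀ p ∈ S, ∀ i, ∃ q : Fin e → ℕ, ∑ j, q j • a j = (∑ j, p j • a j) + a i ∧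
      ∑ j, q j * W j < (∑ j, p j * W j) + W i) :
    ∃ Γ : AddSubmonoid ℕ, IsNumerical Γ ∧ edim Γ = e + 1 ∧ mult Γ = m ∧ S.card ≤ type Γ := by
  classical
  obtain ⟨cl, hcl⟩ : ∃ cl : (Fin e → ℕ) → ZMod m, ∀ p, cl p = ∑ j, p j • a j :=
    ⟨fun p => ∑ j, p j • a j, fun _ => rfl⟩
  obtain ⟨wt, hwt⟩ : ∃ wt : (Fin e → ℕ) → ℕ, ∀ p, wt p = ∑ j, p j * W j :=
    ⟨fun p => ∑ j, p j * W j, fun _ => rfl⟩
  simp only [← hcl, ← hwt] at surj hatom hS hinj hmax
  have cl_add : ∀ p q, cl (p + q) = cl p + cl q := fun p q => by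
    rw [hcl, hcl, hcl, ← Finset.sum_add_distrib]
    exact Finset.sum_congr rfl fun j _ => add_smul _ _ _
  have wt_add : ∀ p q, wt (p + q) = wt p + wt q := fun p q => by
    rw [hwt, hwt, hwt, ← Finset.sum_add_distrib]
    exact Finset.sum_congr rfl fun j _ => add_mul _ _ _
  have cl_zero : cl 0 = 0 := by rw [hcl]; simp
  have wt_zero : wt 0 = 0 := by rw [hwt]; simp
  have cl_single : ∀ i, cl (Pi.single i 1) = a i := fun i => by
    rw [hcl, Finset.sum_eq_single i]
    · simp
    · intro j _ hj
      rw [Pi.single_eq_of_ne hj, zero_smul]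
    · simp
  have wt_single : ∀ i, wt (Pi.single i 1) = W i := fun i => by
    rw [hwt, Finset.sum_eq_single i]
    · simp
    · intro j _ hj
      rw [Pi.single_eq_of_ne hj, zero_mul]
    · simp
  have hcast : ∀ p, (wt p : ZMod m) = cl p := fun p => by
    rw [hwt, hcl, Nat.cast_sum]
    refine Finset.sum_congr rfl fun j _ => ?_
    rw [Nat.cast_mul, hW, nsmul_eq_mul]
  have hsplit : ∀ p : Fin e → ℕ, p ≠ 0 → ∃ (i : Fin e) (q : Fin e → ℕ),
      p = (Pi.single i 1 : Fin e → ℕ) + q := fun p hp => by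
    obtain ⟨i, hi⟩ := Function.ne_iff.1 hp
    have hi' : p i ≠ 0 := hi
    refine ⟨i, fun j => if j = i then p j - 1 else p j, ?_⟩
    funext j
    show p j = (Pi.single i 1 : Fin e → ℕ) j + (if j = i then p j - 1 else p j)
    by_cases hj : j = i
    · subst hj
      simp only [Pi.single_eq_same, if_true]
      omega
    · rw [Pi.single_eq_of_ne hj]
      simp [hj]
  have hpos : ∀ p : Fin e → ℕ, p ≠ 0 → m < wt p := fun p hp => by
    obtain ⟨i, q, rfl⟩ := hsplit p hp
    rw [wt_add, wt_single]
    have := hlt i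
    omega
  -- least weights
  have hex : ∀ c, ∃ n, ∃ p, cl p = c ∧ wt p = n := fun c => by
    obtain ⟨p, hp⟩ := surj c
    exact ⟨wt p, p, hp, rfl⟩
  obtain ⟨w, hw1, hw2⟩ : ∃ w : ZMod m → ℕ, (∀ c, ∃ p, cl p = c ∧ wt p = w c) ∧
      ∀ p, w (cl p) ≤ wt p :=
    ⟨fun c => Nat.find (hex c), fun c => Nat.find_spec (hex c),
      fun p => Nat.find_min' (hex (cl p)) ⟨p, rfl, rfl⟩⟩
  choose best hb1 hb2 using hw1
  have hbne : ∀ c, c ≠ 0 → best c ≠ 0 := fun c hc h0 => by
    have := hb1 c
    rw [h0, cl_zero] at this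
    exact hc this.symm
  have hA : IsApery m w := by
    refine ⟨?_, ?_, ?_, ?_⟩
    · have := hw2 0
      rw [cl_zero, wt_zero] at this
      omega
    · intro x
      rw [← hb2, hcast, hb1]
    · intro x y
      have := hw2 (best x + best y)
      rwa [cl_add, hb1, hb1, wt_add, hb2, hb2] at this
    · intro x hx
      rw [← hb2]
      exact hpos _ (hbne x hx)
  have huniq : ∀ i q, cl q = a i → wt q ≤ W i → q = Pi.single i 1 := fun i q h1 h2 => by
    by_contra hne
    have := hatom i q h1 hne
    omega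
  have hwa : ∀ i, w (a i) = W i := fun i => by
    have h1 := hw2 (Pi.single i 1)
    rw [cl_single, wt_single] at h1
    have h2 := huniq i (best (a i)) (hb1 _) (by rw [hb2]; exact h1)
    rw [← hb2, h2, wt_single]
  have ha0 : ∀ i, a i ≠ 0 := fun i h0 => by
    have h1 := huniq i 0 (by rw [cl_zero, h0]) (by rw [wt_zero]; exact Nat.zero_le _)
    have := congrFun h1 i
    simp at this
  have hainj : Function.Injective a := by
    intro i j hij
    by_contra hne
    have h1 : (Pi.single j 1 : Fin e → ℕ) ≠ Pi.single i 1 := fun h => by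
      have := congrFun h j
      rw [Pi.single_eq_same, Pi.single_eq_of_ne (fun h => hne h.symm)] at this
      exact one_ne_zero this
    have h2 := hatom i (Pi.single j 1) (by rw [cl_single, hij]) h1
    have h3 := hatom j (Pi.single i 1) (by rw [cl_single, hij]) h1.symm
    rw [wt_single] at h2 h3
    omega
  have hsum : ∀ p : Fin e → ℕ, p ≠ 0 → 1 ≤ ∑ j, p j := fun p hp => by
    obtain ⟨i, hi⟩ := Function.ne_iff.1 hp
    have hi' : p i ≠ 0 := hi
    have := Finset.single_le_sum (f := p) (fun _ _ => Nat.zero_le _) (Finset.mem_univ i)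
    omega
  have hatomI : ∀ i, IsAtom w (a i) := fun i => by
    refine ⟨ha0 i, fun y z hy hz hyz heq => ?_⟩
    have h1 := huniq i (best y + best z) (by rw [cl_add, hb1, hb1, hyz])
      (by rw [wt_add, hb2, hb2, heq, hwa])
    have h2 : ∑ j, (best y + best z) j = 1 := by
      rw [h1, Finset.sum_eq_single i]
      · simp
      · intro j _ hj
        rw [Pi.single_eq_of_ne hj]
      · simp
    simp only [Pi.add_apply, Finset.sum_add_distrib] at h2
    have h3 := hsum _ (hbne y hy)
    have h4 := hsum _ (hbne z hz)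
    omega
  have hatomE : ∀ c, IsAtom w c → ∃ i, a i = c := fun c hc => by
    obtain ⟨i, p', hp⟩ := hsplit (best c) (hbne c hc.1)
    refine ⟨i, ?_⟩
    have hcc : a i + cl p' = c := by
      rw [← hb1 c, hp, cl_add, cl_single]
    have hww : W i + wt p' = w c := by
      rw [← hb2 c, hp, wt_add, wt_single]
    by_contra hne
    have h0 : cl p' ≠ 0 := fun h0 => by
      rw [h0, add_zero] at hcc
      exact hne hcc
    have h1 := hw2 p'
    have h2 := hA.add (a i) (cl p')
    rw [hcc, hwa] at h2
    refine hc.2 (a i) (cl p') (ha0 i) h0 hcc ?_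
    rw [hwa]
    omega
  refine ⟨sg w hA, sg_numerical hA, ?_, sg_mult hA, ?_⟩
  · rw [edim_sg hA]
    have : (Finset.univ.filter fun x : ZMod m => IsAtom w x) = Finset.univ.image a := by
      ext c
      simp only [Finset.mem_filter, Finset.mem_univ, true_and, Finset.mem_image]
      constructor
      · exact hatomE c
      · rintro ⟨i, rfl⟩
        exact hatomI i
    rw [this, Finset.card_image_of_injective _ hainj, Finset.card_univ, Fintype.card_fin]
  · rw [type_sg hA]
    refine Finset.card_le_card_of_injOn cl ?_ ?_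
    · intro p hp
      have hp' : p ∈ S := hp
      have hwp : w (cl p) = wt p := by
        have h1 := hw2 p
        have h3 := hS p hp' (best (cl p)) (hb1 _)
        rw [hb2] at h3
        omega
      simp only [Finset.coe_filter, Finset.mem_univ, true_and, Set.mem_ofPred_eq]
      intro y hy heq
      obtain ⟨i, q', hq⟩ := hsplit (best y) (hbne y hy)
      obtain ⟨r, hr1, hr2⟩ := hmax p hp' i
      have hcy : a i + cl q' = y := by
        rw [← hb1 y, hq, cl_add, cl_single]
      have hwy : W i + wt q' = w y := by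
        rw [← hb2 y, hq, wt_add, wt_single]
      have h1 := hw2 (r + q')
      rw [cl_add, hr1, add_assoc, hcy, heq, wt_add] at h1
      omega
    · intro p hp q hq hpq
      exact (hinj p hp q hq hpq.symm).symm

end Pool.Agent.TG
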