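import Mathlib

/-!
# Digits

If all `z i < K` and `∑ K^i z i = ∑ K^i z' i`, then `z' = z` or the digit sum of `z'` is at least
`K - 1` larger than that of `z`.

Proof by induction on `n` (`Fin.sum_univ_succ`).  `n = 0` trivial.  `n + 1`: `z'_0 ≡ z_0 (mod K)` and
`z_0 < K`, so `z'_0 = z_0 + K c`, and `∑_{i ≥ 1} K^(i-1) z_i = c + ∑_{i≥1} K^(i-1) z'_i`.
If `n = 0`, then `c = 0` and `z' = z`.  If `n ≥ 1` apply the induction hypothesis to `z_{≥1}` and
`z'' = z'_{≥1}` with `c` added to its first entry: `∑ z' = z_0 + K c + (∑ z'' - c)`.  If `z'' = z_{≥1}`: then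
either `c = 0` (and `z' = z`) or `∑ z' = ∑ z + (K-1) c ≥ ∑ z + K - 1`.  Otherwise
`∑ z'' ≥ ∑ z_{≥1} + K - 1` and `∑ z' ≥ z_0 + ∑ z''`.
-/

namespace Pool.Agent.TG

theorem digits {n K : ℕ} (hK : 1 ≤ K) (z z' : Fin n → ℕ) (hz : ∀ i, z i < K)
    (h : ∑ i : Fin n, K ^ (i : ℕ) * z i = ∑ i : Fin n, K ^ (i : ℕ) * z' i) :
    z' = z ∨ (∑ i, z i) + (K - 1) ≤ ∑ i, z' i := by
  induction n with
  | zero =>
    left
    exact Subsingleton.elim _ _
  | succ n ih =>
    have hs : ∀ w : Fin (n + 1) → ℕ, ∑ i : Fin (n + 1), K ^ (i : ℕ) * w i =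
        w 0 + K * ∑ i : Fin n, K ^ (i : ℕ) * w i.succ := by
      intro w
      rw [Fin.sum_univ_succ, Finset.mul_sum]
      simp only [Fin.val_zero, pow_zero, one_mul, Fin.val_succ]
      congr 1
      refine Finset.sum_congr rfl fun i _ => ?_
      ring
    rw [hs, hs] at h
    have hz0 := hz 0
    obtain ⟨c, hc⟩ : ∃ c, z' 0 = z 0 + K * c := by
      refine ⟨z' 0 / K, ?_⟩
      have h1 : z' 0 % K = z 0 := by
        have h2 := congrArg (· % K) h
        simp only [Nat.add_mul_mod_self_left] at h2
        rw [Nat.mod_eq_of_lt hz0] at h2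
        exact h2.symm
      have := Nat.mod_add_div (z' 0) K
      rw [h1] at this
      exact this.symm
    have hA : ∑ i : Fin n, K ^ (i : ℕ) * z i.succ =
        c + ∑ i : Fin n, K ^ (i : ℕ) * z' i.succ := by
      rw [hc] at h
      have h3 : K * (∑ i : Fin n, K ^ (i : ℕ) * z i.succ) =
          K * (c + ∑ i : Fin n, K ^ (i : ℕ) * z' i.succ) := by
        rw [mul_add]
        omega
      exact Nat.eq_of_mul_eq_mul_left (by omega) h3
    cases n with
    | zero =>
      simp only [Finset.univ_eq_empty, Finset.sum_empty] at hA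
      left
      funext i
      have : i = 0 := Fin.ext (by omega)
      subst this
      rw [hc, show c = 0 by omega]
      simp
    | succ m =>
      have hz2 : ∑ i : Fin (m + 1), K ^ (i : ℕ) * z i.succ =
          ∑ i : Fin (m + 1), K ^ (i : ℕ) * (z' i.succ + if i = 0 then c else 0) := by
        rw [hA]
        simp only [mul_add, Finset.sum_add_distrib]
        rw [add_comm]
        congr 1
        rw [Fin.sum_univ_succ]
        simp [Fin.succ_ne_zero]
      have hsum : ∑ i : Fin (m + 1), (z' i.succ + if i = 0 then c else 0) =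
          (∑ i : Fin (m + 1), z' i.succ) + c := by
        rw [Finset.sum_add_distrib]
        congr 1
        rw [Fin.sum_univ_succ]
        simp [Fin.succ_ne_zero]
      have e1 : ∑ i : Fin (m + 1 + 1), z i = z 0 + ∑ i : Fin (m + 1), z i.succ :=
        Fin.sum_univ_succ _
      have e2 : ∑ i : Fin (m + 1 + 1), z' i = z' 0 + ∑ i : Fin (m + 1), z' i.succ :=
        Fin.sum_univ_succ _
      have hKc : c ≤ K * c := Nat.le_mul_of_pos_left c (by omega)
      rcases ih (fun i => z i.succ) (fun i => z' i.succ + if i = 0 then c else 0)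
        (fun i => hz _) hz2 with h4 | h4
      · have h5 : (∑ i : Fin (m + 1), z' i.succ) + c = ∑ i : Fin (m + 1), z i.succ := by
          rw [← hsum]
          exact Finset.sum_congr rfl fun i _ => congrFun h4 i
        rcases Nat.eq_zero_or_pos c with h0 | h0
        · left
          funext i
          refine Fin.cases ?_ (fun j => ?_) i
          · rw [hc, h0]
            simp
          · have := congrFun h4 j
            simp only [h0, ite_self, add_zero] at this
            exact this
        · right
          rw [e1, e2, hc, ← h5]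
          obtain ⟨d, rfl⟩ : ∃ d, c = d + 1 := ⟨c - 1, by omega⟩
          obtain ⟨L, rfl⟩ : ∃ L, K = L + 1 := ⟨K - 1, by omega⟩
          have e3 : (L + 1) * (d + 1) = L * d + L + d + 1 := by ring
          rw [e3]
          have := Nat.zero_le (L * d)
          omega
      · right
        rw [hsum] at h4
        rw [e1, e2, hc]
        omega

end Pool.Agent.TG
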