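import Mathlib

/-!
# At most one full-support minimal generator

`a : Fin e → ZMod m`, class of `p : Fin e → ℕ`: `∑ i, p i • a i`.  `P` is a finite lower set which
contains exactly one representative of each class.

Proof of `full_unique`.  For a full-support `F ∉ P` with all `F - e_i ∈ P` let `q ∈ P` be the
representative of its class.  If `q_i ≥ 1`, then `q - e_i ∈ P` and `F - e_i ∈ P` have the same class,
so they are equal, so `F = q ∈ P`, contradiction.  So `q = 0` and the class of `F` is `0`.  The same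
for `F'`.  Let `u = F' - F`, `v = F - F'` (truncated), `n = F ⊓ F'`: `F' = n + u`, `F = n + v`; so `u` and `v`
have the same class.  `u ≤ F' - e_i` (as `u_i ≤ F'_i - 1` because `F_i ≥ 1`) for any `i`, so `u ∈ P`;
likewise `v ∈ P`; so `u = v`, and as `u_i = 0` or `v_i = 0` for each `i`, `u = v = 0` and `F = F'`.
(`e = 0`: `F = F'` trivially.)
-/

namespace Pool.Agent.TG

private theorem cl_add {e m : ℕ} (a : Fin e → ZMod m) (p q : Fin e → ℕ) :
    ∑ i, (p + q) i • a i = ∑ i, p i • a i + ∑ i, q i • a i := by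
  rw [← Finset.sum_add_distrib]
  refine Finset.sum_congr rfl fun i _ => ?_
  rw [Pi.add_apply, add_smul]

private theorem sub_single_add {e : ℕ} {F : Fin e → ℕ} {i : Fin e} (h : 1 ≤ F i) :
    (F - Pi.single i 1) + Pi.single i 1 = F := by
  funext j
  rw [Pi.add_apply, Pi.sub_apply]
  by_cases hj : j = i
  · subst hj
    rw [Pi.single_eq_same]
    omega
  · rw [Pi.single_eq_of_ne hj]
    omega

private theorem cl_zero {e m : ℕ} (a : Fin e → ZMod m) (P : Finset (Fin e → ℕ))
    (hP : IsLowerSet (P : Set (Fin e → ℕ)))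
    (inj : ∀ p ∈ P, ∀ q ∈ P, ∑ i, p i • a i = ∑ i, q i • a i → p = q)
    (surj : ∀ c : ZMod m, ∃ p ∈ P, ∑ i, p i • a i = c) {F : Fin e → ℕ} (h1 : ∀ i, 1 ≤ F i)
    (hF : F ∉ P) (h2 : ∀ i, F - Pi.single i 1 ∈ P) : ∑ i, F i • a i = 0 := by
  obtain ⟨q, hq, hqc⟩ := surj (∑ i, F i • a i)
  by_cases hq0 : ∃ i, 1 ≤ q i
  · exfalso
    obtain ⟨i, hi⟩ := hq0
    have h3 : q - Pi.single i 1 ∈ P := hP (fun j => Nat.sub_le _ _) hq
    have h4 : ∑ j, (F - Pi.single i 1 : Fin e → ℕ) j • a j =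
        ∑ j, (q - Pi.single i 1 : Fin e → ℕ) j • a j := by
      have h5 := cl_add a (F - Pi.single i 1) (Pi.single i 1)
      have h6 := cl_add a (q - Pi.single i 1) (Pi.single i 1)
      rw [sub_single_add (h1 i)] at h5
      rw [sub_single_add hi] at h6
      rw [h5, h6] at hqc
      exact (add_right_cancel hqc).symm
    have h7 := inj _ (h2 i) _ h3 h4
    apply hF
    rw [← sub_single_add (h1 i), h7, sub_single_add hi]
    exact hq
  · push Not at hq0
    rw [← hqc]
    refine Finset.sum_eq_zero fun i _ => ?_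
    have h8 : q i = 0 := by have := hq0 i; omega
    rw [h8, zero_smul]

theorem full_unique {e m : ℕ} (a : Fin e → ZMod m) (P : Finset (Fin e → ℕ))
    (hP : IsLowerSet (P : Set (Fin e → ℕ)))
    (inj : ∀ p ∈ P, ∀ q ∈ P, ∑ i, p i • a i = ∑ i, q i • a i → p = q)
    (surj : ∀ c : ZMod m, ∃ p ∈ P, ∑ i, p i • a i = c) :
    ∀ F F' : Fin e → ℕ, (∀ i, 1 ≤ F i) → (∀ i, 1 ≤ F' i) → F ∉ P → F' ∉ P →
      (∀ i, F - Pi.single i 1 ∈ P) → (∀ i, F' - Pi.single i 1 ∈ P) → F = F' := by
  intro F F' hF hF' hFP hFP' hs hs'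
  rcases isEmpty_or_nonempty (Fin e) with he | ⟨⟨i₀⟩⟩
  · exact funext fun i => (he.false i).elim
  have hc := cl_zero a P hP inj surj hF hFP hs
  have hc' := cl_zero a P hP inj surj hF' hFP' hs'
  have hle : ∀ A B : Fin e → ℕ, (∀ i, 1 ≤ A i) → B - Pi.single i₀ 1 ∈ P → B - A ∈ P := by
    intro A B hA hB
    refine hP ?_ hB
    intro j
    show B j - A j ≤ B j - (Pi.single i₀ 1 : Fin e → ℕ) j
    have h1 := hA j
    by_cases hj : j = i₀
    · subst hj
      rw [Pi.single_eq_same]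
      omega
    · rw [Pi.single_eq_of_ne hj]
      omega
  have hu : F' - F ∈ P := hle F F' hF (hs' i₀)
  have hv : F - F' ∈ P := hle F' F hF' (hs i₀)
  have e1 : (F ⊓ F') + (F' - F) = F' := by
    funext j
    rw [Pi.add_apply, Pi.sub_apply, Pi.inf_apply]
    omega
  have e2 : (F ⊓ F') + (F - F') = F := by
    funext j
    rw [Pi.add_apply, Pi.sub_apply, Pi.inf_apply]
    omega
  have h3 := cl_add a (F ⊓ F') (F' - F)
  have h4 := cl_add a (F ⊓ F') (F - F')
  rw [e1, hc'] at h3
  rw [e2, hc] at h4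
  have h5 : ∑ i, (F' - F) i • a i = ∑ i, (F - F') i • a i := by
    have h6 := h3.symm.trans h4
    exact add_left_cancel h6
  have h7 := inj _ hu _ hv h5
  funext j
  have h8 := congrFun h7 j
  rw [Pi.sub_apply, Pi.sub_apply] at h8
  omega

end Pool.Agent.TG
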