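import Pool.Agent.TG.Crit
import Pool.Agent.TG.ArithMax
import Pool.Agent.TG.ArithAtom

/-!
# The lower bound

`low`: apply `low_criterion` (with `e := n + 2`) to `a = Fin.cons 1 (Fin.cons N (fun i => N + K^i))`,
`W = Fin.cons (2 m + 1) (Fin.cons (N + m (N - 1)) (fun i => N + K^i + m (N - 1 + K^i)))`, `N = m / K`.  With
`x = p 0`, `y = p 1`, `z i = p i.succ.succ` (`Fin.sum_univ_succ` twice):
`∑ j, p j • a j = (va K N x y z : ZMod m)` and `∑ j, p j * W j = wv m K N x y z`.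
`surj`: `a 0 = 1` (use `c.val`).  `hatom`: `atomX`, `atomY`, `atomG`.
`S` = image of `{z : Fin n → ℕ | ∑ z ≤ K - 2}` under `z ↦ (0, y, z)`, where `y + ∑ z = K - 1` if
`m - K N ≤ sv K z` and `= K` otherwise (so `y ≥ 1`).  `hS`: `lightest`; `hmax`: `maxX`, `maxY`, `maxG`.
`#{z : Fin n → ℕ | ∑ z ≤ L} = C(L + n, n)` (e.g. `Finset.antidiagonal`/`Finset.Nat.card_antidiagonalTuple`:
`∑ z ≤ L` corresponds to tuples of length `n + 1` with sum `L`; or `Sym`, or `Finset.finsuppAntidiag`, or an easy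
induction on `n`), here `L = K - 2`.

`T_ge`: as `T` is the `sSup` of a set bounded above (`UpperG.type_le` with `K = 1` gives the bound
`(e+2)(1+m)`; note `T (n + 2) m` is about `edim = n + 3`).
-/

namespace Pool.Agent.TG

open Pool.Agent.Hhelper4.NS

def mk2 {n : ℕ} (x y : ℕ) (z : Fin n → ℕ) : Fin (n + 2) → ℕ := Fin.cons x (Fin.cons y z)

def tl2 {n : ℕ} (p : Fin (n + 2) → ℕ) : Fin n → ℕ := fun i => p i.succ.succ

theorem mk2_zero {n : ℕ} (x y : ℕ) (z : Fin n → ℕ) : mk2 x y z 0 = x := rfl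

theorem mk2_one {n : ℕ} (x y : ℕ) (z : Fin n → ℕ) : mk2 x y z (Fin.succ 0) = y := rfl

theorem mk2_succ {n : ℕ} (x y : ℕ) (z : Fin n → ℕ) (i : Fin n) : mk2 x y z i.succ.succ = z i := rfl

theorem ext2 {n : ℕ} {p q : Fin (n + 2) → ℕ} (h0 : p 0 = q 0) (h1 : p (Fin.succ 0) = q (Fin.succ 0))
    (h2 : ∀ i : Fin n, p i.succ.succ = q i.succ.succ) : p = q := by
  funext j
  refine Fin.cases h0 (fun j => ?_) j
  exact Fin.cases h1 (fun k => h2 k) j

theorem mk2_tl2 {n : ℕ} (p : Fin (n + 2) → ℕ) : mk2 (p 0) (p (Fin.succ 0)) (tl2 p) = p :=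
  ext2 rfl rfl (fun _ => rfl)

theorem tl2_mk2 {n : ℕ} (x y : ℕ) (z : Fin n → ℕ) : tl2 (mk2 x y z) = z := rfl

theorem sum_mk2 {n : ℕ} (x y : ℕ) (z : Fin n → ℕ) (a b : ℕ) (c : Fin n → ℕ) :
    ∑ j, mk2 x y z j * mk2 a b c j = x * a + (y * b + ∑ i, z i * c i) := by
  rw [Fin.sum_univ_succ, Fin.sum_univ_succ]
  rfl

def gA {n : ℕ} (K N : ℕ) : Fin (n + 2) → ℕ := mk2 1 N (fun i : Fin n => N + K ^ (i : ℕ))

def gB {n : ℕ} (K N : ℕ) : Fin (n + 2) → ℕ := mk2 2 (N - 1) (fun i : Fin n => N - 1 + K ^ (i : ℕ))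

def gW {n : ℕ} (m K N : ℕ) : Fin (n + 2) → ℕ := fun j => gA K N j + m * gB K N j

theorem sum_gA {n : ℕ} (K N x y : ℕ) (z : Fin n → ℕ) :
    ∑ j, mk2 x y z j * gA K N j = va K N x y z := by
  unfold gA va dg sv
  rw [sum_mk2]
  have h : ∑ i, z i * (N + K ^ (i : ℕ)) = (∑ i, z i) * N + ∑ i : Fin n, K ^ (i : ℕ) * z i := by
    rw [Finset.sum_mul, ← Finset.sum_add_distrib]
    exact Finset.sum_congr rfl (fun i _ => by ring)
  rw [h]
  ring

theorem sum_gB {n : ℕ} (K N x y : ℕ) (z : Fin n → ℕ) :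
    ∑ j, mk2 x y z j * gB K N j = 2 * x + dg y z * (N - 1) + sv K z := by
  unfold gB dg sv
  rw [sum_mk2]
  have h : ∑ i, z i * (N - 1 + K ^ (i : ℕ)) =
      (∑ i, z i) * (N - 1) + ∑ i : Fin n, K ^ (i : ℕ) * z i := by
    rw [Finset.sum_mul, ← Finset.sum_add_distrib]
    exact Finset.sum_congr rfl (fun i _ => by ring)
  rw [h]
  ring

theorem sum_gW {n : ℕ} (m K N x y : ℕ) (z : Fin n → ℕ) :
    ∑ j, mk2 x y z j * gW m K N j = wv m K N x y z := by
  unfold gW wv
  rw [← sum_gA, ← sum_gB, Finset.mul_sum, ← Finset.sum_add_distrib]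
  exact Finset.sum_congr rfl (fun i _ => by ring)

theorem sum_gW' {n : ℕ} (m K N : ℕ) (p : Fin (n + 2) → ℕ) :
    ∑ j, p j * gW m K N j = wv m K N (p 0) (p (Fin.succ 0)) (tl2 p) := by
  rw [← sum_gW, mk2_tl2]

theorem sum_cast {n m : ℕ} (K N : ℕ) (p : Fin (n + 2) → ℕ) :
    ∑ j, p j • ((gA K N j : ℕ) : ZMod m) = ((va K N (p 0) (p (Fin.succ 0)) (tl2 p) : ℕ) : ZMod m) := by
  rw [← sum_gA, mk2_tl2, Nat.cast_sum]
  exact Finset.sum_congr rfl (fun i _ => by rw [nsmul_eq_mul, Nat.cast_mul])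

theorem single_zero {n : ℕ} : (Pi.single 0 1 : Fin (n + 2) → ℕ) = mk2 1 0 0 := by
  apply ext2
  · rw [Pi.single_eq_same, mk2_zero]
  · rw [Pi.single_eq_of_ne (Fin.succ_ne_zero 0), mk2_one]
  · intro i
    rw [Pi.single_eq_of_ne (Fin.succ_ne_zero _), mk2_succ]
    rfl

theorem single_one {n : ℕ} : (Pi.single (Fin.succ 0) 1 : Fin (n + 2) → ℕ) = mk2 0 1 0 := by
  apply ext2
  · rw [Pi.single_eq_of_ne (Fin.succ_ne_zero 0).symm, mk2_zero]
  · rw [Pi.single_eq_same, mk2_one]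
  · intro i
    rw [Pi.single_eq_of_ne (fun h => Fin.succ_ne_zero _ (Fin.succ_injective _ h)), mk2_succ]
    rfl

theorem single_succ {n : ℕ} (k : Fin n) :
    (Pi.single k.succ.succ 1 : Fin (n + 2) → ℕ) = mk2 0 0 (Pi.single k 1) := by
  apply ext2
  · rw [Pi.single_eq_of_ne (Fin.succ_ne_zero _).symm, mk2_zero]
  · rw [Pi.single_eq_of_ne (fun h => Fin.succ_ne_zero _ (Fin.succ_injective _ h).symm), mk2_one]
  · intro i
    rw [mk2_succ]
    by_cases h : i = k
    · subst h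
      rw [Pi.single_eq_same, Pi.single_eq_same]
    · rw [Pi.single_eq_of_ne h, Pi.single_eq_of_ne]
      intro h'
      exact h (Fin.succ_injective _ (Fin.succ_injective _ h'))

theorem sum_single {n : ℕ} (i : Fin (n + 2)) (f : Fin (n + 2) → ℕ) :
    ∑ j, (Pi.single i 1 : Fin (n + 2) → ℕ) j * f j = f i := by
  rw [Finset.sum_eq_single i]
  · rw [Pi.single_eq_same, one_mul]
  · intro j _ hj
    rw [Pi.single_eq_of_ne hj, zero_mul]
  · intro h
    exact absurd (Finset.mem_univ i) h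

theorem gA_zero {n : ℕ} (K N : ℕ) : gA (n := n) K N 0 = va K N 1 0 (0 : Fin n → ℕ) := by
  rw [← sum_gA, ← single_zero, sum_single]

theorem gA_one {n : ℕ} (K N : ℕ) : gA (n := n) K N (Fin.succ 0) = va K N 0 1 (0 : Fin n → ℕ) := by
  rw [← sum_gA, ← single_one, sum_single]

theorem gA_succ {n : ℕ} (K N : ℕ) (i : Fin n) :
    gA (n := n) K N i.succ.succ = va K N 0 0 (Pi.single i 1 : Fin n → ℕ) := by
  rw [← sum_gA, ← single_succ, sum_single]

theorem gW_zero {n : ℕ} (m K N : ℕ) : gW (n := n) m K N 0 = wv m K N 1 0 (0 : Fin n → ℕ) := by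
  rw [← sum_gW, ← single_zero, sum_single]

theorem gW_one {n : ℕ} (m K N : ℕ) :
    gW (n := n) m K N (Fin.succ 0) = wv m K N 0 1 (0 : Fin n → ℕ) := by
  rw [← sum_gW, ← single_one, sum_single]

theorem gW_succ {n : ℕ} (m K N : ℕ) (i : Fin n) :
    gW (n := n) m K N i.succ.succ = wv m K N 0 0 (Pi.single i 1 : Fin n → ℕ) := by
  rw [← sum_gW, ← single_succ, sum_single]

theorem va_zero0 {n : ℕ} (K N v : ℕ) : va K N v 0 (0 : Fin n → ℕ) = v := by
  unfold va dg sv
  simp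

/-- the value of `y` -/
def yv {n : ℕ} (m K N : ℕ) (z : Fin n → ℕ) : ℕ :=
  if m - K * N ≤ sv K z then K - 1 - ∑ i, z i else K - ∑ i, z i

theorem yv_spec {n m K N : ℕ} (hK : 3 ≤ K) {z : Fin n → ℕ} (hz : ∑ i, z i ≤ K - 2) :
    1 ≤ yv m K N z ∧ ((dg (yv m K N z) z = K - 1 ∧ m - K * N ≤ sv K z) ∨
      (dg (yv m K N z) z = K ∧ sv K z < m - K * N)) := by
  unfold yv dg
  by_cases h : m - K * N ≤ sv K z
  · rw [if_pos h]
    refine ⟨by omega, Or.inl ⟨by omega, h⟩⟩
  · rw [if_neg h]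
    refine ⟨by omega, Or.inr ⟨by omega, not_le.1 h⟩⟩

/-- the chosen elements -/
noncomputable def sS (n m K N : ℕ) : Finset (Fin (n + 2) → ℕ) :=
  (Finset.finsuppAntidiag (Finset.univ : Finset (Fin (n + 1))) (K - 2)).image
    (fun w => mk2 0 (yv m K N (fun i : Fin n => w i.succ)) (fun i : Fin n => w i.succ))

theorem mem_sS {n m K N : ℕ} {p : Fin (n + 2) → ℕ} (hp : p ∈ sS n m K N) :
    ∃ z : Fin n → ℕ, ∑ i, z i ≤ K - 2 ∧ p = mk2 0 (yv m K N z) z := by
  unfold sS at hp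
  rw [Finset.mem_image] at hp
  obtain ⟨w, hw, rfl⟩ := hp
  refine ⟨_, ?_, rfl⟩
  rw [Finset.mem_finsuppAntidiag] at hw
  have h := hw.1
  rw [Fin.sum_univ_succ] at h
  omega

theorem card_sS {n m K N : ℕ} : (sS n m K N).card = (K - 2 + n).choose n := by
  unfold sS
  rw [Finset.card_image_of_injOn, Finset.card_finsuppAntidiag_nat_eq_choose, Finset.card_univ,
    Fintype.card_fin, show n + 1 + (K - 2) - 1 = (K - 2) + n by omega]
  · exact Nat.choose_symm_add
  · intro w hw w' hw' h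
    rw [Finset.mem_coe, Finset.mem_finsuppAntidiag] at hw hw'
    have h1 := hw.1
    have h1' := hw'.1
    rw [Fin.sum_univ_succ] at h1 h1'
    have h2 : ∀ i : Fin n, w i.succ = w' i.succ := fun i => by
      have := congrFun h i.succ.succ
      exact this
    have h3 : ∑ i : Fin n, w i.succ = ∑ i : Fin n, w' i.succ := Finset.sum_congr rfl (fun i _ => h2 i)
    have h4 : w 0 = w' 0 := by omega
    apply Finsupp.ext
    intro j
    exact Fin.cases h4 (fun i => h2 i) j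

theorem low {n m K : ℕ} (hn : 1 ≤ n) (hK : 3 ≤ K) (hm : K ^ (n + 1) ≤ m) :
    ∃ Γ : AddSubmonoid ℕ, IsNumerical Γ ∧ edim Γ = n + 3 ∧ mult Γ = m ∧
      (K - 2 + n).choose n ≤ type Γ := by
  have hK0 : 0 < K := by omega
  have hm0 : 0 < m := lt_of_lt_of_le (pow_pos hK0 _) hm
  have : NeZero m := ⟨hm0.ne'⟩
  obtain ⟨N, hN⟩ : ∃ N, N = m / K := ⟨_, rfl⟩
  have hNK : K ^ n ≤ N := by
    rw [hN, Nat.le_div_iff_mul_le hK0, ← pow_succ]
    exact hm
  have hKn : K ≤ K ^ n := Nat.le_self_pow (by omega) K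
  have hN3 : 3 ≤ N := by omega
  have hcong : ∀ {u v : ℕ}, ((u : ℕ) : ZMod m) = ((v : ℕ) : ZMod m) → u ≡ v [MOD m] :=
    fun {u v} h => (ZMod.natCast_eq_natCast_iff u v m).1 h
  have hcong' : ∀ {u v : ℕ}, u ≡ v [MOD m] → ((u : ℕ) : ZMod m) = ((v : ℕ) : ZMod m) :=
    fun {u v} h => (ZMod.natCast_eq_natCast_iff u v m).2 h
  have hpos : ∀ j : Fin (n + 2), 1 ≤ gA K N j ∧ 1 ≤ gB K N j := by
    intro j
    refine Fin.cases ⟨le_refl 1, by show 1 ≤ 2; omega⟩ (fun j => ?_) j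
    refine Fin.cases ⟨by show 1 ≤ N; omega, by show 1 ≤ N - 1; omega⟩ (fun k => ?_) j
    exact ⟨by show 1 ≤ N + K ^ (k : ℕ); omega, by show 1 ≤ N - 1 + K ^ (k : ℕ); omega⟩
  rw [← card_sS (n := n) (m := m) (K := K) (N := N)]
  refine low_criterion (e := n + 2) (fun j => ((gA K N j : ℕ) : ZMod m)) (gW m K N) ?_ ?_ ?_ ?_
    (sS n m K N) ?_ ?_
  · intro i
    unfold gW
    rw [Nat.cast_add, Nat.cast_mul, ZMod.natCast_self, zero_mul, add_zero]
  · intro i
    obtain ⟨h1, h2⟩ := hpos i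
    unfold gW
    have h3 : m * 1 ≤ m * gB K N i := Nat.mul_le_mul_left m h2
    omega
  · intro c
    refine ⟨Pi.single 0 c.val, ?_⟩
    rw [sum_cast, Pi.single_eq_same, Pi.single_eq_of_ne (Fin.succ_ne_zero 0)]
    have h : tl2 (Pi.single (0 : Fin (n + 2)) c.val) = (0 : Fin n → ℕ) := by
      funext i
      show (Pi.single (0 : Fin (n + 2)) c.val : Fin (n + 2) → ℕ) i.succ.succ = 0
      rw [Pi.single_eq_of_ne (Fin.succ_ne_zero _)]
    rw [h]
    rw [va_zero0, ZMod.natCast_val, ZMod.cast_id]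
  · intro i q hq hne
    rw [sum_cast] at hq
    rw [sum_gW']
    have hne' : ∀ (x y : ℕ) (z : Fin n → ℕ), Pi.single i 1 = mk2 x y z →
        ¬ (q 0 = x ∧ q (Fin.succ 0) = y ∧ tl2 q = z) := by
      rintro x y z h ⟨h1, h2, h3⟩
      apply hne
      rw [h, ← h1, ← h2, ← h3, mk2_tl2]
    revert hq hne hne'
    refine Fin.cases ?_ (fun j => ?_) i
    · intro hq _ hne'
      rw [gA_zero] at hq
      rw [gW_zero]
      exact atomX hn hK hm hN (hcong hq) (hne' 1 0 0 single_zero)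
    · refine Fin.cases ?_ (fun k => ?_) j
      · intro hq _ hne'
        rw [gA_one] at hq
        rw [gW_one]
        exact atomY hn hK hm hN (hcong hq) (hne' 0 1 0 single_one)
      · intro hq _ hne'
        rw [gA_succ] at hq
        rw [gW_succ]
        exact atomG hn hK hm hN k (hcong hq) (hne' 0 0 _ (single_succ k))
  · intro p hp q hq hne
    obtain ⟨z, hz, rfl⟩ := mem_sS hp
    obtain ⟨_, hy⟩ := yv_spec (m := m) (N := N) hK hz
    rw [sum_cast, sum_cast, tl2_mk2, mk2_zero, mk2_one] at hq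
    rw [sum_gW', sum_gW', tl2_mk2, mk2_zero, mk2_one]
    refine lightest hn hK hm hN hz (hy.imp (fun h => h.1) id) (hcong hq) ?_
    rintro ⟨h1, h2, h3⟩
    apply hne
    rw [← mk2_tl2 q, h1, h2, h3]
  · intro p hp i
    obtain ⟨z, hz, rfl⟩ := mem_sS hp
    obtain ⟨hy1, hy⟩ := yv_spec (m := m) (N := N) hK hz
    rw [sum_cast, sum_gW', tl2_mk2, mk2_zero, mk2_one]
    refine Fin.cases ?_ (fun j => ?_) i
    · obtain ⟨h1, h2⟩ := maxX (n := n) (m := m) (K := K) (N := N) hn hm0 (by omega) (z := z) hy1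
      refine ⟨mk2 0 (yv m K N z - 1) (z + Pi.single ⟨0, hn⟩ 1), ?_, ?_⟩
      · rw [sum_cast, tl2_mk2, mk2_zero, mk2_one, h1, ← Nat.cast_add]
        congr 1
        show va K N 1 (yv m K N z) z = va K N 0 (yv m K N z) z + 1
        unfold va
        ring
      · rw [sum_gW', tl2_mk2, mk2_zero, mk2_one]
        refine lt_of_lt_of_eq h2 ?_
        show wv m K N 1 (yv m K N z) z = wv m K N 0 (yv m K N z) z + (1 + m * 2)
        unfold wv va
        ring
    · refine Fin.cases ?_ (fun k => ?_) j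
      · obtain ⟨v, h1, h2⟩ := maxY (n := n) hn hK hm hN hz hy
        refine ⟨mk2 v 0 0, ?_, ?_⟩
        · rw [sum_cast, tl2_mk2, mk2_zero, mk2_one, va_zero0, hcong' h1, ← Nat.cast_add]
          congr 1
          show va K N 0 (yv m K N z + 1) z = va K N 0 (yv m K N z) z + N
          unfold va dg
          ring
        · rw [sum_gW', tl2_mk2, mk2_zero, mk2_one]
          refine lt_of_lt_of_eq h2 ?_
          show wv m K N 0 (yv m K N z + 1) z = wv m K N 0 (yv m K N z) z + (N + m * (N - 1))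
          unfold wv va dg
          ring
      · obtain ⟨v, h1, h2⟩ := maxG (n := n) hn hK hm hN k hz hy
        have hd : dg (yv m K N z) (z + Pi.single k 1) = dg (yv m K N z) z + 1 := by
          unfold dg
          have : ∑ i, (z + Pi.single k 1 : Fin n → ℕ) i = ∑ i, z i + 1 := by
            simp only [Pi.add_apply]
            rw [Finset.sum_add_distrib, Finset.sum_pi_single']
            simp
          rw [this]
          ring
        have hs : sv K (z + Pi.single k 1) = sv K z + K ^ (k : ℕ) := by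
          unfold sv
          simp only [Pi.add_apply, mul_add]
          rw [Finset.sum_add_distrib]
          congr 1
          rw [Finset.sum_eq_single k]
          · rw [Pi.single_eq_same, mul_one]
          · intro j _ hj
            rw [Pi.single_eq_of_ne hj, mul_zero]
          · intro h
            exact absurd (Finset.mem_univ k) h
        refine ⟨mk2 v 0 0, ?_, ?_⟩
        · rw [sum_cast, tl2_mk2, mk2_zero, mk2_one, va_zero0, hcong' h1, ← Nat.cast_add]
          congr 1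
          show va K N 0 (yv m K N z) (z + Pi.single k 1) = va K N 0 (yv m K N z) z + (N + K ^ (k : ℕ))
          unfold va
          rw [hd, hs]
          ring
        · rw [sum_gW', tl2_mk2, mk2_zero, mk2_one]
          refine lt_of_lt_of_eq h2 ?_
          show wv m K N 0 (yv m K N z) (z + Pi.single k 1) =
            wv m K N 0 (yv m K N z) z + (N + K ^ (k : ℕ) + m * (N - 1 + K ^ (k : ℕ)))
          unfold wv va
          rw [hd, hs]
          ring

end Pool.Agent.TG
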