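import Pool.Agent.TG.UpperG
import Pool.Agent.TG.LowG

/-!
# The order of magnitude of `T(e, m)` for fixed `e`

Write `μ = m^(1/(e-1))`, so `m^((e-2)/(e-1)) = μ^(e-2)` and `μ^(e-1) = m`.

`T_ge`: from `low` (`n = e - 2`; `le_csSup`, the set is bounded above by `type_le` with `K = 1`).

`T_upper`: `T_le` with `K = ⌊μ⌋ ≥ 1`, `μ ≤ 2 K`: `T ≤ e (K^(e-2) + m / K) ≤ e (μ^(e-2) + 2 m / μ) = 3 e μ^(e-2)`.

`T_lower`: `T_ge` with `K = ⌊μ⌋ ≥ 3`; `K - 1 ≥ μ / 2` (as `K > μ - 1`; if `μ ≥ 4` then `μ - 2 ≥ μ / 2`, otherwise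
`K = 3`); `K^(e-1) ≤ m`; `C(K - 2 + n, n) ≥ (K - 1)^n / n!`, `n = e - 2` (`Nat.pow_le_choose`).
-/

namespace Pool.Agent.TG

open Pool.Agent.Hhelper4.NS

/-- the real number `μ = m^(1/(e-1))`, `e = n + 2` -/
private theorem mu_facts {n m : ℕ} (hm : 1 ≤ m) :
    ∃ μ : ℝ, 1 ≤ μ ∧ μ ^ (n + 1) = (m : ℝ) ∧
      (m : ℝ) ^ ((((n + 2 : ℕ) : ℝ) - 2) / (((n + 2 : ℕ) : ℝ) - 1)) = μ ^ n := by
  have hm1 : (1 : ℝ) ≤ (m : ℝ) := by exact_mod_cast hm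
  have hm0 : (0 : ℝ) ≤ (m : ℝ) := by linarith
  have hn : ((n : ℝ) + 1) ≠ 0 := by positivity
  refine ⟨(m : ℝ) ^ (1 / ((n : ℝ) + 1)), Real.one_le_rpow hm1 (by positivity), ?_, ?_⟩
  · rw [← Real.rpow_natCast, ← Real.rpow_mul hm0]
    have : 1 / ((n : ℝ) + 1) * ((n + 1 : ℕ) : ℝ) = 1 := by
      push_cast
      field_simp
    rw [this, Real.rpow_one]
  · rw [← Real.rpow_natCast, ← Real.rpow_mul hm0]
    congr 1
    push_cast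
    have e1 : (n : ℝ) + 2 - 2 = n := by ring
    have e2 : (n : ℝ) + 2 - 1 = n + 1 := by ring
    rw [e1, e2]
    ring

theorem T_ge {e m K : ℕ} (he : 3 ≤ e) (hK : 3 ≤ K) (hm : K ^ (e - 1) ≤ m) :
    (K + e - 4).choose (e - 2) ≤ T e m := by
  obtain ⟨n, rfl⟩ : ∃ n, e = n + 2 := ⟨e - 2, by omega⟩
  have hn : 1 ≤ n := by omega
  have hm' : K ^ (n + 1) ≤ m := by
    have : n + 2 - 1 = n + 1 := by omega
    rw [this] at hm
    exact hm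
  obtain ⟨Γ, h1, h2, h3, h4⟩ := low hn hK hm'
  have hm0 : 1 ≤ m := by
    have : 0 < K ^ (n + 1) := by positivity
    omega
  have e1 : K + (n + 2) - 4 = K - 2 + n := by omega
  have e2 : n + 2 - 2 = n := by omega
  rw [e1, e2]
  refine h4.trans ?_
  unfold T
  apply le_csSup
  · refine ⟨(n + 2) * (1 ^ (n + 1) + m), ?_⟩
    rintro t ⟨Δ, d1, d2, d3, rfl⟩
    have := type_le (e := n) d1 d2 d3 hm0 1
    rw [one_mul] at this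
    exact this
  · exact ⟨Γ, h1, h2, h3, rfl⟩

theorem T_upper {e m : ℕ} (he : 3 ≤ e) (hm : 1 ≤ m) :
    (T e m : ℝ) ≤ 3 * (e : ℝ) * (m : ℝ) ^ (((e : ℝ) - 2) / ((e : ℝ) - 1)) := by
  obtain ⟨n, rfl⟩ : ∃ n, e = n + 2 := ⟨e - 2, by omega⟩
  obtain ⟨μ, hμ1, hμ2, hμ3⟩ := mu_facts (n := n) hm
  rw [hμ3]
  set K : ℕ := ⌊μ⌋₊ with hK
  have hK1 : 1 ≤ K := (Nat.one_le_floor_iff μ).2 hμ1
  have hK2 : (K : ℝ) ≤ μ := Nat.floor_le (by linarith)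
  have hK3 : μ ≤ 2 * (K : ℝ) := by
    have h1 : μ < (K : ℝ) + 1 := Nat.lt_floor_add_one μ
    have h2 : (1 : ℝ) ≤ (K : ℝ) := by exact_mod_cast hK1
    linarith
  have hK0 : (0 : ℝ) < (K : ℝ) := by exact_mod_cast hK1
  have hμ0 : 0 ≤ μ := by linarith
  have h := T_le (e := n) hm K
  have h' : (K : ℝ) * (T (n + 2) m : ℝ) ≤ ((n : ℝ) + 2) * ((K : ℝ) ^ (n + 1) + m) := by
    exact_mod_cast h
  have h1 : (K : ℝ) ^ (n + 1) ≤ (K : ℝ) * μ ^ n := by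
    rw [pow_succ']
    exact mul_le_mul_of_nonneg_left (pow_le_pow_left₀ hK0.le hK2 n) hK0.le
  have h2 : (m : ℝ) ≤ 2 * (K : ℝ) * μ ^ n := by
    rw [← hμ2, pow_succ']
    exact mul_le_mul_of_nonneg_right hK3 (by positivity)
  have h3 : (K : ℝ) * (T (n + 2) m : ℝ) ≤ (K : ℝ) * (3 * ((n + 2 : ℕ) : ℝ) * μ ^ n) := by
    calc (K : ℝ) * (T (n + 2) m : ℝ) ≤ ((n : ℝ) + 2) * ((K : ℝ) ^ (n + 1) + m) := h'
      _ ≤ ((n : ℝ) + 2) * ((K : ℝ) * μ ^ n + 2 * (K : ℝ) * μ ^ n) :=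
          mul_le_mul_of_nonneg_left (add_le_add h1 h2) (by positivity)
      _ = (K : ℝ) * (3 * ((n + 2 : ℕ) : ℝ) * μ ^ n) := by
          push_cast
          ring
  exact le_of_mul_le_mul_left h3 hK0

theorem T_lower {e m : ℕ} (he : 3 ≤ e) (hm : 3 ^ (e - 1) ≤ m) :
    (m : ℝ) ^ (((e : ℝ) - 2) / ((e : ℝ) - 1)) ≤ 2 ^ (e - 2) * (e - 2).factorial * (T e m : ℝ) := by
  obtain ⟨n, rfl⟩ : ∃ n, e = n + 2 := ⟨e - 2, by omega⟩
  have e1 : n + 2 - 1 = n + 1 := by omega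
  have e2 : n + 2 - 2 = n := by omega
  rw [e1] at hm
  rw [e2]
  have hm1 : 1 ≤ m := by
    have : 0 < 3 ^ (n + 1) := by positivity
    omega
  obtain ⟨μ, hμ1, hμ2, hμ3⟩ := mu_facts (n := n) hm1
  rw [hμ3]
  have hμ0 : 0 ≤ μ := by linarith
  have hμ4 : 3 ≤ μ := by
    have h1 : (3 : ℝ) ^ (n + 1) ≤ μ ^ (n + 1) := by
      rw [hμ2]
      exact_mod_cast hm
    exact le_of_pow_le_pow_left₀ (by omega) hμ0 h1
  set K : ℕ := ⌊μ⌋₊ with hK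
  have hK3 : 3 ≤ K := Nat.le_floor (by exact_mod_cast hμ4)
  have hK2 : (K : ℝ) ≤ μ := Nat.floor_le hμ0
  have hKm : K ^ (n + 1) ≤ m := by
    have h1 : (K : ℝ) ^ (n + 1) ≤ (m : ℝ) := by
      rw [← hμ2]
      exact pow_le_pow_left₀ (Nat.cast_nonneg K) hK2 _
    exact_mod_cast h1
  have hK4 : μ / 2 ≤ (K : ℝ) - 1 := by
    have h1 : μ < (K : ℝ) + 1 := Nat.lt_floor_add_one μ
    have h3 : (3 : ℝ) ≤ (K : ℝ) := by exact_mod_cast hK3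
    rcases le_or_gt 4 μ with h | h
    · linarith
    · linarith
  have hT := T_ge (m := m) he hK3 (by rw [e1]; exact hKm)
  have e3 : K + (n + 2) - 4 = K - 2 + n := by omega
  rw [e3, e2] at hT
  have hT' : ((K - 2 + n).choose n : ℝ) ≤ (T (n + 2) m : ℝ) := by exact_mod_cast hT
  have hch : (((K - 2 + n + 1 - n : ℕ) : ℝ) ^ n) / (n.factorial : ℝ) ≤
      ((K - 2 + n).choose n : ℝ) := Nat.pow_le_choose n (K - 2 + n)
  have e4 : ((K - 2 + n + 1 - n : ℕ) : ℝ) = (K : ℝ) - 1 := by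
    have : K - 2 + n + 1 - n = K - 1 := by omega
    rw [this, Nat.cast_sub (by omega)]
    push_cast
    ring
  rw [e4] at hch
  have hf : (0 : ℝ) < (n.factorial : ℝ) := by exact_mod_cast n.factorial_pos
  have h5 : ((K : ℝ) - 1) ^ n ≤ (T (n + 2) m : ℝ) * (n.factorial : ℝ) := by
    rw [← div_le_iff₀ hf]
    exact hch.trans hT'
  have h6 : (μ / 2) ^ n ≤ ((K : ℝ) - 1) ^ n := pow_le_pow_left₀ (by positivity) hK4 n
  have h7 : (μ / 2) ^ n ≤ (T (n + 2) m : ℝ) * (n.factorial : ℝ) := h6.trans h5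
  rw [div_pow, div_le_iff₀ (by positivity)] at h7
  calc μ ^ n ≤ (T (n + 2) m : ℝ) * (n.factorial : ℝ) * 2 ^ n := h7
    _ = 2 ^ n * (n.factorial : ℝ) * (T (n + 2) m : ℝ) := by ring

end Pool.Agent.TG
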