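import Mathlib

/-!
# Choice of the radices

* `radix_choice`: for `k = n q + a`, `q ≥ 2`, `0 ≤ a < n`, let `a` of the radices be `q + 1` and the others `q`;
  `K = ∑ (r i - 1) + 1 = k - n + 1` and `R = q^(n-a) (q+1)^a`.  For `k = 2 n` we have `K R = (n+1) 2^n ≤ m`.
  Let `k` be the largest one with `K R ≤ m` (it exists, `K R ≥ k - n + 1`).  Going from `k` to `k + 1` changes `K` to `K + 1`
  (factor `≤ 3/2`, as `K ≥ 2`) and `R` by the factor `(q+1)/q ≤ 3/2`, so `m < (9/4) K R`.  Finally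
  `K = (q - 1) n + a + 1 ≤ q n` and `R ≥ q^n`, so `K^n ≤ n^n R`.
-/

namespace Pool.Agent.TG

/-- the radices with index `j = k - 2 n` -/
private def rdx (n j : ℕ) (i : ℕ) : ℕ := if i < j % n then j / n + 3 else j / n + 2

/-- the product -/
private def rdP (n j : ℕ) : ℕ := (j / n + 3) ^ (j % n) * (j / n + 2) ^ (n - j % n)

private theorem rdx_prod {n : ℕ} (hn : 1 ≤ n) (j : ℕ) :
    ∏ i : Fin n, rdx n j i = rdP n j := by
  have hlt : j % n < n := Nat.mod_lt _ hn
  rw [Fin.prod_univ_eq_prod_range (fun i => rdx n j i) n]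
  have h1 : Finset.range n = Finset.range (j % n + (n - j % n)) := by
    congr 1
    omega
  rw [h1, Finset.prod_range_add]
  unfold rdP
  congr 1
  · rw [Finset.prod_congr rfl (g := fun _ => j / n + 3), Finset.prod_const, Finset.card_range]
    intro i hi
    rw [Finset.mem_range] at hi
    unfold rdx
    rw [if_pos hi]
  · rw [Finset.prod_congr rfl (g := fun _ => j / n + 2), Finset.prod_const, Finset.card_range]
    intro i _
    unfold rdx
    rw [if_neg (by omega)]

private theorem rdx_sum {n : ℕ} (hn : 1 ≤ n) (j : ℕ) :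
    ∑ i : Fin n, (rdx n j i - 1) = n + j := by
  have hlt : j % n < n := Nat.mod_lt _ hn
  rw [Fin.sum_univ_eq_sum_range (fun i => rdx n j i - 1) n]
  have h1 : Finset.range n = Finset.range (j % n + (n - j % n)) := by
    congr 1
    omega
  rw [h1, Finset.sum_range_add]
  have e1 : ∑ i ∈ Finset.range (j % n), (rdx n j i - 1) = (j % n) * (j / n + 2) := by
    rw [Finset.sum_congr rfl (g := fun _ => j / n + 2), Finset.sum_const, Finset.card_range,
      smul_eq_mul]
    intro i hi
    rw [Finset.mem_range] at hi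
    unfold rdx
    rw [if_pos hi]
    rfl
  have e2 : ∑ i ∈ Finset.range (n - j % n), (rdx n j (j % n + i) - 1) =
      (n - j % n) * (j / n + 1) := by
    rw [Finset.sum_congr rfl (g := fun _ => j / n + 1), Finset.sum_const, Finset.card_range,
      smul_eq_mul]
    intro i _
    unfold rdx
    rw [if_neg (by omega)]
    rfl
  rw [e1, e2]
  obtain ⟨c, hc⟩ : ∃ c, c = n - j % n := ⟨_, rfl⟩
  have hn2 : n = j % n + c := by omega
  have hj := Nat.div_add_mod j n
  rw [← hc]
  obtain ⟨a, ha⟩ : ∃ a, a = j % n := ⟨_, rfl⟩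
  obtain ⟨q, hq⟩ : ∃ q, q = j / n := ⟨_, rfl⟩
  rw [← ha] at hn2 hj ⊢
  rw [← hq] at hj ⊢
  rw [← hj, hn2]
  ring

private theorem rdP_succ {n : ℕ} (hn : 1 ≤ n) (j : ℕ) : 2 * rdP n (j + 1) ≤ 3 * rdP n j := by
  have hlt : j % n < n := Nat.mod_lt _ hn
  have key : rdP n (j + 1) * (j / n + 2) = rdP n j * (j / n + 3) := by
    unfold rdP
    by_cases h : j % n + 1 < n
    · have h1 : (j + 1) / n = j / n := by
        rw [Nat.succ_div]
        rw [if_neg, add_zero]
        intro hd
        have h2 : (j + 1) % n = 0 := Nat.mod_eq_zero_of_dvd hd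
        have h3 : (j + 1) % n = j % n + 1 := by
          rw [Nat.add_mod, Nat.mod_eq_of_lt (show 1 < n by omega), Nat.mod_eq_of_lt h]
        omega
      have h3 : (j + 1) % n = j % n + 1 := by
        rw [Nat.add_mod, Nat.mod_eq_of_lt (show 1 < n by omega), Nat.mod_eq_of_lt h]
      rw [h1, h3]
      have h4 : n - j % n = (n - (j % n + 1)) + 1 := by omega
      rw [h4, pow_succ, pow_succ]
      ring
    · have h5 : j % n + 1 = n := by omega
      have hd : n ∣ j + 1 := by
        have := Nat.div_add_mod j n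
        refine ⟨j / n + 1, ?_⟩
        rw [mul_add, mul_one]
        omega
      have h1 : (j + 1) / n = j / n + 1 := by
        rw [Nat.succ_div, if_pos hd]
      have h3 : (j + 1) % n = 0 := Nat.mod_eq_zero_of_dvd hd
      rw [h1, h3, pow_zero, Nat.sub_zero, one_mul]
      have h4 : n - j % n = 1 := by omega
      rw [h4, pow_one]
      have h6 : (j / n + 1 + 2) ^ n = (j / n + 3) ^ (j % n) * (j / n + 3) := by
        rw [← pow_succ, h5]
      rw [h6]
      ring
  have hpos : 0 < j / n + 2 := Nat.succ_pos _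
  by_contra hcon
  push Not at hcon
  have h1 := Nat.mul_lt_mul_of_pos_right hcon hpos
  have h2 : 2 * rdP n (j + 1) * (j / n + 2) = 2 * (rdP n j * (j / n + 3)) := by
    rw [mul_assoc, key]
  rw [h2] at h1
  nlinarith [Nat.zero_le (rdP n j * (j / n))]

theorem radix_choice {n m : ℕ} (hn : 1 ≤ n) (hm : (n + 1) * 2 ^ n ≤ m) :
    ∃ r : Fin n → ℕ, (∀ i, 2 ≤ r i) ∧ (∑ i, (r i - 1) + 1) * ∏ i, r i ≤ m ∧
      4 * m ≤ 9 * ((∑ i, (r i - 1) + 1) * ∏ i, r i) ∧
      (∑ i, (r i - 1) + 1) ^ n ≤ n ^ n * ∏ i, r i := by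
  have hpos : ∀ j, 0 < rdP n j := by
    intro j
    unfold rdP
    positivity
  have hex : ∃ j, m < (n + j + 1) * rdP n j := by
    refine ⟨m, ?_⟩
    have := hpos m
    nlinarith
  classical
  obtain ⟨k, hk⟩ : ∃ k, k = Nat.find hex := ⟨_, rfl⟩
  have hk1 : m < (n + k + 1) * rdP n k := by
    rw [hk]
    exact Nat.find_spec hex
  have hk0 : k ≠ 0 := by
    intro h
    rw [h] at hk1
    have h1 : rdP n 0 = 2 ^ n := by
      unfold rdP
      simp
    rw [h1] at hk1
    simp only [add_zero] at hk1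
    omega
  obtain ⟨j, rfl⟩ := Nat.exists_eq_succ_of_ne_zero hk0
  have hj : (n + j + 1) * rdP n j ≤ m := by
    by_contra hcon
    push Not at hcon
    have h1 : Nat.find hex ≤ j := Nat.find_min' hex hcon
    omega
  refine ⟨fun i => rdx n j i, fun i => ?_, ?_, ?_, ?_⟩
  · show 2 ≤ rdx n j i
    unfold rdx
    split_ifs
    · exact Nat.le_add_left 2 (j / n + 1)
    · exact Nat.le_add_left 2 (j / n)
  · rw [rdx_sum hn, rdx_prod hn]
    exact hj
  · rw [rdx_sum hn, rdx_prod hn]
    have h1 := rdP_succ hn j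
    have h2 : 2 * (n + (j + 1) + 1) ≤ 3 * (n + j + 1) := by omega
    have h3 : (2 * (n + (j + 1) + 1)) * (2 * rdP n (j + 1)) ≤
        (3 * (n + j + 1)) * (3 * rdP n j) := Nat.mul_le_mul h2 h1
    have h4 : m < (n + (j + 1) + 1) * rdP n (j + 1) := hk1
    nlinarith
  · rw [rdx_sum hn, rdx_prod hn]
    have hlt : j % n < n := Nat.mod_lt _ hn
    have hj2 := Nat.div_add_mod j n
    have h1 : n + j + 1 ≤ n * (j / n + 2) := by
      rw [mul_add]
      omega
    have h2 : (j / n + 2) ^ n ≤ rdP n j := by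
      unfold rdP
      have h3 : (j / n + 2) ^ n = (j / n + 2) ^ (j % n) * (j / n + 2) ^ (n - j % n) := by
        rw [← pow_add]
        congr 1
        omega
      rw [h3]
      exact Nat.mul_le_mul_right _ (Nat.pow_le_pow_left (by omega) _)
    calc (n + j + 1) ^ n ≤ (n * (j / n + 2)) ^ n := Nat.pow_le_pow_left h1 n
      _ = n ^ n * (j / n + 2) ^ n := mul_pow _ _ _
      _ ≤ _ := Nat.mul_le_mul_left _ h2

end Pool.Agent.TG
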