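import Pool.Agent.TG.LowR
import Pool.Agent.TG.RadixC
import Pool.Agent.TG.Growth
import Pool.Agent.T3.Main

/-!
# The uniform lower bound

`T_ge2`: from `low2`, as `T_ge` in `Growth.lean`.

`T_low2`: `e = 3`: `T3_eq` (`T 3 m = Nat.sqrt (4 m) - 1 ≥ 2 √m - 2 ≥ √m` for `m ≥ 4`).
`e ≥ 4`: `n = e - 2 ≥ 2`, `radix_choice` gives `r`, `K`, `R` with `K R ≤ m ≤ (9/4) K R`, `K^n ≤ n^n R`; `K ≥ n + 1 ≥ 3`,
`R ≥ 2^n ≥ 4`.  `m^n ≤ (9/4)^n K^n R^n ≤ (9 n / 4)^n R^(n+1)`, so `R ≥ (4/(9n))^(n/(n+1)) m^(n/(n+1)) ≥ (4/(9n)) m^(n/(n+1))`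
(`4/(9n) ≤ 1`, exponent `≤ 1`), and `T ≥ R - 1 ≥ (3/4) R ≥ m^(n/(n+1)) / (3 n)`.
-/

namespace Pool.Agent.TG

open Pool.Agent.Hhelper4.NS

theorem T_ge2 {n m : ℕ} (hn : 1 ≤ n) (r : Fin n → ℕ) (hr : ∀ i, 2 ≤ r i)
    (hK : 3 ≤ ∑ i, (r i - 1) + 1) (hm : (∑ i, (r i - 1) + 1) * ∏ i, r i ≤ m) :
    ∏ i, r i - 1 ≤ T (n + 2) m := by
  obtain ⟨Γ, h1, h2, h3, h4⟩ := low2 hn r hr hK hm
  have hR : 0 < ∏ i, r i := Finset.prod_pos fun i _ => by have := hr i; omega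
  have hm0 : 1 ≤ m := by
    have h5 : 0 < (∑ i, (r i - 1) + 1) * ∏ i, r i := Nat.mul_pos (by omega) hR
    omega
  refine h4.trans ?_
  unfold T
  apply le_csSup
  · refine ⟨(n + 2) * (1 ^ (n + 1) + m), ?_⟩
    rintro t ⟨Δ, d1, d2, d3, rfl⟩
    have := type_le (e := n) d1 d2 d3 hm0 1
    rw [one_mul] at this
    exact this
  · exact ⟨Γ, h1, h2, h3, rfl⟩

private theorem low2_three {m : ℕ} (hm : 4 ≤ m) : Real.sqrt (m : ℝ) ≤ 3 * (T 3 m : ℝ) := by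
  rw [Pool.Agent.T3.T3_eq m hm]
  have h1 : 4 * m < (Nat.sqrt (4 * m) + 1) * (Nat.sqrt (4 * m) + 1) := Nat.lt_succ_sqrt (4 * m)
  have h2 : 1 ≤ Nat.sqrt (4 * m) := by
    rw [Nat.le_sqrt]
    omega
  have h3 : ((Nat.sqrt (4 * m) - 1 : ℕ) : ℝ) = (Nat.sqrt (4 * m) : ℝ) - 1 := by
    rw [Nat.cast_sub h2]
    push_cast
    ring
  rw [h3]
  set q : ℝ := (Nat.sqrt (4 * m) : ℝ) with hq
  have h1' : 4 * (m : ℝ) < (q + 1) * (q + 1) := by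
    rw [hq]
    exact_mod_cast h1
  have hq0 : 0 ≤ q := by rw [hq]; positivity
  set x : ℝ := Real.sqrt (m : ℝ) with hx
  have hx0 : 0 ≤ x := Real.sqrt_nonneg _
  have hx2 : x ^ 2 = (m : ℝ) := Real.sq_sqrt (by positivity)
  have hm4 : (4 : ℝ) ≤ (m : ℝ) := by exact_mod_cast hm
  have hx3 : 2 ≤ x := by
    rw [hx]
    apply Real.le_sqrt_of_sq_le
    linarith
  have h4 : 2 * x < q + 1 := by
    apply lt_of_pow_lt_pow_left₀ 2 (by positivity)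
    nlinarith
  linarith

theorem T_low2 {e m : ℕ} (he : 3 ≤ e) (hm : (e - 1) * 2 ^ (e - 2) ≤ m) :
    (m : ℝ) ^ (((e : ℝ) - 2) / ((e : ℝ) - 1)) ≤ 3 * ((e : ℝ) - 2) * (T e m : ℝ) := by
  obtain ⟨n, rfl⟩ : ∃ n, e = n + 2 := ⟨e - 2, by omega⟩
  have e1 : n + 2 - 1 = n + 1 := by omega
  have e2 : n + 2 - 2 = n := by omega
  rw [e1, e2] at hm
  have hn1 : 1 ≤ n := by omega
  have hp : 0 < 2 ^ n := by positivity
  have hm1 : 1 ≤ m := by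
    have h5 : 0 < (n + 1) * 2 ^ n := by positivity
    omega
  have hc : (((n + 2 : ℕ) : ℝ)) - 2 = n := by
    push_cast
    ring
  have hc2 : (((n + 2 : ℕ) : ℝ)) - 1 = n + 1 := by
    push_cast
    ring
  rw [hc, hc2]
  rcases Nat.eq_or_lt_of_le hn1 with h | h
  · subst h
    have h4 : 4 ≤ m := by omega
    have h6 := low2_three h4
    have h7 : (m : ℝ) ^ (((1 : ℕ) : ℝ) / (((1 : ℕ) : ℝ) + 1)) = Real.sqrt (m : ℝ) := by
      rw [Real.sqrt_eq_rpow]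
      norm_num
    rw [h7]
    simpa using h6
  obtain ⟨r, hr, hr1, hr2, hr3⟩ := radix_choice hn1 hm
  have hKn : n + 1 ≤ ∑ i, (r i - 1) + 1 := by
    have h5 : ∑ i : Fin n, 1 ≤ ∑ i, (r i - 1) := Finset.sum_le_sum fun i _ => by
      have := hr i
      omega
    simp only [Finset.sum_const, Finset.card_univ, Fintype.card_fin, smul_eq_mul, mul_one] at h5
    omega
  have hRn : 2 ^ n ≤ ∏ i, r i := by
    have h5 : ∏ i : Fin n, 2 ≤ ∏ i, r i := Finset.prod_le_prod' fun i _ => hr i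
    simpa using h5
  have hR4 : 4 ≤ ∏ i, r i := by
    have h5 : 2 ^ 2 ≤ 2 ^ n := Nat.pow_le_pow_right (by norm_num) h
    omega
  have hT := T_ge2 hn1 r hr (by omega) hr1
  set K : ℕ := ∑ i, (r i - 1) + 1 with hK
  set R : ℕ := ∏ i, r i with hR
  have hT' : (R : ℝ) ≤ (T (n + 2) m : ℝ) + 1 := by
    have h5 : R ≤ T (n + 2) m + 1 := by omega
    exact_mod_cast h5
  have hR4' : (4 : ℝ) ≤ (R : ℝ) := by exact_mod_cast hR4
  have hn0 : (0 : ℝ) < (n : ℝ) := by exact_mod_cast hn1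
  have hn1' : (1 : ℝ) ≤ (n : ℝ) := by exact_mod_cast hn1
  have k1 : (m : ℝ) ≤ (9 / 4) * ((K : ℝ) * (R : ℝ)) := by
    have h5 : 4 * (m : ℝ) ≤ 9 * ((K : ℝ) * (R : ℝ)) := by exact_mod_cast hr2
    linarith
  have k2 : (K : ℝ) ^ n ≤ (n : ℝ) ^ n * (R : ℝ) := by exact_mod_cast hr3
  have hm0 : (0 : ℝ) ≤ (m : ℝ) := by positivity
  set x : ℝ := (m : ℝ) ^ ((n : ℝ) / ((n : ℝ) + 1)) with hx
  have hx0 : 0 ≤ x := Real.rpow_nonneg hm0 _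
  have hx1 : x ^ (n + 1) = (m : ℝ) ^ n := by
    rw [hx, ← Real.rpow_natCast, ← Real.rpow_mul hm0, ← Real.rpow_natCast]
    congr 1
    push_cast
    field_simp
  have k3 : x ^ (n + 1) ≤ ((9 / 4) * (n : ℝ) * (R : ℝ)) ^ (n + 1) := by
    rw [hx1]
    calc (m : ℝ) ^ n ≤ ((9 / 4) * ((K : ℝ) * (R : ℝ))) ^ n := pow_le_pow_left₀ hm0 k1 n
      _ = (9 / 4) ^ n * (R : ℝ) ^ n * (K : ℝ) ^ n := by
          rw [mul_pow, mul_pow]
          ring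
      _ ≤ (9 / 4) ^ n * (R : ℝ) ^ n * ((n : ℝ) ^ n * (R : ℝ)) :=
          mul_le_mul_of_nonneg_left k2 (by positivity)
      _ = ((9 / 4) * (n : ℝ)) ^ n * (R : ℝ) ^ (n + 1) := by
          rw [mul_pow, pow_succ]
          ring
      _ ≤ ((9 / 4) * (n : ℝ)) ^ (n + 1) * (R : ℝ) ^ (n + 1) := by
          refine mul_le_mul_of_nonneg_right ?_ (by positivity)
          exact pow_le_pow_right₀ (by linarith) (Nat.le_succ n)
      _ = ((9 / 4) * (n : ℝ) * (R : ℝ)) ^ (n + 1) := by rw [← mul_pow]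
  have k4 : x ≤ (9 / 4) * (n : ℝ) * (R : ℝ) :=
    le_of_pow_le_pow_left₀ (Nat.succ_ne_zero n) (by positivity) k3
  have k5 : (R : ℝ) ≤ (4 / 3) * (T (n + 2) m : ℝ) := by linarith
  calc x ≤ (9 / 4) * (n : ℝ) * (R : ℝ) := k4
    _ ≤ (9 / 4) * (n : ℝ) * ((4 / 3) * (T (n + 2) m : ℝ)) :=
        mul_le_mul_of_nonneg_left k5 (by positivity)
    _ = 3 * (n : ℝ) * (T (n + 2) m : ℝ) := by ring

end Pool.Agent.TG
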