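import Mathlib

/-!
# Mixed radix representations

`bet r i = r_0 r_1 ... r_{i-1}`.

* `radix_exists`: induction on `n`: `s = r_0 s' + s_0` with `s_0 = s % r_0`, `s' = s / r_0 < r_1 ... r_{n-1}`.
* `bet_two`: `2 bet r i ≤ ∏ r` (`bet r i * r i ≤ ∏ r`), by induction.
* `bet_inj`: `bet r` is injective if all `r i ≥ 2`: by induction (`bet r 0 = 1`, `bet r i.succ` is `r 0 *` something `≥ 2`).
-/

namespace Pool.Agent.TG

def bet : {n : ℕ} → (Fin n → ℕ) → Fin n → ℕ
  | 0, _ => Fin.elim0
  | _ + 1, r => Fin.cons 1 (fun i => r 0 * bet (fun j => r j.succ) i)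

theorem bet_zero {n : ℕ} (r : Fin (n + 1) → ℕ) : bet r 0 = 1 := rfl

theorem bet_succ {n : ℕ} (r : Fin (n + 1) → ℕ) (i : Fin n) :
    bet r i.succ = r 0 * bet (fun j => r j.succ) i := rfl

theorem radix_exists {n : ℕ} (r : Fin n → ℕ) (hr : ∀ i, 2 ≤ r i) {s : ℕ} (hs : s < ∏ i, r i) :
    ∃ z : Fin n → ℕ, (∀ i, z i < r i) ∧ ∑ i, bet r i * z i = s := by
  induction n generalizing s with
  | zero =>
    refine ⟨fun _ => 0, fun i => i.elim0, ?_⟩
    simp at hs
    simp [hs]
  | succ n ih =>
    rw [Fin.prod_univ_succ] at hs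
    obtain ⟨z, hz, hz'⟩ := ih (fun j => r j.succ) (fun i => hr _) (Nat.div_lt_of_lt_mul hs)
    refine ⟨Fin.cons (s % r 0) z, ?_, ?_⟩
    · intro i
      refine Fin.cases ?_ (fun j => ?_) i
      · simpa using Nat.mod_lt _ (by have := hr 0; omega)
      · simpa using hz j
    · rw [Fin.sum_univ_succ]
      simp only [Fin.cons_zero, Fin.cons_succ, bet_zero, bet_succ]
      have : ∑ i, r 0 * bet (fun j => r j.succ) i * z i = r 0 * (s / r 0) := by
        rw [← hz', Finset.mul_sum]
        exact Finset.sum_congr rfl fun i _ => by ring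
      rw [this, one_mul]
      exact Nat.mod_add_div _ _

theorem bet_pos {n : ℕ} (r : Fin n → ℕ) (hr : ∀ i, 2 ≤ r i) (i : Fin n) : 1 ≤ bet r i := by
  induction n with
  | zero => exact i.elim0
  | succ n ih =>
    refine Fin.cases ?_ (fun j => ?_) i
    · rw [bet_zero]
    · rw [bet_succ]
      have h1 := hr 0
      have h2 := ih (fun j => r j.succ) (fun i => hr _) j
      nlinarith

theorem bet_two {n : ℕ} (r : Fin n → ℕ) (hr : ∀ i, 2 ≤ r i) (i : Fin n) :
    2 * bet r i ≤ ∏ i, r i := by
  induction n with
  | zero => exact i.elim0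
  | succ n ih =>
    rw [Fin.prod_univ_succ]
    refine Fin.cases ?_ (fun j => ?_) i
    · rw [bet_zero]
      have h1 := hr 0
      have h2 : 0 < ∏ i : Fin n, r i.succ := Finset.prod_pos fun i _ => by
        have := hr i.succ; omega
      nlinarith
    · rw [bet_succ]
      have h2 := ih (fun j => r j.succ) (fun i => hr _) j
      calc 2 * (r 0 * bet (fun j => r j.succ) j) = r 0 * (2 * bet (fun j => r j.succ) j) := by ring
        _ ≤ _ := Nat.mul_le_mul_left _ h2

theorem bet_inj {n : ℕ} (r : Fin n → ℕ) (hr : ∀ i, 2 ≤ r i) {i j : Fin n}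
    (h : bet r i = bet r j) : i = j := by
  induction n with
  | zero => exact i.elim0
  | succ n ih =>
    have key : ∀ k : Fin n, 2 ≤ bet r k.succ := fun k => by
      rw [bet_succ]
      have h1 := hr 0
      have h2 := bet_pos (fun j => r j.succ) (fun i => hr _) k
      nlinarith
    induction i using Fin.cases with
    | zero =>
      induction j using Fin.cases with
      | zero => rfl
      | succ j =>
        have := key j
        rw [bet_zero] at h
        omega
    | succ i =>
      induction j using Fin.cases with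
      | zero =>
        have := key i
        rw [bet_zero] at h
        omega
      | succ j =>
        rw [bet_succ, bet_succ] at h
        have h1 := hr 0
        have h2 := Nat.eq_of_mul_eq_mul_left (by omega) h
        rw [ih (fun j => r j.succ) (fun i => hr _) h2]

end Pool.Agent.TG
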