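import Pool.Agent.TG.Crit2
import Pool.Agent.TG.Radix
import Pool.Agent.TG.ArithR
import Pool.Agent.TG.LowG

/-!
# The stamp family: assembly

Let `K = ∑ (r i - 1) + 1`, `R = ∏ r i`, `K R ≤ m`, `N = m / K` (so `R ≤ N`, `K ≤ R` by `1 + ∑ (r i - 1) ≤ ∏ r i`), `m = K N + ρ`,
`ρ < K`; `β = bet r`, `2 β i ≤ R ≤ N`.  Apply `low_criterion2` with `e := n + 2`,
`a = mk2 1 N (fun i => N + β i)`, `W = mk2 (2 m + 1) (N + m (N - 1)) (fun i => N + β i + m (N + β i - 1))` (`mk2`, `sum_mk2`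
are in `LowG`; imitate the proof of `low` there).  For `p = mk2 x y z`: `∑ p j • a j = vb N β x y z`, `∑ p j * W j = wb m N β x y z`.

`S`: for `s < R - 1` take `z` from `radix_exists` (`∑ z ≤ ∑ (r i - 1) = K - 1`), `d = K - 1` if `ρ ≤ s`, `d = K` if `s < ρ`,
`y = d - ∑ z`, and the triple `(0, y, z)`: `V = d N + s < m` and `V < (d + 1) N` (`s < R ≤ N`).  Different `s` give different `V < m`.
* `hS`: `wb_lt_or`.
* `hmax`, generator `X`: if `V + 1 < m`, the digits of `s + 1 < R` with the same `d` give a triple of the same degree `d`,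
  value `V + 1`, `x = 0` (if `d = K - 1` then `s + 1 < R ≤ N`; if `d = K` and `s + 1 < ρ`; the weight is smaller by `m`), if
  `V + 1 = m` (only `d = K`, `s + 1 = ρ`) the triple `0` (weight `0`).  [If `d = K - 1`, then `V + 1 = (K-1) N + s + 1 < K N ≤ m`.]
* generators `Y` (`b = N`) and `G i` (`b = N + β i`): `V + b ≥ m`: `d = K - 1`: `V + b ≥ K N + s ≥ m`; `d = K`:
  `V + b ≥ (K+1) N ≥ m`.  `v = V + b - m`: `d = K - 1`: `v ≤ s + β i - ρ`, `v + d < R + R/2 + K`; `d = K`: `v ≤ N + β i`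
  (`s < ρ`), `v + d ≤ N + R/2 + K`.  As `K ≥ 3`, `m ≥ 3 N`, and `R, K ≤ N`: need `v + d < m`: in the first case
  `v + d ≤ (R - 2) + R/2 + (K - 1) < 3 N`; in the second `v + d ≤ N - 1 + R/2 + K < 3 N` (use `s < ρ`, so
  `v = N + s - ρ + β i ≤ N - 1 + β i`).  Then `wrap`, with the triple `(v, 0, 0)`.
* `hatom`: `atX`, `atY`, `atG` (`N ≥ R ≥ K ≥ 3`).
-/

namespace Pool.Agent.TG

open Pool.Agent.Hhelper4.NS

/-- the values of the generators -/
def rA {n : ℕ} (N : ℕ) (β : Fin n → ℕ) : Fin (n + 2) → ℕ := mk2 1 N (fun i : Fin n => N + β i)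

/-- the other part of the weights -/
def rB {n : ℕ} (N : ℕ) (β : Fin n → ℕ) : Fin (n + 2) → ℕ :=
  mk2 2 (N - 1) (fun i : Fin n => N - 1 + β i)

/-- the weights -/
def rW {n : ℕ} (m N : ℕ) (β : Fin n → ℕ) : Fin (n + 2) → ℕ := fun j => rA N β j + m * rB N β j

theorem sum_rA {n : ℕ} (N : ℕ) (β : Fin n → ℕ) (x y : ℕ) (z : Fin n → ℕ) :
    ∑ j, mk2 x y z j * rA N β j = vb N β x y z := by
  unfold rA vb
  rw [sum_mk2]
  have h : ∑ i, z i * (N + β i) = (∑ i, z i) * N + ∑ i : Fin n, β i * z i := by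
    rw [Finset.sum_mul, ← Finset.sum_add_distrib]
    exact Finset.sum_congr rfl (fun i _ => by ring)
  rw [h]
  ring

theorem sum_rB {n : ℕ} (N : ℕ) (β : Fin n → ℕ) (x y : ℕ) (z : Fin n → ℕ) :
    ∑ j, mk2 x y z j * rB N β j = 2 * x + (y + ∑ i, z i) * (N - 1) + ∑ i, β i * z i := by
  unfold rB
  rw [sum_mk2]
  have h : ∑ i, z i * (N - 1 + β i) = (∑ i, z i) * (N - 1) + ∑ i : Fin n, β i * z i := by
    rw [Finset.sum_mul, ← Finset.sum_add_distrib]
    exact Finset.sum_congr rfl (fun i _ => by ring)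
  rw [h]
  ring

theorem sum_rW {n : ℕ} (m N : ℕ) (β : Fin n → ℕ) (x y : ℕ) (z : Fin n → ℕ) :
    ∑ j, mk2 x y z j * rW m N β j = wb m N β x y z := by
  unfold rW wb
  rw [← sum_rA, ← sum_rB, Finset.mul_sum, ← Finset.sum_add_distrib]
  exact Finset.sum_congr rfl (fun i _ => by ring)

theorem sum_rW' {n : ℕ} (m N : ℕ) (β : Fin n → ℕ) (p : Fin (n + 2) → ℕ) :
    ∑ j, p j * rW m N β j = wb m N β (p 0) (p (Fin.succ 0)) (tl2 p) := by
  rw [← sum_rW, mk2_tl2]

theorem sum_castR {n m : ℕ} (N : ℕ) (β : Fin n → ℕ) (p : Fin (n + 2) → ℕ) :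
    ∑ j, p j • ((rA N β j : ℕ) : ZMod m) =
      ((vb N β (p 0) (p (Fin.succ 0)) (tl2 p) : ℕ) : ZMod m) := by
  rw [← sum_rA, mk2_tl2, Nat.cast_sum]
  exact Finset.sum_congr rfl (fun i _ => by rw [nsmul_eq_mul, Nat.cast_mul])

theorem vb_zero0 {n : ℕ} (N : ℕ) (β : Fin n → ℕ) (v : ℕ) :
    vb N β v 0 (0 : Fin n → ℕ) = v := by
  unfold vb
  simp

theorem wb_zero0 {n : ℕ} (m N : ℕ) (β : Fin n → ℕ) (v : ℕ) :
    wb m N β v 0 (0 : Fin n → ℕ) = v + m * (2 * v) := by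
  unfold wb
  rw [vb_zero0]
  simp

theorem sum_le_prod {n : ℕ} (r : Fin n → ℕ) (hr : ∀ i, 2 ≤ r i) :
    ∑ i, (r i - 1) + 1 ≤ ∏ i, r i := by
  induction n with
  | zero => simp
  | succ n ih =>
    rw [Fin.sum_univ_succ, Fin.prod_univ_succ]
    have h1 := ih (fun j => r j.succ) (fun i => hr _)
    have h2 := hr 0
    obtain ⟨a, ha⟩ : ∃ a, r 0 = a + 2 := ⟨r 0 - 2, by omega⟩
    have h3 : ∑ i : Fin n, (r i.succ - 1) + 1 ≤ ∏ i : Fin n, r i.succ := h1
    rw [ha]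
    have h4 : (a + 2) * (∑ i : Fin n, (r i.succ - 1) + 1) ≤ (a + 2) * ∏ i : Fin n, r i.succ :=
      Nat.mul_le_mul_left _ h3
    refine le_trans ?_ h4
    have h5 : a + 2 - 1 = a + 1 := by omega
    rw [h5]
    nlinarith [Nat.zero_le (∑ i : Fin n, (r i.succ - 1)), Nat.zero_le a,
      Nat.zero_le (a * ∑ i : Fin n, (r i.succ - 1))]

theorem low2 {n m : ℕ} (hn : 1 ≤ n) (r : Fin n → ℕ) (hr : ∀ i, 2 ≤ r i)
    (hK : 3 ≤ ∑ i, (r i - 1) + 1) (hm : (∑ i, (r i - 1) + 1) * ∏ i, r i ≤ m) :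
    ∃ Γ : AddSubmonoid ℕ, IsNumerical Γ ∧ edim Γ = n + 3 ∧ mult Γ = m ∧
      ∏ i, r i - 1 ≤ type Γ := by
  classical
  obtain ⟨K, hKdef⟩ : ∃ K, K = ∑ i, (r i - 1) + 1 := ⟨_, rfl⟩
  obtain ⟨R, hRdef⟩ : ∃ R, R = ∏ i, r i := ⟨_, rfl⟩
  obtain ⟨β, hβ⟩ : ∃ β, β = bet r := ⟨_, rfl⟩
  have hKR : K ≤ R := by rw [hKdef, hRdef]; exact sum_le_prod r hr
  rw [← hKdef] at hK
  rw [← hKdef, ← hRdef] at hm
  rw [← hRdef]
  have hK0 : 0 < K := by omega
  obtain ⟨N, hN⟩ : ∃ N, N = m / K := ⟨_, rfl⟩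
  obtain ⟨ρ, hρ⟩ : ∃ ρ, ρ = m % K := ⟨_, rfl⟩
  have hmN : K * N + ρ = m := by rw [hN, hρ]; exact Nat.div_add_mod m K
  have hρK : ρ < K := by rw [hρ]; exact Nat.mod_lt _ hK0
  have hRN : R ≤ N := by
    rw [hN, Nat.le_div_iff_mul_le hK0, mul_comm]
    exact hm
  have h3N : 3 * N ≤ K * N := Nat.mul_le_mul_right _ hK
  have hm0 : 0 < m := by omega
  have : NeZero m := ⟨hm0.ne'⟩
  have hβ1 : ∀ i, 1 ≤ β i := by rw [hβ]; exact bet_pos r hr
  have hβ2 : ∀ i, 2 * β i ≤ R := by rw [hβ, hRdef]; exact bet_two r hr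
  have hβi : ∀ i j, β i = β j → i = j := by rw [hβ]; exact fun i j h => bet_inj r hr h
  have hcong : ∀ {u v : ℕ}, ((u : ℕ) : ZMod m) = ((v : ℕ) : ZMod m) → u ≡ v [MOD m] :=
    fun {u v} h => (ZMod.natCast_eq_natCast_iff u v m).1 h
  -- digits
  have hex : ∀ s : ℕ, ∃ z : Fin n → ℕ, s < R → (∑ i, z i ≤ K - 1 ∧ ∑ i, β i * z i = s) := by
    intro s
    by_cases hs : s < R
    · obtain ⟨z, h1, h2⟩ := radix_exists r hr (by rw [← hRdef]; exact hs)
      refine ⟨z, fun _ => ⟨?_, by rw [hβ]; exact h2⟩⟩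
      have : ∑ i, z i ≤ ∑ i, (r i - 1) := Finset.sum_le_sum fun i _ => by
        have := h1 i
        omega
      omega
    · exact ⟨0, fun h => absurd h hs⟩
  choose z hz using hex
  obtain ⟨d, hd⟩ : ∃ d : ℕ → ℕ, ∀ s, (d s = K - 1 ∧ ρ ≤ s) ∨ (d s = K ∧ s < ρ) := by
    refine ⟨fun s => if ρ ≤ s then K - 1 else K, fun s => ?_⟩
    by_cases h : ρ ≤ s
    · exact Or.inl ⟨if_pos h, h⟩
    · exact Or.inr ⟨if_neg h, not_le.1 h⟩
  have hvb : ∀ {s e : ℕ}, s < R → K - 1 ≤ e →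
      vb N β 0 (e - ∑ i, z s i) (z s) = e * N + s := by
    intro s e hs he
    obtain ⟨h1, h2⟩ := hz s hs
    unfold vb
    rw [h2, Nat.sub_add_cancel (le_trans h1 he)]
    omega
  have hwb : ∀ {s e : ℕ}, s < R → K - 1 ≤ e →
      wb m N β 0 (e - ∑ i, z s i) (z s) = (e * N + s) + m * (e * (N - 1) + s) := by
    intro s e hs he
    obtain ⟨h1, h2⟩ := hz s hs
    unfold wb
    rw [hvb hs he, h2, Nat.sub_add_cancel (le_trans h1 he)]
    congr 2
    omega
  have hdK : ∀ s, K - 1 ≤ d s := fun s => by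
    rcases hd s with h | h <;> omega
  have hVm : ∀ {s}, s < R - 1 → d s * N + s < m := by
    intro s hs
    rcases hd s with ⟨h1, h2⟩ | ⟨h1, h2⟩
    · rw [h1]
      have : (K - 1) * N + N = K * N := by
        rw [← Nat.succ_mul]
        congr 1
        omega
      omega
    · rw [h1]
      omega
  have hinjs : ∀ {s t}, s < R - 1 → t < R - 1 → d s * N + s = d t * N + t → s = t := by
    intro s t hs ht h
    have h1 : (s + N * d s) % N = s := by
      rw [Nat.add_mul_mod_self_left]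
      exact Nat.mod_eq_of_lt (by omega)
    have h2 : (t + N * d t) % N = t := by
      rw [Nat.add_mul_mod_self_left]
      exact Nat.mod_eq_of_lt (by omega)
    rw [← h1, ← h2, mul_comm N (d s), mul_comm N (d t)]
    congr 1
    omega
  obtain ⟨f, hf⟩ : ∃ f : ℕ → (Fin (n + 2) → ℕ), ∀ s, f s = mk2 0 (d s - ∑ i, z s i) (z s) :=
    ⟨_, fun _ => rfl⟩
  have hfV : ∀ {s}, s < R - 1 → vb N β (f s 0) (f s (Fin.succ 0)) (tl2 (f s)) = d s * N + s := by
    intro s hs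
    rw [hf, tl2_mk2, mk2_zero, mk2_one]
    exact hvb (by omega) (hdK s)
  have hcard : ((Finset.range (R - 1)).image f).card = R - 1 := by
    rw [Finset.card_image_of_injOn, Finset.card_range]
    intro s hs t ht h
    rw [Finset.mem_coe, Finset.mem_range] at hs ht
    refine hinjs hs ht ?_
    rw [← hfV hs, ← hfV ht, h]
  have hpos : ∀ j : Fin (n + 2), 1 ≤ rA N β j ∧ 1 ≤ rB N β j := by
    intro j
    refine Fin.cases ⟨le_refl 1, by show 1 ≤ 2; omega⟩ (fun j => ?_) j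
    refine Fin.cases ⟨by show 1 ≤ N; omega, by show 1 ≤ N - 1; omega⟩ (fun k => ?_) j
    exact ⟨by show 1 ≤ N + β k; omega, by show 1 ≤ N - 1 + β k; omega⟩
  rw [← hcard]
  refine low_criterion2 (e := n + 2) (fun j => ((rA N β j : ℕ) : ZMod m)) (rW m N β) ?_ ?_ ?_ ?_
    ((Finset.range (R - 1)).image f) ?_ ?_ ?_
  · intro i
    unfold rW
    rw [Nat.cast_add, Nat.cast_mul, ZMod.natCast_self, zero_mul, add_zero]
  · intro i
    obtain ⟨h1, h2⟩ := hpos i
    unfold rW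
    have h3 : m * 1 ≤ m * rB N β i := Nat.mul_le_mul_left m h2
    omega
  · intro c
    refine ⟨mk2 c.val 0 0, ?_⟩
    rw [sum_castR, tl2_mk2, mk2_zero, mk2_one, vb_zero0, ZMod.natCast_val, ZMod.cast_id]
  · intro i q hq hne
    rw [sum_castR] at hq
    rw [sum_rW']
    have hne' : ∀ (x y : ℕ) (z : Fin n → ℕ), Pi.single i 1 = mk2 x y z →
        ¬ (q 0 = x ∧ q (Fin.succ 0) = y ∧ tl2 q = z) := by
      rintro x y z h ⟨h1, h2, h3⟩
      apply hne
      rw [h, ← h1, ← h2, ← h3, mk2_tl2]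
    revert hq hne hne'
    refine Fin.cases ?_ (fun j => ?_) i
    · intro hq _ hne'
      exact atX (m := m) (N := N) (by omega) (by omega) (hcong hq) (hne' 1 0 0 single_zero)
    · refine Fin.cases ?_ (fun k => ?_) j
      · intro hq _ hne'
        exact atY (m := m) (N := N) (by omega) (by omega) hβ1 (hcong hq) (hne' 0 1 0 single_one)
      · intro hq _ hne'
        have h2 := hβ2 k
        have h := atG (by omega) hβ1 hβi k (by omega) (by omega) (hcong hq)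
          (hne' 0 0 _ (single_succ k))
        have h3 : N + β k - 1 = N - 1 + β k := by omega
        rw [h3] at h
        exact h
  · intro p hp q hq
    obtain ⟨s, hs, rfl⟩ := Finset.mem_image.1 hp
    rw [Finset.mem_range] at hs
    rw [sum_castR, sum_castR] at hq
    rw [sum_rW', sum_rW']
    have hc := hcong hq
    rw [hf, tl2_mk2, mk2_zero, mk2_one] at hc ⊢
    have h1 : d s - ∑ i, z s i + ∑ i, z s i = d s :=
      Nat.sub_add_cancel (le_trans (hz s (by omega)).1 (hdK s))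
    rcases wb_lt_or (m := m) (N := N) (β := β) (y := d s - ∑ i, z s i) (z := z s) (by omega)
      (by omega) (by rw [hvb (by omega) (hdK s)]; exact hVm hs)
      (by rw [hvb (by omega) (hdK s), h1, Nat.succ_mul]; omega) hc with h | h
    · exact h.le
    · exact h.1.le
  · intro p hp q hq hpq
    obtain ⟨s, hs, rfl⟩ := Finset.mem_image.1 hp
    obtain ⟨t, ht, rfl⟩ := Finset.mem_image.1 hq
    rw [Finset.mem_range] at hs ht
    rw [sum_castR, sum_castR, hfV hs, hfV ht] at hpq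
    have h1 : d t * N + t = d s * N + s :=
      Nat.ModEq.eq_of_lt_of_lt (hcong hpq) (hVm ht) (hVm hs)
    rw [hinjs ht hs h1]
  · intro p hp i
    obtain ⟨s, hs, rfl⟩ := Finset.mem_image.1 hp
    rw [Finset.mem_range] at hs
    have hVb : ∀ b, N ≤ b → 2 * b ≤ 3 * N → ∃ v, vb N β 0 (d s - ∑ i, z s i) (z s) + b = m + v ∧
        v + (d s - ∑ i, z s i + ∑ i, z s i) < m := by
      intro b hb1 hb2
      rw [hvb (by omega) (hdK s), Nat.sub_add_cancel (le_trans (hz s (by omega)).1 (hdK s))]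
      rcases hd s with ⟨h1, h2⟩ | ⟨h1, h2⟩
      · rw [h1]
        have h3 : (K - 1) * N + N = K * N := by
          rw [← Nat.succ_mul]
          congr 1
          omega
        exact ⟨(K - 1) * N + s + b - m, by omega, by omega⟩
      · rw [h1]
        exact ⟨K * N + s + b - m, by omega, by omega⟩
    rw [sum_castR, sum_rW', hf, tl2_mk2, mk2_zero, mk2_one]
    refine Fin.cases ?_ (fun j => ?_) i
    · refine ⟨mk2 0 (d s - ∑ i, z (s + 1) i) (z (s + 1)), ?_, ?_⟩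
      · rw [sum_castR, tl2_mk2, mk2_zero, mk2_one, hvb (by omega) (hdK s),
          hvb (by omega) (hdK s), ← Nat.cast_add]
        rfl
      · rw [sum_rW', tl2_mk2, mk2_zero, mk2_one, hwb (by omega) (hdK s),
          hwb (by omega) (hdK s)]
        show _ < _ + (1 + m * 2)
        have h1 : m * (d s * (N - 1) + (s + 1)) = m * (d s * (N - 1) + s) + m := by ring
        rw [h1]
        omega
    · refine Fin.cases ?_ (fun k => ?_) j
      · obtain ⟨v, h1, h2⟩ := hVb N le_rfl (by omega)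
        refine ⟨mk2 v 0 0, ?_, ?_⟩
        · rw [sum_castR, tl2_mk2, mk2_zero, mk2_one, vb_zero0, ← Nat.cast_add]
          show _ = ((vb N β 0 (d s - ∑ i, z s i) (z s) + N : ℕ) : ZMod m)
          rw [h1, Nat.cast_add, ZMod.natCast_self, zero_add]
        · rw [sum_rW', tl2_mk2, mk2_zero, mk2_one, wb_zero0]
          exact wrap (N := N) (b := N) (by omega) (by omega) h1 h2
      · have h5 := hβ2 k
        obtain ⟨v, h1, h2⟩ := hVb (N + β k) (by omega) (by omega)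
        refine ⟨mk2 v 0 0, ?_, ?_⟩
        · rw [sum_castR, tl2_mk2, mk2_zero, mk2_one, vb_zero0, ← Nat.cast_add]
          show _ = ((vb N β 0 (d s - ∑ i, z s i) (z s) + (N + β k) : ℕ) : ZMod m)
          rw [h1, Nat.cast_add, ZMod.natCast_self, zero_add]
        · rw [sum_rW', tl2_mk2, mk2_zero, mk2_one, wb_zero0]
          have h3 := wrap (N := N) (b := N + β k) (by omega) (by omega) h1 h2
          have h4 : N + β k - 1 = N - 1 + β k := by omega
          rw [h4] at h3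
          exact h3

end Pool.Agent.TG
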