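import Pool.Agent.Hhelper4.NumSemigroup

/-!
# The order ideal of normal forms

`w` is an Apery function on `ZMod m`, `a : Fin e → ZMod m` a family which contains all atoms.
Write `cl p = ∑ i, p i • a i`, `wt p = ∑ i, p i * w (a i)`.

* `w (cl p) ≤ wt p` (subadditivity).
* Every class `c` has a `p` with `cl p = c` and `wt p = w c`: strong induction on `w c`: `c = 0`: `p = 0`;
  `c` an atom: `c = a i`, `p = e_i`; otherwise `c = y + z`, `y, z ≠ 0`, `w c = w y + w z` and
  `w y, w z > 0`, so both are smaller.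
* Let `P` be the set of `p` such that `wt p = w (cl p)` and `p` is minimal in the (well-founded, linear,
  translation invariant) lexicographic order (`toLex`, `Pi.Lex`) among all `q` with `cl q = cl p`,
  `wt q = wt p`.  Each class has exactly one element in `P` (so `P` is finite with `m` elements).
  `P` is a lower set: let `p ∈ P`, `q ≤ p`, `r = p - q`.  If `q'` has the class of `q`, then `q' + r` has the class
  of `p`; so `wt q' < wt q` is impossible (`wt (q' + r) < wt p = w (cl p)`), and if `wt q' = wt q`, then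
  `wt (q' + r) = wt p` so `toLex p ≤ toLex (q' + r)`, so `toLex q ≤ toLex q'`.
  (An alternative to `Pi.Lex`: any injective order-preserving trick, e.g. minimise the pair
  (`wt p`, `∑ i, p i * B^i`) with `B` larger than all relevant coordinates; `Pi.Lex` should be easier:
  instances `Pi.Lex.linearOrder`, `Pi.Lex.wellFoundedLT`, ordered cancel additive monoid on `Lex (Fin e → ℕ)`.)
* If `c` is `IsMax`, and `p ∈ P` its representative, then `p + e_i ∉ P` for all `i`: otherwise
  `w (c + a i) = wt (p + e_i) = w c + wt e_i`, and `wt e_i = w (a i)`, and `a i ≠ 0`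
  (if `a i = 0` then `cl (p + e_i) = cl p` so `p + e_i = p`, impossible), contradiction to `IsMax`.
  So `c ↦` representative is an injection of the maximal classes into the maximal elements of `P`.
-/

namespace Pool.Agent.TG

open Pool.Agent.Hhelper4.NS Finset

private def nfcl {e m : ℕ} (a : Fin e → ZMod m) (p : Fin e → ℕ) : ZMod m := ∑ i, p i • a i

private def nfwt {e m : ℕ} (w : ZMod m → ℕ) (a : Fin e → ZMod m) (p : Fin e → ℕ) : ℕ :=
  ∑ i, p i * w (a i)

private theorem nfcl_add {e m : ℕ} (a : Fin e → ZMod m) (p q : Fin e → ℕ) :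
    nfcl a (p + q) = nfcl a p + nfcl a q := by
  unfold nfcl
  rw [← sum_add_distrib]
  exact sum_congr rfl fun i _ => by rw [Pi.add_apply, add_smul]

private theorem nfwt_add {e m : ℕ} (w : ZMod m → ℕ) (a : Fin e → ZMod m) (p q : Fin e → ℕ) :
    nfwt w a (p + q) = nfwt w a p + nfwt w a q := by
  unfold nfwt
  rw [← sum_add_distrib]
  exact sum_congr rfl fun i _ => by rw [Pi.add_apply, add_mul]

private theorem nfcl_single {e m : ℕ} (a : Fin e → ZMod m) (i : Fin e) :
    nfcl a (Pi.single i 1) = a i := by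
  unfold nfcl
  rw [sum_eq_single i]
  · rw [Pi.single_eq_same, one_smul]
  · intro j _ hj
    rw [Pi.single_eq_of_ne hj, zero_smul]
  · intro h
    exact (h (mem_univ i)).elim

private theorem nfwt_single {e m : ℕ} (w : ZMod m → ℕ) (a : Fin e → ZMod m) (i : Fin e) :
    nfwt w a (Pi.single i 1) = w (a i) := by
  unfold nfwt
  rw [sum_eq_single i]
  · rw [Pi.single_eq_same, one_mul]
  · intro j _ hj
    rw [Pi.single_eq_of_ne hj, zero_mul]
  · intro h
    exact (h (mem_univ i)).elim

private theorem nf_smul {m : ℕ} {w : ZMod m → ℕ} (h : IsApery m w) (x : ZMod m) (n : ℕ) :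
    w (n • x) ≤ n * w x := by
  induction n with
  | zero => simp [h.zero]
  | succ n ih =>
    rw [add_smul, one_smul, add_mul, one_mul]
    exact (h.add _ _).trans (Nat.add_le_add_right ih _)

private theorem nf_sub {e m : ℕ} {w : ZMod m → ℕ} (h : IsApery m w) (a : Fin e → ZMod m)
    (p : Fin e → ℕ) : w (nfcl a p) ≤ nfwt w a p := by
  have key : ∀ s : Finset (Fin e), w (∑ i ∈ s, p i • a i) ≤ ∑ i ∈ s, p i * w (a i) := by
    intro s
    induction s using Finset.cons_induction with
    | empty => simp [h.zero]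
    | cons i s hi ih =>
      rw [sum_cons, sum_cons]
      exact (h.add _ _).trans (Nat.add_le_add (nf_smul h _ _) ih)
  exact key univ

private theorem nf_rep {e m : ℕ} {w : ZMod m → ℕ} (h : IsApery m w) (a : Fin e → ZMod m)
    (ha : ∀ x, IsAtom w x → ∃ i, a i = x) : ∀ (N : ℕ) (c : ZMod m), w c ≤ N →
    ∃ p : Fin e → ℕ, nfcl a p = c ∧ nfwt w a p = w c := by
  intro N
  induction N with
  | zero =>
    intro c hc
    have hc0 : c = 0 := w_eq_zero h (by omega)
    subst hc0
    exact ⟨0, by simp [nfcl], by simp [nfwt, h.zero]⟩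
  | succ N ih =>
    intro c hc
    by_cases h0 : c = 0
    · subst h0
      exact ⟨0, by simp [nfcl], by simp [nfwt, h.zero]⟩
    by_cases hat : IsAtom w c
    · obtain ⟨i, rfl⟩ := ha c hat
      exact ⟨Pi.single i 1, nfcl_single a i, nfwt_single w a i⟩
    · have hex : ∃ y z, y ≠ 0 ∧ z ≠ 0 ∧ y + z = c ∧ w y + w z = w c := by
        by_contra hne
        push Not at hne
        exact hat ⟨h0, fun y z hy hz hyz => hne y z hy hz hyz⟩
      obtain ⟨y, z, hy, hz, hyz, hw⟩ := hex
      have hy' : w y ≠ 0 := fun hh => hy (w_eq_zero h hh)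
      have hz' : w z ≠ 0 := fun hh => hz (w_eq_zero h hh)
      obtain ⟨p, hp1, hp2⟩ := ih y (by omega)
      obtain ⟨q, hq1, hq2⟩ := ih z (by omega)
      exact ⟨p + q, by rw [nfcl_add, hp1, hq1, hyz], by rw [nfwt_add, hp2, hq2, hw]⟩

private theorem nf_min {e m : ℕ} {w : ZMod m → ℕ} (h : IsApery m w) (a : Fin e → ZMod m)
    (ha : ∀ x, IsAtom w x → ∃ i, a i = x) (c : ZMod m) :
    ∃ p : Fin e → ℕ, nfcl a p = c ∧ nfwt w a p = w c ∧
      ∀ q, nfcl a q = c → nfwt w a q = w c → toLex p ≤ toLex q := by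
  let S : Set (Lex (Fin e → ℕ)) := {q | nfcl a (ofLex q) = c ∧ nfwt w a (ofLex q) = w c}
  have hS : S.Nonempty := by
    obtain ⟨p, h1, h2⟩ := nf_rep h a ha _ c le_rfl
    exact ⟨toLex p, h1, h2⟩
  have hwf : WellFounded ((· < ·) : Lex (Fin e → ℕ) → Lex (Fin e → ℕ) → Prop) := wellFounded_lt
  refine ⟨ofLex (hwf.min S hS), (hwf.min_mem S hS).1, (hwf.min_mem S hS).2, fun q h1 h2 => ?_⟩
  exact not_lt.1 (hwf.not_lt_min S (x := toLex q) ⟨h1, h2⟩)

open Classical in
theorem exists_nf {e m : ℕ} [NeZero m] {w : ZMod m → ℕ} (h : IsApery m w) (a : Fin e → ZMod m)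
    (ha : ∀ x, IsAtom w x → ∃ i, a i = x) :
    ∃ P : Finset (Fin e → ℕ), IsLowerSet (P : Set (Fin e → ℕ)) ∧ P.card = m ∧
      (∀ p ∈ P, ∀ q ∈ P, ∑ i, p i • a i = ∑ i, q i • a i → p = q) ∧
      (∀ c : ZMod m, ∃ p ∈ P, ∑ i, p i • a i = c) ∧
      (univ.filter (fun x : ZMod m => IsMax w x)).card ≤
        (P.filter (fun p => ∀ i, p + Pi.single i 1 ∉ P)).card := by
  choose nf h1 h2 h3 using nf_min h a ha
  have hinj : Function.Injective nf := fun c d hcd => by
    rw [← h1 c, hcd, h1]
  have hmem : ∀ p, p ∈ univ.image nf ↔ p = nf (nfcl a p) := by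
    intro p
    rw [mem_image]
    constructor
    · rintro ⟨c, -, rfl⟩
      rw [h1]
    · intro hp
      exact ⟨nfcl a p, mem_univ _, hp.symm⟩
  refine ⟨univ.image nf, ?_, ?_, ?_, ?_, ?_⟩
  · intro p q hqp hp
    have hp' := (hmem p).1 hp
    refine (hmem q).2 ?_
    obtain ⟨r, rfl⟩ : ∃ r, p = q + r := by
      refine ⟨p - q, ?_⟩
      funext i
      have : q i ≤ p i := hqp i
      simp only [Pi.add_apply, Pi.sub_apply]
      omega
    set c := nfcl a (q + r) with hc
    have e1 : nfwt w a (q + r) = w c := by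
      rw [hp']
      exact h2 c
    have e2 : nfcl a q + nfcl a r = c := by rw [hc, nfcl_add]
    have e3 : w c ≤ w (nfcl a q) + w (nfcl a r) := by
      rw [← e2]
      exact h.add _ _
    have e4 := nf_sub h a q
    have e5 := nf_sub h a r
    rw [nfwt_add] at e1
    have e6 : nfwt w a q = w (nfcl a q) := by omega
    have e7 : toLex (nf (nfcl a q)) ≤ toLex q := h3 _ q rfl e6
    have e8 : toLex (nf c) ≤ toLex (nf (nfcl a q) + r) := by
      refine h3 c _ ?_ ?_
      · rw [nfcl_add, h1, e2]
      · rw [nfwt_add, h2]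
        omega
    rw [← hp'] at e8
    have e9 : toLex q ≤ toLex (nf (nfcl a q)) := by
      have : toLex q + toLex r ≤ toLex (nf (nfcl a q)) + toLex r := e8
      exact le_of_add_le_add_right this
    exact toLex.injective (le_antisymm e9 e7)
  · rw [card_image_of_injective _ hinj, card_univ, ZMod.card]
  · intro p hp q hq hpq
    rw [(hmem p).1 hp, (hmem q).1 hq]
    exact congrArg nf hpq
  · intro c
    exact ⟨nf c, mem_image_of_mem _ (mem_univ c), h1 c⟩
  · refine card_le_card_of_injOn nf ?_ hinj.injOn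
    intro c hc
    have hc' : IsMax w c := (mem_filter.1 hc).2
    refine mem_filter.2 ⟨mem_image_of_mem _ (mem_univ c), fun i hi => ?_⟩
    have hi' := (hmem _).1 hi
    rw [nfcl_add, h1, nfcl_single] at hi'
    by_cases hai : a i = 0
    · rw [hai, add_zero] at hi'
      have := congrFun hi' i
      rw [Pi.add_apply, Pi.single_eq_same] at this
      omega
    · have e1 : nfwt w a (nf c + Pi.single i 1) = w (c + a i) := by
        rw [hi']
        exact h2 _
      rw [nfwt_add, h2, nfwt_single] at e1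
      exact hc' (a i) hai e1.symm

end Pool.Agent.TG
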