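import Pool.Agent.TG.Growth
import Pool.Agent.TG.Crit

/-!
# `T(e, m) ≥ 1` for all `e < m`, and the growth bounds for all `m > e`

`T_pos`: `low_criterion` (Crit) with `a i = i + 1`, `W i = m + i + 1` (`i : Fin e`) and `S = ∅`: `surj`: for `e ≥ 1`, `a 0 = 1`;
`hatom`: a `q ≠ e_i` with class `i + 1`: `q ≠ 0` as `i + 1 ≤ e < m` (so `a i ≠ 0`); if `∑ q ≥ 2` then the weight
is `≥ 2 (m + 1) > m + i + 1`; if `q = e_j`, then `j + 1 ≡ i + 1 (mod m)`, so `j = i`.  So there is a numerical semigroup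
with `edim = e + 1`, `mult = m`; its type is `≥ 1`: `exists_apery`, `type_sg`, and the class `x` with the largest
`w x` is `IsMax` (`w (x + y) ≤ w x < w x + w y`).  Then `le_csSup` (bounded above: see the proof of `T_ge`).

`T_low`: for `m ≥ 3^(e-1)` from `T_lower`; otherwise `m^((e-2)/(e-1)) ≤ 3^(e-2)` and `T ≥ 1`.
-/

namespace Pool.Agent.TG

open Pool.Agent.Hhelper4.NS

private theorem bdd_T {e m : ℕ} (hm0 : 1 ≤ m) :
    BddAbove {t | ∃ Γ : AddSubmonoid ℕ, IsNumerical Γ ∧ edim Γ = e + 2 + 1 ∧ mult Γ = m ∧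
      type Γ = t} := by
  refine ⟨(e + 2) * (1 ^ (e + 1) + m), ?_⟩
  rintro t ⟨Δ, d1, d2, d3, rfl⟩
  have := type_le (e := e) d1 d2 d3 hm0 1
  rw [one_mul] at this
  exact this

theorem T_pos {e m : ℕ} (he : 3 ≤ e) (hm : e < m) : 1 ≤ T e m := by
  classical
  haveI : NeZero m := ⟨by omega⟩
  have hcrit := low_criterion (e := e) (m := m) (fun i => ((i.val + 1 : ℕ) : ZMod m))
    (fun i => m + i.val + 1) (fun i => by push_cast; simp) (fun i => by show m < m + i.val + 1; omega)
    (by
      intro c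
      refine ⟨Pi.single ⟨0, by omega⟩ c.val, ?_⟩
      rw [Finset.sum_eq_single (⟨0, by omega⟩ : Fin e)]
      · simp
      · intro j _ hj
        rw [Pi.single_eq_of_ne hj, zero_smul]
      · simp)
    (by
      intro i q hq hne
      show m + i.val + 1 < ∑ j, q j * (m + j.val + 1)
      have hi := i.isLt
      have hge : (∑ j, q j) * (m + 1) ≤ ∑ j, q j * (m + j.val + 1) := by
        rw [Finset.sum_mul]
        exact Finset.sum_le_sum fun j _ => Nat.mul_le_mul_left _ (by omega)
      rcases Nat.lt_or_ge (∑ j, q j) 2 with h2 | h2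
      · exfalso
        rcases Nat.eq_zero_or_pos (∑ j, q j) with h0 | h0
        · have hz : ∀ j, q j = 0 := fun j => by
            have := (Finset.sum_eq_zero_iff.1 h0) j (Finset.mem_univ j)
            exact this
          have h3 : ∑ j, q j • (((j.val + 1 : ℕ) : ZMod m)) = 0 :=
            Finset.sum_eq_zero fun j _ => by rw [hz j, zero_smul]
          rw [h3] at hq
          exact cast_ne_zero_of_lt (m := m) (n := i.val + 1) (by omega) (by omega) hq.symm
        · have h1 : ∑ j, q j = 1 := by omega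
          obtain ⟨j, _, hj⟩ : ∃ j ∈ (Finset.univ : Finset (Fin e)), q j ≠ 0 := by
            by_contra hcon
            push Not at hcon
            have := Finset.sum_eq_zero hcon
            omega
          have hqs : q = Pi.single j 1 := by
            have hsplit := Finset.add_sum_erase Finset.univ q (Finset.mem_univ j)
            have hj1 : q j = 1 := by omega
            have hrest : ∑ k ∈ Finset.univ.erase j, q k = 0 := by omega
            funext k
            by_cases hk : k = j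
            · subst hk
              rw [Pi.single_eq_same, hj1]
            · rw [Pi.single_eq_of_ne hk]
              exact (Finset.sum_eq_zero_iff.1 hrest) k (Finset.mem_erase.2 ⟨hk, Finset.mem_univ k⟩)
          have hcls : ∑ k, q k • (((k.val + 1 : ℕ) : ZMod m)) = ((j.val + 1 : ℕ) : ZMod m) := by
            rw [hqs, Finset.sum_eq_single j]
            · rw [Pi.single_eq_same, one_smul]
            · intro k _ hk
              rw [Pi.single_eq_of_ne hk, zero_smul]
            · simp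
          rw [hcls] at hq
          have hji : j.val + 1 = i.val + 1 := by
            have h4 : ((j.val + 1 : ℕ) : ZMod m).val = ((i.val + 1 : ℕ) : ZMod m).val := by
              rw [hq]
            rw [ZMod.val_natCast_of_lt (by have := j.isLt; omega),
              ZMod.val_natCast_of_lt (by omega)] at h4
            exact h4
          apply hne
          rw [hqs]
          have : j = i := Fin.ext (by omega)
          rw [this]
      · have h5 : 2 * (m + 1) ≤ (∑ j, q j) * (m + 1) := Nat.mul_le_mul_right _ h2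
        omega)
    ∅ (by simp) (by simp)
  obtain ⟨Γ, h1, h2, h3, -⟩ := hcrit
  have hpos : 1 ≤ type Γ := by
    obtain ⟨w, h, rfl⟩ := exists_apery h1 h3 (by omega)
    rw [type_sg h, Nat.one_le_iff_ne_zero, ← Nat.pos_iff_ne_zero, Finset.card_pos]
    obtain ⟨x, -, hx⟩ := Finset.exists_max_image (Finset.univ : Finset (ZMod m)) w
      ⟨0, Finset.mem_univ 0⟩
    refine ⟨x, Finset.mem_filter.2 ⟨Finset.mem_univ _, ?_⟩⟩
    intro y hy heq
    have h4 := hx (x + y) (Finset.mem_univ _)
    have h5 := h.lt y hy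
    omega
  refine hpos.trans ?_
  obtain ⟨n, rfl⟩ : ∃ n, e = n + 2 := ⟨e - 2, by omega⟩
  unfold T
  exact le_csSup (bdd_T (by omega)) ⟨Γ, h1, h2, h3, rfl⟩

theorem T_low {e m : ℕ} (he : 3 ≤ e) (hm : e < m) :
    (m : ℝ) ^ (((e : ℝ) - 2) / ((e : ℝ) - 1)) ≤ 3 ^ (e - 2) * (e - 2).factorial * (T e m : ℝ) := by
  have hT0 : (0 : ℝ) ≤ (T e m : ℝ) := Nat.cast_nonneg _
  rcases le_or_gt (3 ^ (e - 1)) m with h | h
  · refine (T_lower he h).trans ?_
    have h1 : (2 : ℝ) ^ (e - 2) ≤ 3 ^ (e - 2) := pow_le_pow_left₀ (by norm_num) (by norm_num) _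
    exact mul_le_mul_of_nonneg_right (mul_le_mul_of_nonneg_right h1 (Nat.cast_nonneg _)) hT0
  · have hT := T_pos he hm
    have hT' : (1 : ℝ) ≤ (T e m : ℝ) := by exact_mod_cast hT
    have he1 : (0 : ℝ) < (e : ℝ) - 1 := by
      have : (3 : ℝ) ≤ (e : ℝ) := by exact_mod_cast he
      linarith
    have he2 : (0 : ℝ) ≤ (e : ℝ) - 2 := by
      have : (3 : ℝ) ≤ (e : ℝ) := by exact_mod_cast he
      linarith
    have h2 : (m : ℝ) ≤ (3 : ℝ) ^ ((e : ℝ) - 1) := by
      have h3 : (m : ℝ) ≤ (3 : ℝ) ^ (e - 1) := by exact_mod_cast h.le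
      have h4 : (3 : ℝ) ^ ((e : ℝ) - 1) = (3 : ℝ) ^ (e - 1) := by
        rw [← Real.rpow_natCast, Nat.cast_sub (by omega)]
        push_cast
        rfl
      rw [h4]
      exact h3
    have h5 : (m : ℝ) ^ (((e : ℝ) - 2) / ((e : ℝ) - 1)) ≤
        ((3 : ℝ) ^ ((e : ℝ) - 1)) ^ (((e : ℝ) - 2) / ((e : ℝ) - 1)) :=
      Real.rpow_le_rpow (Nat.cast_nonneg _) h2 (div_nonneg he2 he1.le)
    have h6 : ((3 : ℝ) ^ ((e : ℝ) - 1)) ^ (((e : ℝ) - 2) / ((e : ℝ) - 1)) = (3 : ℝ) ^ (e - 2) := by
      rw [← Real.rpow_mul (by norm_num), mul_div_cancel₀ _ he1.ne', ← Real.rpow_natCast,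
        Nat.cast_sub (by omega)]
      push_cast
      rfl
    rw [h6] at h5
    refine h5.trans ?_
    have h7 : (1 : ℝ) ≤ ((e - 2).factorial : ℝ) := by
      exact_mod_cast Nat.one_le_iff_ne_zero.2 (Nat.factorial_ne_zero _)
    have h8 : (0 : ℝ) ≤ (3 : ℝ) ^ (e - 2) := by positivity
    calc (3 : ℝ) ^ (e - 2) = 3 ^ (e - 2) * 1 * 1 := by ring
      _ ≤ 3 ^ (e - 2) * (e - 2).factorial * (T e m : ℝ) :=
          mul_le_mul (mul_le_mul_of_nonneg_left h7 h8) hT' (by norm_num) (by positivity)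

end Pool.Agent.TG
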