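import Pool.Agent.TG.Comb
import Pool.Agent.TG.Gen
import Pool.Agent.TG.Nf

/-!
# The upper bound

`type_le`: `exists_apery`; `type_sg`, `edim_sg` (`Hhelper4/NumSemigroup`): `edim = 1 + #atoms`, so there
are `e + 2` atoms; enumerate them by `a : Fin (e + 2) → ZMod m`; `exists_nf`, `full_unique`, `comb` (the
`Decidable` instances of the two filters may differ: `convert`, `Finset.filter_congr_decidable`).
`T_le`: `T` is the `sSup` of a set of natural numbers; if the set is empty it is `0`; otherwise it is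
attained (`Nat.sSup_mem`, bounded above, e.g. by `(e+2)(1+m)`, the case `K = 1`).
-/

namespace Pool.Agent.TG

open Pool.Agent.Hhelper4.NS

theorem type_le {Γ : AddSubmonoid ℕ} {e m : ℕ} (hΓ : IsNumerical Γ) (he : edim Γ = e + 3)
    (hm : mult Γ = m) (hm0 : 1 ≤ m) (K : ℕ) :
    K * type Γ ≤ (e + 2) * (K ^ (e + 1) + m) := by
  classical
  obtain ⟨w, h, rfl⟩ := exists_apery hΓ hm (by omega)
  haveI : NeZero m := ⟨by omega⟩
  have hed := edim_sg h
  rw [he] at hed
  set A : Finset (ZMod m) := Finset.univ.filter (fun x : ZMod m => IsAtom w x) with hA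
  have hc : A.card = e + 2 := by
    have h1 : (Finset.univ.filter (fun x : ZMod m => IsAtom w x)).card = e + 2 := by
      have h2 := hed
      have h3 : (Finset.univ.filter (fun x : ZMod m => IsAtom w x)).card + 1 = e + 3 := by
        rw [h2]
      omega
    rw [hA]
    exact h1
  let E : A ≃ Fin (e + 2) := A.equivFinOfCardEq hc
  let a : Fin (e + 2) → ZMod m := fun i => ((E.symm i : A) : ZMod m)
  have ha : ∀ x, IsAtom w x → ∃ i, a i = x := by
    intro x hx
    have hxA : x ∈ A := by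
      rw [hA]
      exact Finset.mem_filter.2 ⟨Finset.mem_univ _, hx⟩
    refine ⟨E ⟨x, hxA⟩, ?_⟩
    show ((E.symm (E ⟨x, hxA⟩) : A) : ZMod m) = x
    rw [Equiv.symm_apply_apply]
  obtain ⟨P, hP, hcard, inj, surj, hmax⟩ := exists_nf h a ha
  have hF := full_unique a P hP inj surj
  have hcomb := comb P hP hF K
  have hty := type_sg h
  rw [hty]
  refine le_trans (Nat.mul_le_mul_left K hmax) ?_
  rw [hcard] at hcomb
  convert hcomb using 3

theorem T_le {e m : ℕ} (hm0 : 1 ≤ m) (K : ℕ) :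
    K * T (e + 2) m ≤ (e + 2) * (K ^ (e + 1) + m) := by
  have hall : ∀ t ∈ {t | ∃ Γ : AddSubmonoid ℕ, IsNumerical Γ ∧ edim Γ = e + 2 + 1 ∧ mult Γ = m ∧
      type Γ = t}, ∀ K : ℕ, K * t ≤ (e + 2) * (K ^ (e + 1) + m) := by
    rintro t ⟨Γ, h1, h2, h3, rfl⟩ K
    exact type_le h1 (by rw [h2]) h3 hm0 K
  unfold T
  rcases Set.eq_empty_or_nonempty {t | ∃ Γ : AddSubmonoid ℕ, IsNumerical Γ ∧ edim Γ = e + 2 + 1 ∧
      mult Γ = m ∧ type Γ = t} with hemp | hne
  · rw [hemp]
    simp
  · have hbdd : BddAbove {t | ∃ Γ : AddSubmonoid ℕ, IsNumerical Γ ∧ edim Γ = e + 2 + 1 ∧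
        mult Γ = m ∧ type Γ = t} := by
      refine ⟨(e + 2) * (1 ^ (e + 1) + m), ?_⟩
      intro t ht
      have := hall t ht 1
      rwa [one_mul] at this
    exact hall _ (Nat.sSup_mem hne hbdd) K

end Pool.Agent.TG
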